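import Mathlib

/-!
# The free product `W * ⟨c⟩` and its heads
-/

set_option autoImplicit false

namespace Pool.Agent.helper99.LC

open Monoid

/-- Abstract interface to the free product of `W` and `⟨c⟩ ≅ ℤ`. `hW g` is the first syllable of
`g` if it lies in `W` (else `1`), `a0 g` is the exponent of the first syllable if it is a power
of `c` (else `0`). -/
structure FProd (W : Type) [Group W] (Γ : Type) [Group Γ] where
  ι : W →* Γ
  c : Γ
  hW : Γ → W
  a0 : Γ → ℤ
  hW_one : hW 1 = 1
  a0_one : a0 1 = 0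
  hW_mul : ∀ w g, hW (ι w * g) = w * hW g
  a0_mul : ∀ (a : ℤ) g, a0 (c ^ a * g) = a + a0 g
  alt : ∀ g, a0 g ≠ 0 → hW g = 1
  ind : ∀ (motive : Γ → Prop), motive 1 →
    (∀ w g, w ≠ 1 → hW g = 1 → motive g → motive (ι w * g)) →
    (∀ (a : ℤ) g, a ≠ 0 → a0 g = 0 → motive g → motive (c ^ a * g)) → ∀ g, motive g

/-- the family of the two factors -/
def fam (W : Type) : Bool → Type
  | true => W
  | false => Multiplicative ℤ

instance (W : Type) [Group W] (b : Bool) : Group (fam W b) :=
  match b with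
  | true => inferInstanceAs (Group W)
  | false => inferInstanceAs (Group (Multiplicative ℤ))

noncomputable section

/-- the embedding of `W` -/
def ιW (W : Type) [Group W] : W →* CoprodI (fam W) where
  toFun w := CoprodI.of (M := fam W) (i := true) w
  map_one' := map_one (CoprodI.of (M := fam W) (i := true))
  map_mul' := map_mul (CoprodI.of (M := fam W) (i := true))

/-- the embedding of `ℤ` -/
def ιZ (W : Type) [Group W] (a : ℤ) : CoprodI (fam W) :=
  CoprodI.of (M := fam W) (i := false) (Multiplicative.ofAdd a : Multiplicative ℤ)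

theorem ιZ_pow (W : Type) [Group W] (a : ℤ) : (ιZ W 1) ^ a = ιZ W a := by
  unfold ιZ
  refine (map_zpow (CoprodI.of (M := fam W) (i := false)) _ a).symm.trans ?_
  congr 1
  show (Multiplicative.ofAdd (1 : ℤ)) ^ a = Multiplicative.ofAdd a
  rw [← ofAdd_zsmul]; simp

open Classical in
/-- the `W`-head -/
def headW (W : Type) [Group W] (g : CoprodI (fam W)) : W :=
  (CoprodI.Word.equivPair (M := fam W) true (g • CoprodI.Word.empty)).head

open Classical in
/-- the `ℤ`-head -/
def headZ (W : Type) [Group W] (g : CoprodI (fam W)) : ℤ :=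
  Multiplicative.toAdd
    (show Multiplicative ℤ from
      (CoprodI.Word.equivPair (M := fam W) false (g • CoprodI.Word.empty)).head)

open Classical in
/-- the free product satisfies the interface -/
def freeProd (W : Type) [Group W] : FProd W (CoprodI (fam W)) where
  ι := ιW W
  c := ιZ W 1
  hW := headW W
  a0 := headZ W
  hW_one := by
    unfold headW
    rw [one_smul, CoprodI.Word.equivPair_eq_of_fstIdx_ne (by simp [CoprodI.Word.fstIdx])]
    rfl
  a0_one := by
    unfold headZ
    rw [one_smul, CoprodI.Word.equivPair_eq_of_fstIdx_ne (by simp [CoprodI.Word.fstIdx])]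
    rfl
  hW_mul w g := by
    have e1 : (ιW W w * g) • (CoprodI.Word.empty : CoprodI.Word (fam W))
        = CoprodI.of (M := fam W) (i := true) w • (g • CoprodI.Word.empty) := mul_smul _ _ _
    unfold headW
    rw [e1]
    have := CoprodI.Word.equivPair_smul_same (M := fam W) (i := true) w
      (g • CoprodI.Word.empty)
    exact congrArg (CoprodI.Word.Pair.head (M := fam W) (i := true)) this
  a0_mul a g := by
    rw [ιZ_pow]
    have e1 : (ιZ W a * g) • (CoprodI.Word.empty : CoprodI.Word (fam W))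
        = CoprodI.of (M := fam W) (i := false) (Multiplicative.ofAdd a : Multiplicative ℤ) •
          (g • CoprodI.Word.empty) := mul_smul _ _ _
    unfold headZ
    rw [e1]
    have := CoprodI.Word.equivPair_smul_same (M := fam W) (i := false)
      (Multiplicative.ofAdd a : Multiplicative ℤ) (g • CoprodI.Word.empty)
    have h2 := congrArg (CoprodI.Word.Pair.head (M := fam W) (i := false)) this
    exact congrArg (fun x : Multiplicative ℤ => Multiplicative.toAdd x) h2
  alt g h := by
    have h1 : (g • CoprodI.Word.empty : CoprodI.Word (fam W)).fstIdx = some false := by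
      by_contra hne
      apply h
      unfold headZ
      rw [CoprodI.Word.equivPair_eq_of_fstIdx_ne hne]
      rfl
    unfold headW
    rw [CoprodI.Word.equivPair_eq_of_fstIdx_ne (by rw [h1]; simp)]
    rfl
  ind motive h1 hw hc g := by
    have key : ∀ w : CoprodI.Word (fam W), motive w.prod := by
      intro w
      induction w using CoprodI.Word.consRecOn with
      | empty => simpa using h1
      | cons i m w h2 h3 ih =>
        rw [CoprodI.Word.prod_cons]
        have hwe : (w.prod • CoprodI.Word.empty : CoprodI.Word (fam W)) = w :=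
          CoprodI.Word.equiv.right_inv w
        cases i with
        | true =>
          refine hw m _ h3 ?_ ih
          unfold headW
          rw [hwe, CoprodI.Word.equivPair_eq_of_fstIdx_ne h2]
          rfl
        | false =>
          have e : CoprodI.of (M := fam W) (i := false) m
              = (ιZ W 1) ^ (Multiplicative.toAdd (show Multiplicative ℤ from m)) := by
            rw [ιZ_pow]
            rfl
          rw [e]
          refine hc _ _ (fun h0 => h3 ?_) ?_ ih
          · exact h0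
          · unfold headZ
            rw [hwe, CoprodI.Word.equivPair_eq_of_fstIdx_ne h2]
            rfl
    have := key (g • CoprodI.Word.empty)
    rwa [show (g • CoprodI.Word.empty : CoprodI.Word (fam W)).prod = g from
      CoprodI.Word.equiv.left_inv g] at this

end

namespace FProd

variable {W : Type} [Group W] {Γ : Type} [Group Γ] (F : FProd W Γ)

include F

theorem hW_ι (w : W) : F.hW (F.ι w) = w := by
  have := F.hW_mul w 1
  rwa [mul_one, F.hW_one, mul_one] at this

theorem ι_inj : Function.Injective F.ι := fun a b h => by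
  rw [← F.hW_ι a, h, F.hW_ι]

theorem a0_c (a : ℤ) : F.a0 (F.c ^ a) = a := by
  have := F.a0_mul a 1
  rwa [mul_one, F.a0_one, add_zero] at this

theorem a0_ι_mul {w : W} {g : Γ} (h : w * F.hW g ≠ 1) : F.a0 (F.ι w * g) = 0 := by
  by_contra hne
  have := F.alt _ hne
  rw [F.hW_mul] at this
  exact h this

theorem a0_ι (w : W) : F.a0 (F.ι w) = 0 := by
  by_cases h : w = 1
  · rw [h, map_one, F.a0_one]
  · have := F.a0_ι_mul (w := w) (g := 1) (by rwa [F.hW_one, mul_one])
    rwa [mul_one] at this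

theorem hW_c_mul {a : ℤ} {g : Γ} (h : a + F.a0 g ≠ 0) : F.hW (F.c ^ a * g) = 1 :=
  F.alt _ (by rwa [F.a0_mul])

theorem eq_one {g : Γ} (h1 : F.hW g = 1) (h2 : F.a0 g = 0) : g = 1 := by
  revert h1 h2
  refine F.ind (fun g => F.hW g = 1 → F.a0 g = 0 → g = 1) (fun _ _ => rfl) ?_ ?_ g
  · intro w g hw hg _ h1
    rw [F.hW_mul, hg, mul_one] at h1
    exact absurd h1 hw
  · intro a g ha hg _ _ h2
    rw [F.a0_mul, hg, add_zero] at h2
    exact absurd h2 ha

theorem hW_head (g : Γ) : F.hW (F.ι (F.hW g)⁻¹ * g) = 1 := by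
  rw [F.hW_mul, inv_mul_cancel]

theorem a0_head (g : Γ) : F.a0 (F.c ^ (-F.a0 g) * g) = 0 := by
  rw [F.a0_mul, neg_add_cancel]

/-- `g` is in `W` iff ... -/
theorem mem_range_iff {g : Γ} : (∃ w, g = F.ι w) ↔ F.ι (F.hW g)⁻¹ * g = 1 := by
  constructor
  · rintro ⟨w, rfl⟩
    rw [F.hW_ι, map_inv, inv_mul_cancel]
  · intro h
    exact ⟨F.hW g, by rw [map_inv, inv_mul_eq_one] at h; exact h.symm⟩

/-- the exponent behind the head of an element outside of `W` is non zero -/
theorem a0_tail_ne {g : Γ} (h : ¬ ∃ w, g = F.ι w) : F.a0 (F.ι (F.hW g)⁻¹ * g) ≠ 0 := by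
  intro h0
  exact h (F.mem_range_iff.mpr (F.eq_one (F.hW_head g) h0))

/-- Right multiplication by elements of `W`. -/
theorem right_ι (w : W) (g : Γ) : F.a0 (g * F.ι w) = F.a0 g ∧
    ((¬ ∃ w', g = F.ι w') → F.hW (g * F.ι w) = F.hW g) := by
  refine F.ind (fun g => F.a0 (g * F.ι w) = F.a0 g ∧
    ((¬ ∃ w', g = F.ι w') → F.hW (g * F.ι w) = F.hW g)) ?_ ?_ ?_ g
  · refine ⟨by rw [one_mul, F.a0_ι, F.a0_one], fun h => absurd ⟨1, by simp⟩ h⟩
  · intro w' g hw hg ih
    by_cases hg1 : g = 1
    · subst hg1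
      rw [mul_one, ← map_mul, F.a0_ι, F.a0_ι]
      exact ⟨rfl, fun h => absurd ⟨w', rfl⟩ h⟩
    · have hgr : ¬ ∃ w'', g = F.ι w'' := by
        rintro ⟨w'', rfl⟩
        rw [F.hW_ι] at hg
        exact hg1 (by rw [hg, map_one])
      have h2 := ih.2 hgr
      rw [hg] at h2
      rw [mul_assoc]
      refine ⟨?_, fun _ => ?_⟩
      · rw [F.a0_ι_mul (by rwa [h2, mul_one]), F.a0_ι_mul (by rwa [hg, mul_one])]
      · rw [F.hW_mul, F.hW_mul, h2, hg]
  · intro a g ha hg ih
    rw [mul_assoc]
    have h1 : a + F.a0 (g * F.ι w) ≠ 0 := by rw [ih.1, hg, add_zero]; exact ha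
    have h2 : a + F.a0 g ≠ 0 := by rw [hg, add_zero]; exact ha
    refine ⟨by rw [F.a0_mul, F.a0_mul, ih.1], fun _ => ?_⟩
    rw [F.hW_c_mul h1, F.hW_c_mul h2]

/-- Right multiplication by powers of `c`. -/
theorem right_c (b : ℤ) (g : Γ) : F.hW (g * F.c ^ b) = F.hW g ∧
    ((¬ ∃ a : ℤ, g = F.c ^ a) → F.a0 (g * F.c ^ b) = F.a0 g) := by
  refine F.ind (fun g => F.hW (g * F.c ^ b) = F.hW g ∧
    ((¬ ∃ a : ℤ, g = F.c ^ a) → F.a0 (g * F.c ^ b) = F.a0 g)) ?_ ?_ ?_ g
  · refine ⟨?_, fun h => absurd ⟨0, by simp⟩ h⟩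
    rw [one_mul, F.hW_one]
    by_cases hb : b = 0
    · rw [hb, zpow_zero, F.hW_one]
    · exact F.alt _ (by rw [F.a0_c]; exact hb)
  · intro w g hw hg ih
    rw [mul_assoc]
    refine ⟨by rw [F.hW_mul, F.hW_mul, ih.1], fun _ => ?_⟩
    rw [F.a0_ι_mul (by rw [ih.1, hg, mul_one]; exact hw),
      F.a0_ι_mul (by rw [hg, mul_one]; exact hw)]
  · intro a g ha hg ih
    by_cases hg1 : g = 1
    · subst hg1
      rw [mul_one, ← zpow_add]
      refine ⟨?_, fun h => absurd ⟨a, rfl⟩ h⟩
      have e1 : F.hW (F.c ^ a) = 1 := F.alt _ (by rw [F.a0_c]; exact ha)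
      rw [e1]
      by_cases hab : a + b = 0
      · rw [hab, zpow_zero, F.hW_one]
      · exact F.alt _ (by rw [F.a0_c]; exact hab)
    · have hgc : ¬ ∃ a : ℤ, g = F.c ^ a := by
        rintro ⟨a', rfl⟩
        rw [F.a0_c] at hg
        exact hg1 (by rw [hg, zpow_zero])
      have h2 := ih.2 hgc
      rw [mul_assoc]
      refine ⟨?_, fun _ => by rw [F.a0_mul, F.a0_mul, h2]⟩
      rw [F.hW_c_mul (by rw [h2, hg, add_zero]; exact ha),
        F.hW_c_mul (by rw [hg, add_zero]; exact ha)]

/-- The subgroup `P = ⟨Q, c⟩`. -/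
def P (Q : Subgroup W) : Subgroup Γ := Subgroup.closure (F.ι '' (Q : Set W) ∪ {F.c})

/-- normal forms with `W`-syllables in `Q` -/
inductive NF (Q : Subgroup W) : Γ → Prop
  | one : NF Q 1
  | left (q : W) (g : Γ) (hq : q ∈ Q) (hq1 : q ≠ 1) (hg : F.hW g = 1) (h : NF Q g) :
      NF Q (F.ι q * g)
  | right (a : ℤ) (g : Γ) (ha : a ≠ 0) (hg : F.a0 g = 0) (h : NF Q g) : NF Q (F.c ^ a * g)

theorem NF.hW_mem {Q : Subgroup W} {g : Γ} (h : F.NF Q g) : F.hW g ∈ Q := by
  cases h with
  | one => rw [F.hW_one]; exact Q.one_mem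
  | left q g hq hq1 hg h => rw [F.hW_mul, hg, mul_one]; exact hq
  | right a g ha hg h => rw [F.hW_c_mul (by rw [hg, add_zero]; exact ha)]; exact Q.one_mem

theorem NF.mul_ι {Q : Subgroup W} {q : W} (hq : q ∈ Q) {g : Γ} (h : F.NF Q g) :
    F.NF Q (F.ι q * g) := by
  by_cases hq1 : q = 1
  · rw [hq1, map_one, one_mul]; exact h
  · cases h with
    | one => exact NF.left q 1 hq hq1 F.hW_one NF.one
    | left q' g hq' hq1' hg h =>
      rw [← mul_assoc, ← map_mul]
      by_cases h1 : q * q' = 1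
      · rw [h1, map_one, one_mul]; exact h
      · exact NF.left _ g (Q.mul_mem hq hq') h1 hg h
    | right a g ha hg h =>
      exact NF.left q _ hq hq1 (F.hW_c_mul (by rw [hg, add_zero]; exact ha)) (NF.right a g ha hg h)

theorem NF.mul_c {Q : Subgroup W} (b : ℤ) {g : Γ} (h : F.NF Q g) : F.NF Q (F.c ^ b * g) := by
  by_cases hb : b = 0
  · rw [hb, zpow_zero, one_mul]; exact h
  · cases h with
    | one => exact NF.right b 1 hb F.a0_one NF.one
    | left q g hq hq1 hg h =>
      exact NF.right b _ hb (F.a0_ι_mul (by rw [hg, mul_one]; exact hq1))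
        (NF.left q g hq hq1 hg h)
    | right a g ha hg h =>
      rw [← mul_assoc, ← zpow_add]
      by_cases h1 : b + a = 0
      · rw [h1, zpow_zero, one_mul]; exact h
      · exact NF.right _ g h1 hg h

theorem ι_mem_P {Q : Subgroup W} {q : W} (hq : q ∈ Q) : F.ι q ∈ F.P Q :=
  Subgroup.subset_closure (Or.inl ⟨q, hq, rfl⟩)

theorem c_mem_P (Q : Subgroup W) : F.c ∈ F.P Q := Subgroup.subset_closure (Or.inr rfl)

theorem cpow_mem_P (Q : Subgroup W) (a : ℤ) : F.c ^ a ∈ F.P Q := (F.P Q).zpow_mem (F.c_mem_P Q) a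

theorem NF_of_mem {Q : Subgroup W} {p : Γ} (hp : p ∈ F.P Q) : F.NF Q p := by
  have key : ∀ g ∈ F.P Q, ∀ h, F.NF Q h → F.NF Q (g * h) := by
    intro g hg
    refine Subgroup.closure_induction (p := fun g _ => ∀ h, F.NF Q h → F.NF Q (g * h) ∧
      F.NF Q (g⁻¹ * h)) ?_ ?_ ?_ ?_ hg |> fun H h hh => (H h hh).1
    · rintro x (⟨q, hq, rfl⟩ | hx) h hh
      · refine ⟨hh.mul_ι F hq, ?_⟩
        rw [← map_inv]
        exact hh.mul_ι F (Q.inv_mem hq)
      · rw [Set.mem_singleton_iff] at hx
        subst hx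
        refine ⟨?_, ?_⟩
        · have := hh.mul_c F 1; rwa [zpow_one] at this
        · have := hh.mul_c F (-1); rwa [zpow_neg_one] at this
    · intro h hh; simpa using hh
    · intro x y _ _ hx hy h hh
      refine ⟨by rw [mul_assoc]; exact (hx _ (hy _ hh).1).1, ?_⟩
      rw [mul_inv_rev, mul_assoc]
      exact (hy _ (hx _ hh).2).2
    · intro x _ hx h hh
      refine ⟨(hx h hh).2, by rw [inv_inv]; exact (hx h hh).1⟩
  have := key p hp 1 NF.one
  rwa [mul_one] at this

theorem hW_mem_of_mem_P {Q : Subgroup W} {p : Γ} (hp : p ∈ F.P Q) : F.hW p ∈ Q :=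
  (F.NF_of_mem hp).hW_mem F

theorem mem_Q_of_ι_mem {Q : Subgroup W} {w : W} (h : F.ι w ∈ F.P Q) : w ∈ Q := by
  have := F.hW_mem_of_mem_P h
  rwa [F.hW_ι] at this

end FProd

end Pool.Agent.helper99.LC
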