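import Mathlib

/-!
# Boundary at infinity and limit sets: definitions for MP_c915fc_gt
-/

set_option autoImplicit false

namespace Pool.Agent.helper99.LC

open Filter Topology

/-- The Gromov product `(x|y)_o`. -/
noncomputable def gp {X : Type*} [MetricSpace X] (o x y : X) : ℝ :=
  (dist o x + dist o y - dist x y) / 2

/-- Gromov hyperbolicity (Gromov's four point condition). -/
def Hyperbolic (X : Type*) [MetricSpace X] : Prop :=
  ∃ δ : ℝ, ∀ o x y z : X, min (gp o x y) (gp o y z) - δ ≤ gp o x z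

/-- Geodesic metric space: any two points are joined by an isometrically embedded interval. -/
def Geodesic (X : Type*) [MetricSpace X] : Prop :=
  ∀ x y : X, ∃ γ : ℝ → X, γ 0 = x ∧ γ (dist x y) = y ∧
    ∀ s ∈ Set.Icc (0 : ℝ) (dist x y), ∀ t ∈ Set.Icc (0 : ℝ) (dist x y),
      dist (γ s) (γ t) = |s - t|

/-- Sequences converging at infinity (Gromov sequences): `(x_i|x_j)_o → ∞` as `i, j → ∞`. -/
def GSeq (X : Type*) [MetricSpace X] : Type _ :=
  {x : ℕ → X // ∀ o : X, Tendsto (fun p : ℕ × ℕ => gp o (x p.1) (x p.2)) atTop atTop}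

/-- Two Gromov sequences are equivalent if `(x_n|y_n)_o → ∞`. -/
def GRel {X : Type*} [MetricSpace X] (x y : GSeq X) : Prop :=
  ∀ o : X, Tendsto (fun n : ℕ => gp o (x.1 n) (y.1 n)) atTop atTop

/-- The Gromov boundary: equivalence classes of Gromov sequences. -/
def Bdry (X : Type*) [MetricSpace X] : Type _ := Quot (GRel (X := X))

/-- The boundary point represented by a Gromov sequence. -/
def Bdry.mk {X : Type*} [MetricSpace X] (x : GSeq X) : Bdry X := Quot.mk _ x

/-- `Near o r ξ η`: the Gromov product of the boundary points `ξ, η` is at least `r`, i.e. there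
are representatives `x` of `ξ` and `y` of `η` with `(x_i|y_j)_o ≥ r` for all large `i, j`. -/
def Near {X : Type*} [MetricSpace X] (o : X) (r : ℝ) (ξ η : Bdry X) : Prop :=
  ∃ x y : GSeq X, Bdry.mk x = ξ ∧ Bdry.mk y = η ∧
    ∀ᶠ p : ℕ × ℕ in atTop, r ≤ gp o (x.1 p.1) (y.1 p.2)

/-- The usual topology of the Gromov boundary: `U` is open iff with each `ξ ∈ U` it contains
all `η` with `(ξ|η)_o ≥ r`, for some `r`. -/
instance {X : Type*} [MetricSpace X] : TopologicalSpace (Bdry X) where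
  IsOpen U := ∀ o : X, ∀ ξ ∈ U, ∃ r : ℝ, ∀ η, Near o r ξ η → η ∈ U
  isOpen_univ := fun _ _ _ => ⟨0, fun _ _ => trivial⟩
  isOpen_inter := by
    intro U V hU hV o ξ hξ
    obtain ⟨r, hr⟩ := hU o ξ hξ.1
    obtain ⟨s, hs⟩ := hV o ξ hξ.2
    refine ⟨max r s, fun η hη => ?_⟩
    obtain ⟨x, y, hx, hy, hxy⟩ := hη
    exact ⟨hr η ⟨x, y, hx, hy, hxy.mono fun p hp => (le_max_left _ _).trans hp⟩,
      hs η ⟨x, y, hx, hy, hxy.mono fun p hp => (le_max_right _ _).trans hp⟩⟩
  isOpen_sUnion := by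
    intro 𝒰 h𝒰 o ξ hξ
    obtain ⟨U, hU, hξU⟩ := hξ
    obtain ⟨r, hr⟩ := h𝒰 U hU o ξ hξU
    exact ⟨r, fun η hη => ⟨U, hU, hr η hη⟩⟩

/-- The limit set of the orbit `G x`: all boundary points that are limits of sequences of
points of the orbit. -/
def limitSet (G : Type*) {X : Type*} [MetricSpace X] [Group G] [MulAction G X] (x : X) :
    Set (Bdry X) :=
  {ξ | ∃ g : ℕ → G, ∃ h : ∀ o : X,
    Tendsto (fun p : ℕ × ℕ => gp o (g p.1 • x) (g p.2 • x)) atTop atTop,
      Bdry.mk ⟨fun n => g n • x, h⟩ = ξ}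

/-- The target statement (negated form of Q1 of MP_c915fc_gt). -/
def Target : Prop :=
  ∃ (X : Type) (_ : MetricSpace X) (G : Type) (_ : Group G) (_ : MulAction G X),
    Nonempty X ∧ ProperSpace X ∧ Geodesic X ∧ Hyperbolic X ∧ Group.FG G ∧
    (∀ (g : G) (x y : X), dist (g • x) (g • y) = dist x y) ∧
    (∀ K : Set X, IsCompact K → {g : G | ∃ x ∈ K, g • x ∈ K}.Finite) ∧
    ∀ x : X, IsConnected (limitSet G x) ∧ ¬ LocallyConnectedSpace (limitSet G x)

/-! ### Interface to the page -/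

/-- Length data of a finitely generated group `W` with involutive generators, a line
`n ↦ e n` (infinite dihedral special subgroup) with exact gates, and thin intervals. The
distance is `d x y = len (x⁻¹ * y)`. -/
structure Page (W : Type) [Group W] (S : Type) where
  gen : S → W
  gen_mul_self : ∀ s, gen s * gen s = 1
  len : W → ℕ
  len_one : len 1 = 0
  eq_one_of_len : ∀ g, len g = 0 → g = 1
  len_inv : ∀ g, len g⁻¹ = len g
  len_mul_le : ∀ g h, len (g * h) ≤ len g + len h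
  len_gen : ∀ s, len (gen s) = 1
  exists_desc : ∀ g, g ≠ 1 → ∃ s, len (g * gen s) + 1 = len g
  e : ℤ → W
  e_zero : e 0 = 1
  e_succ : ∀ n, ∃ s, e (n + 1) = e n * gen s
  e_mul : ∀ m n, ∃ k, e m * e n = e k
  e_inv : ∀ m, ∃ k, (e m)⁻¹ = e k
  e_len : ∀ m n, len ((e m)⁻¹ * e n) = (m - n).natAbs
  /-- index of the gate of `x` on the line -/
  γ : W → ℤ
  gate : ∀ x n, len (x⁻¹ * e n) = len (x⁻¹ * e (γ x)) + (γ x - n).natAbs
  κ : ℕ
  thin : ∀ x y z w, len (x⁻¹ * w) + len (w⁻¹ * y) = len (x⁻¹ * y) →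
    ∃ w', len (w⁻¹ * w') ≤ κ ∧ (len (x⁻¹ * w') + len (w'⁻¹ * z) = len (x⁻¹ * z) ∨
      len (z⁻¹ * w') + len (w'⁻¹ * y) = len (z⁻¹ * y))
  far : ∀ x y, 2 ≤ (γ x - γ y).natAbs →
    len (x⁻¹ * y) = len (x⁻¹ * e (γ x)) + (γ x - γ y).natAbs + len ((e (γ y))⁻¹ * y)
  conv : ∀ n w, len w + len (w⁻¹ * e n) = len (e n) → ∃ k, w = e k

/-- `PathIn P Z x y`: `y` is reached from `x` by right multiplications by generators, staying
inside `Z` (both end points in `Z`). -/
inductive Page.PathIn {W : Type} [Group W] {S : Type} (P : Page W S) (Z : W → Prop) :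
    W → W → Prop
  | refl (x : W) (hx : Z x) : Page.PathIn P Z x x
  | step (x y : W) (s : S) (h : Page.PathIn P Z x y) (hy : Z (y * P.gen s)) :
      Page.PathIn P Z x (y * P.gen s)

/-- The page together with the subgroup `Q`. -/
structure PageQ (W : Type) [Group W] (S : Type) extends Page W S where
  Q : Subgroup W
  fg : Q.FG
  Q_e : ∀ n, e n ∈ Q → n = 0
  /-- every `w` has an element of `Q` behind it -/
  rich : ∀ w, ∃ q ∈ Q, len q = len w + len (w⁻¹ * q) ∧
    ∀ p ∈ Q, ∀ n, w = p * e n → (γ (p⁻¹ * q) - n).natAbs ≤ 1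
  /-- sequences in `Q` leaving `1` in a direction different from that of `u` and of the line -/
  rich2 : ∀ u, ∃ q : ℕ → W, (∀ n, q n ∈ Q) ∧ Function.Injective q ∧ (∀ n, γ (q n) = 0) ∧
    ∀ n, len (u⁻¹ * q n) = len u + len (q n)
  /-- one-endedness -/
  oneEnded : ∀ (n : ℕ) (x y : W), n < len x → n < len y →
    toPage.PathIn (fun w => n < len w) x y

end Pool.Agent.helper99.LC
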