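import Mathlib
import Pool.Agent.helper99.LC.Defs

/-!
# Consequences of the page axioms
-/

set_option autoImplicit false

namespace Pool.Agent.helper99.LC

namespace Page

variable {W : Type} [Group W] {S : Type} (P : Page W S)

/-- distance in the page -/
def dw (x y : W) : ℕ := P.len (x⁻¹ * y)

/-- `w` lies on a geodesic from `x` to `y` -/
def Btw (x y w : W) : Prop := P.dw x w + P.dw w y = P.dw x y

theorem dw_self (x : W) : P.dw x x = 0 := by simp [dw, P.len_one]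

theorem dw_comm (x y : W) : P.dw x y = P.dw y x := by
  unfold dw
  rw [← P.len_inv]; simp

theorem dw_tri (x y z : W) : P.dw x z ≤ P.dw x y + P.dw y z := by
  unfold dw
  have := P.len_mul_le (x⁻¹ * y) (y⁻¹ * z)
  simpa [mul_assoc] using this

theorem dw_left (g x y : W) : P.dw (g * x) (g * y) = P.dw x y := by
  unfold dw; simp [mul_assoc]

theorem dw_gen (x : W) (s : S) : P.dw x (x * P.gen s) = 1 := by
  unfold dw; simp [P.len_gen]

theorem eq_of_dw {x y : W} (h : P.dw x y = 0) : x = y := by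
  have := P.eq_one_of_len _ h
  exact (inv_mul_eq_one.mp this)

theorem Btw.symm {x y w : W} (h : P.Btw x y w) : P.Btw y x w := by
  unfold Btw at *
  rw [P.dw_comm y w, P.dw_comm w x, P.dw_comm y x]; omega

theorem Btw.left {x y w : W} (g : W) (h : P.Btw x y w) : P.Btw (g * x) (g * y) (g * w) := by
  unfold Btw at *
  rw [P.dw_left, P.dw_left, P.dw_left]; exact h

theorem btw_left (x y : W) : P.Btw x y x := by unfold Btw; rw [P.dw_self]; omega

theorem btw_right (x y : W) : P.Btw x y y := by unfold Btw; rw [P.dw_self]; omega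

theorem btw_self {x w : W} (h : P.Btw x x w) : w = x := by
  unfold Btw at h
  rw [P.dw_self] at h
  exact (P.eq_of_dw (by omega : P.dw x w = 0)).symm

theorem gate' (x : W) (n : ℤ) :
    P.dw x (P.e n) = P.dw x (P.e (P.γ x)) + (P.γ x - n).natAbs := P.gate x n

theorem dw_e (m n : ℤ) : P.dw (P.e m) (P.e n) = (m - n).natAbs := P.e_len m n

theorem γ_e (n : ℤ) : P.γ (P.e n) = n := by
  have := P.gate' (P.e n) n
  rw [P.dw_self] at this
  omega

theorem e_inj {m n : ℤ} (h : P.e m = P.e n) : m = n := by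
  rw [← P.γ_e m, h, P.γ_e]

theorem γ_lip (x y : W) : (P.γ x - P.γ y).natAbs ≤ P.dw x y := by
  have h1 := P.gate' x (P.γ y)
  have h2 := P.gate' y (P.γ x)
  have h3 := P.dw_tri x y (P.e (P.γ y))
  have h4 := P.dw_tri y x (P.e (P.γ x))
  have h5 := P.dw_comm x y
  omega

theorem far' (x y : W) (h : 2 ≤ (P.γ x - P.γ y).natAbs) :
    P.dw x y = P.dw x (P.e (P.γ x)) + (P.γ x - P.γ y).natAbs + P.dw (P.e (P.γ y)) y :=
  P.far x y h

/-- (Y3b) -/
theorem mem_line {x y z : W} (h : P.Btw x y z) (h1 : 2 ≤ (P.γ x - P.γ z).natAbs)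
    (h2 : 2 ≤ (P.γ z - P.γ y).natAbs) : z = P.e (P.γ z) := by
  have f1 := P.far' x z h1
  have f2 := P.far' z y h2
  have t1 := P.dw_tri x (P.e (P.γ x)) y
  have t2 := P.dw_tri (P.e (P.γ x)) (P.e (P.γ y)) y
  have e1 := P.dw_e (P.γ x) (P.γ y)
  have c1 := P.dw_comm (P.e (P.γ z)) z
  unfold Btw at h
  exact P.eq_of_dw (by omega)

/-- (Y3c) -/
theorem mem_line' {x z : W} {n : ℤ} (h : P.Btw x (P.e n) z) (h1 : 2 ≤ (P.γ x - P.γ z).natAbs) :
    z = P.e (P.γ z) := by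
  have f1 := P.far' x z h1
  have f2 := P.gate' z n
  have f3 := P.gate' x n
  have c1 := P.dw_comm (P.e (P.γ z)) z
  unfold Btw at h
  exact P.eq_of_dw (by omega)

/-- (Y4) -/
theorem γ_line {x : W} (h : ∀ k, x ≠ P.e k) (n : ℤ) : (P.γ (x * P.e n) - P.γ x).natAbs ≤ 1 := by
  by_contra hne
  have h2 : 2 ≤ (P.γ x - P.γ (x * P.e n)).natAbs := by omega
  have f1 := P.far' x (x * P.e n) h2
  have t1 := P.dw_tri (P.e (P.γ x)) (P.e (P.γ (x * P.e n))) (x * P.e n)
  have t2 := P.dw_tri x (P.e (P.γ x)) (x * P.e n)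
  have e1 := P.dw_e (P.γ x) (P.γ (x * P.e n))
  have h3 : P.dw x (P.e (P.γ x)) + P.dw (P.e (P.γ x)) (x * P.e n) = P.dw x (x * P.e n) := by
    omega
  obtain ⟨k, hk⟩ := P.conv n (x⁻¹ * P.e (P.γ x)) (by
    unfold dw at h3
    simpa [mul_assoc] using h3)
  obtain ⟨j, hj⟩ := P.e_inv k
  obtain ⟨i, hi⟩ := P.e_mul (P.γ x) j
  apply h i
  rw [← hi, ← hj, ← hk]
  simp

theorem between {x y : W} {n : ℤ} (h : P.Btw x y (P.e n)) :
    (P.γ x - n).natAbs + (n - P.γ y).natAbs ≤ (P.γ x - P.γ y).natAbs := by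
  have g1 := P.gate' x n
  have g2 := P.gate' y n
  have t1 := P.dw_tri x (P.e (P.γ x)) y
  have t2 := P.dw_tri (P.e (P.γ x)) (P.e (P.γ y)) y
  have e1 := P.dw_e (P.γ x) (P.γ y)
  have c1 := P.dw_comm (P.e (P.γ y)) y
  have c2 := P.dw_comm (P.e n) y
  unfold Btw at h
  omega

theorem thin' {x y w : W} (z : W) (h : P.Btw x y w) :
    ∃ w', P.dw w w' ≤ P.κ ∧ (P.Btw x z w' ∨ P.Btw z y w') := P.thin x y z w h

/-- next point on a geodesic -/
theorem exists_next {x y w : W} (h : P.Btw x y w) (hne : w ≠ y) :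
    ∃ s, P.Btw x y (w * P.gen s) ∧ P.dw (w * P.gen s) y + 1 = P.dw w y := by
  have h1 : y⁻¹ * w ≠ 1 := fun h => hne (inv_mul_eq_one.mp h).symm
  obtain ⟨s, hs⟩ := P.exists_desc _ h1
  have h2 : P.dw (w * P.gen s) y + 1 = P.dw w y := by
    rw [P.dw_comm _ y, P.dw_comm w y]
    unfold dw
    rw [← mul_assoc]; exact hs
  refine ⟨s, ?_, h2⟩
  have t1 := P.dw_tri x w (w * P.gen s)
  have t2 := P.dw_tri x (w * P.gen s) y
  have t3 := P.dw_gen w s
  unfold Btw at *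
  omega

theorem line_disj {Q : Subgroup W} (hQ : ∀ n, P.e n ∈ Q → n = 0) {q q' : W} (hq : q ∈ Q)
    (hq' : q' ∈ Q) {m n : ℤ} (h : q * P.e m = q' * P.e n) : q = q' ∧ m = n := by
  obtain ⟨j, hj⟩ := P.e_inv n
  obtain ⟨i, hi⟩ := P.e_mul m j
  have h1 : q⁻¹ * q' = P.e i := by
    rw [← hi, ← hj, ← mul_inv_eq_iff_eq_mul.mpr h]
    simp [mul_assoc]
  have h2 : i = 0 := hQ i (by rw [← h1]; exact Q.mul_mem (Q.inv_mem hq) hq')
  rw [h2, P.e_zero] at h1
  have h3 : q = q' := inv_mul_eq_one.mp h1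
  subst h3
  exact ⟨rfl, P.e_inj (mul_left_cancel h)⟩

end Page

end Pool.Agent.helper99.LC
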