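import Mathlib

/-!
# The augmented tree `ℤ × ℤ` (a model of the hyperbolic plane) and its guessed geodesics
-/

set_option autoImplicit false

namespace Pool.Agent.helper99.LC

/-- ancestor of the plane point `m` at level `t` -/
def anc (t : ℤ) (m : ℤ × ℤ) : ℤ := m.2 / 2 ^ (t - m.1).toNat

/-- adjacency (or equality) in the plane -/
def PAdj (a b : ℤ × ℤ) : Prop :=
  (a.1 = b.1 ∧ (a.2 - b.2).natAbs ≤ 1) ∨ (b.1 = a.1 + 1 ∧ b.2 = a.2 / 2) ∨
    (a.1 = b.1 + 1 ∧ a.2 = b.2 / 2)

theorem PAdj.refl (a : ℤ × ℤ) : PAdj a a := Or.inl ⟨rfl, by simp⟩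

theorem PAdj.symm {a b : ℤ × ℤ} (h : PAdj a b) : PAdj b a := by
  rcases h with h | h | h
  · exact Or.inl ⟨h.1.symm, by omega⟩
  · exact Or.inr (Or.inr h)
  · exact Or.inr (Or.inl h)

/-- the ancestors of `m`, `m'` at level `t` are adjacent or equal -/
def Cl (t : ℤ) (m m' : ℤ × ℤ) : Prop := (anc t m - anc t m').natAbs ≤ 1

theorem Cl.symm {t : ℤ} {m m' : ℤ × ℤ} (h : Cl t m m') : Cl t m' m := by
  unfold Cl at *; omega

/-- one half of the guessed geodesic -/
def GH (m m' : ℤ × ℤ) : Set (ℤ × ℤ) :=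
  {u | m.1 ≤ u.1 ∧ u.2 = anc u.1 m ∧ ∀ t, max m.1 m'.1 ≤ t → t < u.1 → ¬ Cl t m m'}

/-- guessed geodesic -/
def GP (m m' : ℤ × ℤ) : Set (ℤ × ℤ) := GH m m' ∪ GH m' m

theorem GP_comm (m m' : ℤ × ℤ) : GP m m' = GP m' m := Set.union_comm _ _

theorem anc_self (m : ℤ × ℤ) : anc m.1 m = m.2 := by simp [anc]

theorem anc_succ {t : ℤ} {m : ℤ × ℤ} (h : m.1 ≤ t) : anc (t + 1) m = anc t m / 2 := by
  unfold anc
  have : (t + 1 - m.1).toNat = (t - m.1).toNat + 1 := by omega
  rw [this, pow_succ, Int.ediv_ediv_of_nonneg (by positivity)]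

theorem left_mem_GH (m m' : ℤ × ℤ) : m ∈ GH m m' :=
  ⟨le_rfl, (anc_self m).symm, fun t h1 h2 => absurd (le_max_left m.1 m'.1) (by omega)⟩

theorem left_mem_GP (m m' : ℤ × ℤ) : m ∈ GP m m' := Or.inl (left_mem_GH m m')

theorem right_mem_GP (m m' : ℤ × ℤ) : m' ∈ GP m m' := by
  rw [GP_comm]; exact left_mem_GP m' m

theorem Cl.succ {t : ℤ} {m m' : ℤ × ℤ} (h1 : m.1 ≤ t) (h2 : m'.1 ≤ t) (h : Cl t m m') :
    Cl (t + 1) m m' := by
  unfold Cl at *
  rw [anc_succ h1, anc_succ h2]
  omega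

theorem Cl.mono {s t : ℤ} {m m' : ℤ × ℤ} (h1 : m.1 ≤ s) (h2 : m'.1 ≤ s) (hst : s ≤ t)
    (h : Cl s m m') : Cl t m m' := by
  obtain ⟨k, rfl⟩ : ∃ k : ℕ, t = s + k := ⟨(t - s).toNat, by omega⟩
  clear hst
  induction k with
  | zero => simpa using h
  | succ k ih =>
    have := Cl.succ (t := s + k) (by omega) (by omega) ih
    push_cast
    rw [← add_assoc]; exact this

/-- ancestors get close eventually -/
theorem exists_Cl (m m' : ℤ × ℤ) : ∃ t, max m.1 m'.1 ≤ t ∧ Cl t m m' := by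
  have key : ∀ n : ℕ, ∀ s, max m.1 m'.1 ≤ s → (anc s m - anc s m').natAbs = n →
      ∃ t, max m.1 m'.1 ≤ t ∧ Cl t m m' := by
    intro n
    induction n using Nat.strong_induction_on with
    | _ n ih =>
      intro s hs hn
      by_cases h : n ≤ 1
      · exact ⟨s, hs, by unfold Cl; omega⟩
      · refine ih (anc (s + 1) m - anc (s + 1) m').natAbs ?_ (s + 1) (by omega) rfl
        rw [anc_succ (by omega), anc_succ (by omega)]
        omega
  exact key _ _ le_rfl rfl

theorem exists_least_Cl (m m' : ℤ × ℤ) : ∃ t, max m.1 m'.1 ≤ t ∧ Cl t m m' ∧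
    ∀ s, max m.1 m'.1 ≤ s → Cl s m m' → t ≤ s := by
  obtain ⟨t, ht, hmin⟩ := Int.exists_least_of_bdd (P := fun t => max m.1 m'.1 ≤ t ∧ Cl t m m')
    ⟨max m.1 m'.1, fun z hz => hz.1⟩ (exists_Cl m m')
  exact ⟨t, ht.1, ht.2, fun s h1 h2 => hmin s ⟨h1, h2⟩⟩

theorem GH_thin (x y z u : ℤ × ℤ) (hu : u ∈ GH x y) :
    ∃ v u', PAdj u v ∧ PAdj v u' ∧ (u' ∈ GP x z ∨ u' ∈ GP z y) := by
  obtain ⟨t, un⟩ := u
  obtain ⟨h1, h2, h3⟩ := hu
  simp only at h1 h2 h3
  by_cases c1 : ∀ s, max x.1 z.1 ≤ s → s < t → ¬ Cl s x z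
  · exact ⟨(t, un), (t, un), PAdj.refl _, PAdj.refl _, Or.inl (Or.inl ⟨h1, h2, c1⟩)⟩
  · push Not at c1
    obtain ⟨s0, hs0, hs0t, hcl0⟩ := c1
    obtain ⟨s, hs, hcl, hsmin⟩ := exists_least_Cl x z
    have hst : s < t := lt_of_le_of_lt (hsmin s0 hs0 hcl0) hs0t
    have hclt : Cl t x z := hcl.mono (by omega) (by omega) hst.le
    by_cases c2 : ∀ s, max z.1 y.1 ≤ s → s < t → ¬ Cl s z y
    · refine ⟨(t, anc t z), (t, anc t z), ?_, PAdj.refl _, Or.inr (Or.inl ⟨?_, rfl, c2⟩)⟩
      · refine Or.inl ⟨rfl, ?_⟩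
        simp only [h2]; exact hclt
      · simp only; omega
    · push Not at c2
      obtain ⟨s0', hs0', hs0t', hcl0'⟩ := c2
      obtain ⟨s', hs', hcl', hsmin'⟩ := exists_least_Cl z y
      have hst' : s' < t := lt_of_le_of_lt (hsmin' s0' hs0' hcl0') hs0t'
      -- at level max s s' both are close
      have ht : t = max s s' + 1 := by
        by_contra hne
        refine h3 (max s s' + 1) (by omega) (by omega) ?_
        have e1 : Cl (max s s') x z := hcl.mono (by omega) (by omega) (le_max_left _ _)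
        have e2 : Cl (max s s') z y := hcl'.mono (by omega) (by omega) (le_max_right _ _)
        unfold Cl at *
        rw [anc_succ (by omega), anc_succ (by omega)]
        omega
      rcases le_total s' s with hss | hss
      · have hM : max s s' = s := max_eq_left hss
        rw [hM] at ht
        refine ⟨(s, anc s x), (s, anc s x), ?_, PAdj.refl _,
          Or.inl (Or.inl ⟨by simp only; omega, rfl, ?_⟩)⟩
        · refine Or.inr (Or.inr ⟨ht, ?_⟩)
          simp only [h2, ht]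
          exact anc_succ (by omega)
        · intro r hr1 hr2 hr3
          have := hsmin r hr1 hr3
          simp only at hr2
          omega
      · have hM : max s s' = s' := max_eq_right hss
        rw [hM] at ht
        refine ⟨(s', anc s' x), (s', anc s' z), ?_, ?_,
          Or.inr (Or.inl ⟨by simp only; omega, rfl, ?_⟩)⟩
        · refine Or.inr (Or.inr ⟨ht, ?_⟩)
          simp only [h2, ht]
          exact anc_succ (by omega)
        · exact Or.inl ⟨rfl, hcl.mono (by omega) (by omega) hss⟩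
        · intro r hr1 hr2 hr3
          have := hsmin' r hr1 hr3
          simp only at hr2
          omega

theorem GP_thin (x y z u : ℤ × ℤ) (hu : u ∈ GP x y) :
    ∃ v u', PAdj u v ∧ PAdj v u' ∧ (u' ∈ GP x z ∨ u' ∈ GP z y) := by
  rcases hu with hu | hu
  · exact GH_thin x y z u hu
  · obtain ⟨v, u', h1, h2, h3⟩ := GH_thin y x z u hu
    refine ⟨v, u', h1, h2, ?_⟩
    rcases h3 with h3 | h3
    · rw [GP_comm] at h3; exact Or.inr h3
    · rw [GP_comm] at h3; exact Or.inl h3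

/-- row neighbours (or distance two) -/
theorem GP_row {x y u : ℤ × ℤ} (h1 : x.1 = y.1) (h2 : (x.2 - y.2).natAbs ≤ 2)
    (hu : u ∈ GP x y) : PAdj u x ∨ PAdj u y := by
  have hcl : Cl (x.1 + 1) x y := by
    unfold Cl
    rw [anc_succ le_rfl, anc_succ h1.ge, anc_self, h1, anc_self]
    omega
  rcases hu with ⟨a, b, c⟩ | ⟨a, b, c⟩
  · left
    have : u.1 = x.1 ∨ u.1 = x.1 + 1 := by
      by_contra hne
      exact c (x.1 + 1) (by omega) (by omega) hcl
    rcases this with h | h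
    · rw [h, anc_self] at b
      exact Or.inl ⟨h, by omega⟩
    · rw [h, anc_succ le_rfl, anc_self] at b
      exact Or.inr (Or.inr ⟨h, b⟩)
  · right
    have : u.1 = y.1 ∨ u.1 = y.1 + 1 := by
      by_contra hne
      exact c (y.1 + 1) (by omega) (by omega) (by rw [← h1]; exact hcl.symm)
    rcases this with h | h
    · rw [h, anc_self] at b
      exact Or.inl ⟨h, by omega⟩
    · rw [h, anc_succ le_rfl, anc_self] at b
      exact Or.inr (Or.inr ⟨h, b⟩)

/-- adjacent points -/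
theorem GP_adj {x y u : ℤ × ℤ} (h : PAdj x y) (hu : u ∈ GP x y) : u = x ∨ u = y := by
  have aux : ∀ x y : ℤ × ℤ, PAdj x y → u ∈ GH x y → u = x ∨ u = y := by
    intro x y h hu
    obtain ⟨a, b, c⟩ := hu
    have hcl : Cl (max x.1 y.1) x y := by
      rcases h with h | h | h
      · unfold Cl; rw [← h.1, max_self, anc_self, h.1, anc_self]; exact h.2
      · have : max x.1 y.1 = y.1 := by omega
        unfold Cl; rw [this, anc_self, h.1, anc_succ le_rfl, anc_self, h.2]; simp
      · have : max x.1 y.1 = x.1 := by omega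
        unfold Cl; rw [this, anc_self, h.1, anc_succ le_rfl, anc_self, h.2]; simp
    have hle : u.1 ≤ max x.1 y.1 := by
      by_contra hne
      exact c _ le_rfl (by omega) hcl
    rcases h with h | h | h
    · left
      have hux : u.1 = x.1 := by omega
      exact Prod.ext hux (by rw [b, hux, anc_self])
    · have : u.1 = x.1 ∨ u.1 = x.1 + 1 := by omega
      rcases this with hux | hux
      · left; exact Prod.ext hux (by rw [b, hux, anc_self])
      · right; exact Prod.ext (by omega) (by rw [b, hux, anc_succ le_rfl, anc_self, h.2])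
    · left
      have hux : u.1 = x.1 := by omega
      exact Prod.ext hux (by rw [b, hux, anc_self])
  rcases hu with hu | hu
  · exact aux x y h hu
  · exact (aux y x h.symm hu).symm

/-- `GH` is connected to its base point inside `GP` -/
theorem GH_chain (x y u : ℤ × ℤ) (hu : u ∈ GH x y) :
    Relation.ReflTransGen (fun a b => b ∈ GP x y ∧ PAdj a b) x u := by
  obtain ⟨t, un⟩ := u
  obtain ⟨h1, h2, h3⟩ := hu
  simp only at h1 h2 h3
  subst h2
  obtain ⟨k, rfl⟩ : ∃ k : ℕ, t = x.1 + k := ⟨(t - x.1).toNat, by omega⟩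
  clear h1
  induction k with
  | zero =>
    have : ((x.1 + ((0 : ℕ) : ℤ), anc (x.1 + ((0 : ℕ) : ℤ)) x) : ℤ × ℤ) = x := by
      simp [anc_self]
    rw [this]
  | succ k ih =>
    refine (ih fun t h4 h5 => h3 t h4 (by push_cast; omega)).tail
      ⟨Or.inl ⟨by simp only; omega, rfl, h3⟩, ?_⟩
    refine Or.inr (Or.inl ⟨by push_cast; ring, ?_⟩)
    simp only
    have : x.1 + ((k + 1 : ℕ) : ℤ) = x.1 + k + 1 := by push_cast; ring
    rw [this, anc_succ (by omega)]

theorem GP_chain (x y : ℤ × ℤ) :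
    Relation.ReflTransGen (fun a b => b ∈ GP x y ∧ PAdj a b) x y := by
  obtain ⟨t, ht, hcl, hmin⟩ := exists_least_Cl x y
  have hx : (t, anc t x) ∈ GH x y := by
    refine ⟨by simp only; omega, rfl, fun s h1 h2 h3 => ?_⟩
    have := hmin s h1 h3
    simp only at h2; omega
  have hy : (t, anc t y) ∈ GH y x := by
    refine ⟨by simp only; omega, rfl, fun s h1 h2 h3 => ?_⟩
    have := hmin s (by omega) h3.symm
    simp only at h2; omega
  have c1 := GH_chain x y _ hx
  have c2 := GH_chain y x _ hy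
  rw [GP_comm] at c2
  -- reverse c2
  have c2' : ∀ v, Relation.ReflTransGen (fun a b => b ∈ GP x y ∧ PAdj a b) y v →
      v ∈ GP x y ∧ Relation.ReflTransGen (fun a b => b ∈ GP x y ∧ PAdj a b) v y := by
    intro v hv
    induction hv with
    | refl => exact ⟨right_mem_GP x y, Relation.ReflTransGen.refl⟩
    | tail h1 h2 ih => exact ⟨h2.1, Relation.ReflTransGen.head ⟨ih.1, h2.2.symm⟩ ih.2⟩
  refine (c1.tail ⟨Or.inr hy, Or.inl ⟨rfl, hcl⟩⟩).trans (c2' _ c2).2

/-- shift of levels -/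
def psh (k : ℤ) (m : ℤ × ℤ) : ℤ × ℤ := (m.1 + k, m.2)

theorem anc_psh (k t : ℤ) (m : ℤ × ℤ) : anc (t + k) (psh k m) = anc t m := by
  unfold anc psh
  have : t + k - (m.1 + k) = t - m.1 := by ring
  simp only [this]

theorem GH_psh {k : ℤ} {x y u : ℤ × ℤ} (hu : u ∈ GH x y) : psh k u ∈ GH (psh k x) (psh k y) := by
  obtain ⟨a, b, c⟩ := hu
  refine ⟨by simp only [psh]; omega, ?_, ?_⟩
  · show u.2 = anc (u.1 + k) (psh k x)
    rw [anc_psh]; exact b
  · intro t h1 h2 h3
    simp only [psh] at h1 h2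
    refine c (t - k) (by omega) (by omega) ?_
    unfold Cl at *
    have e1 := anc_psh k (t - k) x
    have e2 := anc_psh k (t - k) y
    rw [sub_add_cancel] at e1 e2
    rwa [e1, e2] at h3

theorem GP_psh {k : ℤ} {x y u : ℤ × ℤ} (hu : u ∈ GP x y) : psh k u ∈ GP (psh k x) (psh k y) :=
  hu.imp GH_psh GH_psh

/-- vertical points over the origin -/
theorem mem_GP_vert {h h' : ℤ} (h0 : 0 ≤ h) (h1 : h ≤ h') : (h, 0) ∈ GP (0, 0) (h', 0) := by
  refine Or.inl ⟨h0, by simp [anc], fun t h2 h3 => ?_⟩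
  simp only at h2 h3
  omega

theorem anc_big {k s n : ℤ} (N : ℕ) (hs : (s + k).toNat ≤ N) (hn : 2 ^ (N + 1) ≤ n.natAbs) :
    2 ≤ (anc s (-k, n)).natAbs := by
  unfold anc
  simp only [sub_neg_eq_add]
  set j := (s + k).toNat
  have hp : (0 : ℤ) < 2 ^ j := by positivity
  have h2 : (2 : ℤ) ^ j * 2 ≤ n.natAbs := by
    have : 2 ^ j * 2 ≤ 2 ^ (N + 1) := by
      rw [pow_succ]
      exact Nat.mul_le_mul_right _ (Nat.pow_le_pow_right (by norm_num) hs)
    exact_mod_cast this.trans hn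
  rcases le_total 0 n with h | h
  · have : (2 : ℤ) ≤ n / 2 ^ j := by
      rw [Int.le_ediv_iff_mul_le hp]
      have : (n.natAbs : ℤ) = n := by omega
      linarith
    omega
  · have : n / 2 ^ j ≤ (-2 : ℤ) := by
      have h3 : n ≤ -(2 ^ j * 2) := by
        have : (n.natAbs : ℤ) = -n := by omega
        linarith
      have h4 : n / 2 ^ j < -1 := by
        rw [Int.ediv_lt_iff_lt_mul hp]
        linarith
      omega
    omega

/-- the guessed geodesic from the origin to a far away point of a row passes over the vertical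
line -/
theorem mem_GP_far (k T : ℤ) (hT : 0 ≤ T) : ∃ N : ℕ, ∀ n : ℤ, N ≤ n.natAbs →
    (T, 0) ∈ GP (0, 0) (-k, n) := by
  refine ⟨2 ^ ((T + k).toNat + 1), fun n hn => ?_⟩
  refine Or.inl ⟨hT, by simp [anc], fun t h2 h3 h4 => ?_⟩
  simp only at h2 h3
  have := anc_big (k := k) (s := t) (n := n) (T + k).toNat (by omega) hn
  unfold Cl at h4
  have h0 : anc t (0, 0) = 0 := by simp [anc]
  rw [h0] at h4
  omega

end Pool.Agent.helper99.LC
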