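import Mathlib
import Pool.Agent.helper99.LC.PageLemmas
import Pool.Agent.helper99.LC.FreeProd
import Pool.Agent.helper99.LC.Plane

/-!
# The graph of pages and planes
-/

set_option autoImplicit false

namespace Pool.Agent.helper99.LC

/-- the data: free product, page, subgroup -/
structure Ctx (W S Γ : Type) [Group W] [Group Γ] where
  F : FProd W Γ
  P : Page W S
  Q : Subgroup W
  hQ : ∀ n, P.e n ∈ Q → n = 0

namespace Ctx

variable {W S Γ : Type} [Group W] [Group Γ] (X : Ctx W S Γ)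

/-- the group `P = ⟨Q, c⟩` -/
abbrev G : Type := X.F.P X.Q

/-- the vertex set `P · W` -/
def V : Type := {x : Γ // ∃ p ∈ X.F.P X.Q, ∃ w : W, x = p * X.F.ι w}

instance : MulAction X.G X.V where
  smul g x := ⟨g.1 * x.1, by
    obtain ⟨p, hp, w, h⟩ := x.2
    exact ⟨g.1 * p, (X.F.P X.Q).mul_mem g.2 hp, w, by rw [h, mul_assoc]⟩⟩
  one_smul x := Subtype.ext (one_mul _)
  mul_smul g h x := Subtype.ext (mul_assoc _ _ _)

@[simp] theorem smul_val (g : X.G) (x : X.V) : (g • x).1 = g.1 * x.1 := rfl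

/-- page vertices -/
def vp (p : X.G) (w : W) : X.V := ⟨p.1 * X.F.ι w, p.1, p.2, w, rfl⟩

@[simp] theorem vp_val (p : X.G) (w : W) : (X.vp p w).1 = p.1 * X.F.ι w := rfl

theorem exists_vp (x : X.V) : ∃ p w, x = X.vp p w := by
  obtain ⟨x, p, hp, w, h⟩ := x
  exact ⟨⟨p, hp⟩, w, Subtype.ext h⟩

/-- the generator `c` of the plane -/
def cc : X.G := ⟨X.F.c, X.F.c_mem_P X.Q⟩

@[simp] theorem cc_val : (X.cc : X.G).1 = X.F.c := rfl

theorem cc_pow_val (a : ℤ) : (X.cc ^ a : X.G).1 = X.F.c ^ a := by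
  simp

/-- elements of `Q` in `P` -/
def qq (q : X.Q) : X.G := ⟨X.F.ι q.1, X.F.ι_mem_P q.2⟩

@[simp] theorem qq_val (q : X.Q) : (X.qq q).1 = X.F.ι q.1 := rfl

/-- plane vertices -/
def vm (p : X.G) (m : ℤ × ℤ) : X.V := X.vp (p * X.cc ^ (-m.1)) (X.P.e m.2)

@[simp] theorem vm_val (p : X.G) (m : ℤ × ℤ) :
    (X.vm p m).1 = p.1 * X.F.c ^ (-m.1) * X.F.ι (X.P.e m.2) := by
  simp [vm]

@[simp] theorem smul_vp (g p : X.G) (w : W) : g • X.vp p w = X.vp (g * p) w :=
  Subtype.ext (by simp [mul_assoc])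

@[simp] theorem smul_vm (g p : X.G) (m : ℤ × ℤ) : g • X.vm p m = X.vm (g * p) m :=
  Subtype.ext (by simp [mul_assoc])

theorem vm_zero (p : X.G) (n : ℤ) : X.vm p (0, n) = X.vp p (X.P.e n) :=
  Subtype.ext (by simp)

theorem vp_qq (p : X.G) (q : X.Q) (w : W) : X.vp (p * X.qq q) w = X.vp p (q.1 * w) :=
  Subtype.ext (by simp [mul_assoc])

theorem vm_cc (p : X.G) (k : ℤ) (m : ℤ × ℤ) : X.vm (p * X.cc ^ k) m = X.vm p (psh (-k) m) :=
  Subtype.ext (by
    simp only [vm_val, psh, Subgroup.coe_mul, cc_pow_val]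
    rw [mul_assoc p.1, ← zpow_add]
    congr 3; ring)

/-- `W`-head of a vertex -/
def hw (x : X.V) : W := X.F.hW x.1

/-- exponent of the `c`-head of a vertex -/
def az (x : X.V) : ℤ := X.F.a0 x.1

/-- projection to the base plane -/
def pi (x : X.V) : ℤ × ℤ := (-X.az x, X.P.γ (X.F.hW (X.F.c ^ (-X.az x) * x.1)))

/-- being in the base page -/
def inW (x : X.V) : Prop := ∃ w, x.1 = X.F.ι w

theorem inW_iff {x : X.V} : X.inW x ↔ x = X.vp 1 (X.hw x) := by
  constructor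
  · rintro ⟨w, hw⟩
    refine Subtype.ext ?_
    simp only [Ctx.hw, hw, X.F.hW_ι, vp_val, Subgroup.coe_one, one_mul]
  · intro h
    rw [h]
    exact ⟨X.hw x, by simp⟩

theorem hw_vp (w : W) : X.hw (X.vp 1 w) = w := by simp [hw, X.F.hW_ι]

theorem inW_vp (w : W) : X.inW (X.vp 1 w) := ⟨w, by simp⟩

theorem az_of_inW {x : X.V} (h : X.inW x) : X.az x = 0 := by
  obtain ⟨w, hw⟩ := h
  simp [az, hw, X.F.a0_ι]

theorem hw_of_az {x : X.V} (h : X.az x ≠ 0) : X.hw x = 1 := X.F.alt _ h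

theorem not_inW_of_az {x : X.V} (h : X.az x ≠ 0) : ¬ X.inW x := fun h' => h (X.az_of_inW h')

theorem pi_of_az {x : X.V} (h : X.az x = 0) : X.pi x = (0, X.P.γ (X.hw x)) := by
  simp [pi, h, hw]

theorem az_cc (k : ℤ) (x : X.V) : X.az (X.cc ^ k • x) = k + X.az x := by
  unfold az
  rw [smul_val, cc_pow_val, X.F.a0_mul]

theorem pi_cc (k : ℤ) (x : X.V) : X.pi (X.cc ^ k • x) = psh (-k) (X.pi x) := by
  unfold pi psh
  rw [X.az_cc]
  simp only [smul_val, cc_pow_val]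
  rw [← mul_assoc, ← zpow_add]
  refine Prod.ext (by ring) ?_
  simp only
  congr 4
  ring

theorem hw_mem {x : X.V} (h : ¬ X.inW x) : X.hw x ∈ X.Q := by
  obtain ⟨p, w, rfl⟩ := X.exists_vp x
  have hp : ¬ ∃ w', p.1 = X.F.ι w' := by
    rintro ⟨w', hw'⟩
    exact h ⟨w' * w, by simp [hw']⟩
  have := (X.F.right_ι w p.1).2 hp
  show X.F.hW (p.1 * X.F.ι w) ∈ X.Q
  rw [this]
  exact X.F.hW_mem_of_mem_P p.2

/-- `W`-head as an element of `Q` -/
def hq (x : X.V) (h : ¬ X.inW x) : X.Q := ⟨X.hw x, X.hw_mem h⟩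

theorem hw_qq (q : X.Q) (x : X.V) : X.hw (X.qq q • x) = q.1 * X.hw x := by
  simp [hw, X.F.hW_mul]

theorem qq_inv (q : X.Q) : (X.qq q)⁻¹ = X.qq q⁻¹ := Subtype.ext (by simp)

theorem hw_qq_inv (q : X.Q) (x : X.V) : X.hw ((X.qq q)⁻¹ • x) = q.1⁻¹ * X.hw x := by
  rw [qq_inv, hw_qq]; simp

theorem inW_qq (q : X.Q) (x : X.V) : X.inW (X.qq q • x) ↔ X.inW x := by
  constructor
  · rintro ⟨w, hw⟩
    refine ⟨q.1⁻¹ * w, ?_⟩
    simp only [smul_val, qq_val] at hw
    rw [map_mul, ← hw, map_inv]; simp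
  · rintro ⟨w, hw⟩
    exact ⟨q.1 * w, by simp [hw]⟩

theorem inW_qq_inv (q : X.Q) (x : X.V) : X.inW ((X.qq q)⁻¹ • x) ↔ X.inW x := by
  rw [qq_inv]; exact X.inW_qq _ x

theorem az_qq_ne {q : X.Q} {x : X.V} (h : q.1 * X.hw x ≠ 1) : X.az (X.qq q • x) = 0 :=
  X.F.a0_ι_mul h

theorem az_qq_inv_ne {q : X.Q} {x : X.V} (h : X.hw x ≠ q.1) : X.az ((X.qq q)⁻¹ • x) = 0 := by
  rw [qq_inv]
  refine X.az_qq_ne ?_
  intro h1
  apply h
  have : (q⁻¹ : X.Q).1 = q.1⁻¹ := rfl
  rw [this] at h1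
  exact (inv_mul_eq_one.mp h1).symm

/-- behind the line `hq x` -/
theorem az_hq_inv {x : X.V} (h : ¬ X.inW x) : X.az ((X.qq (X.hq x h))⁻¹ • x) ≠ 0 := by
  have := X.F.a0_tail_ne h
  simpa [az, hq, hw] using this

theorem az_qq_inv_iff {q : X.Q} {x : X.V} (h : ¬ X.inW x) :
    X.az ((X.qq q)⁻¹ • x) ≠ 0 ↔ X.hw x = q.1 := by
  constructor
  · intro h1
    by_contra h2
    exact h1 (X.az_qq_inv_ne h2)
  · intro h1
    have : q = X.hq x h := Subtype.ext h1.symm
    rw [this]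
    exact X.az_hq_inv h

theorem az_qq_inv_of_inW {q : X.Q} {x : X.V} (h : X.inW x) : X.az ((X.qq q)⁻¹ • x) = 0 :=
  X.az_of_inW ((X.inW_qq_inv q x).mpr h)

theorem pi_qq_inv_ne {q : X.Q} {x : X.V} (h : X.hw x ≠ q.1) :
    X.pi ((X.qq q)⁻¹ • x) = (0, X.P.γ (q.1⁻¹ * X.hw x)) := by
  rw [X.pi_of_az (X.az_qq_inv_ne h), hw_qq_inv]

/-- projections of plane points -/
theorem pi_vm (m : ℤ × ℤ) : X.pi (X.vm 1 m) = m := by
  have h1 : X.az (X.vm 1 m) = -m.1 := by
    unfold az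
    rw [vm_val, Subgroup.coe_one, one_mul, X.F.a0_mul, X.F.a0_ι, add_zero]
  unfold pi
  rw [h1]
  simp only [vm_val, Subgroup.coe_one, one_mul]
  rw [← mul_assoc, ← zpow_add]
  simp [X.F.hW_ι, X.P.γ_e]

theorem pi_vp_e (n : ℤ) : X.pi (X.vp 1 (X.P.e n)) = (0, n) := by
  rw [← X.vm_zero, X.pi_vm]

/-- a page element in the base page -/
theorem vp_eq_vp_one {p : X.G} {w w' : W} (h : X.vp 1 w = X.vp p w') :
    ∃ q : X.Q, p = X.qq q ∧ w = q.1 * w' := by
  have h1 := congrArg Subtype.val h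
  simp only [vp_val, Subgroup.coe_one, one_mul] at h1
  have h2 : p.1 = X.F.ι (w * w'⁻¹) := by
    rw [map_mul, map_inv, h1]; simp
  have h3 : w * w'⁻¹ ∈ X.Q := X.F.mem_Q_of_ι_mem (by rw [← h2]; exact p.2)
  exact ⟨⟨_, h3⟩, Subtype.ext h2, by simp⟩

/-- uniqueness of the line through a vertex -/
theorem line_unique {p p' : X.G} {m n : ℤ} (h : X.vp p (X.P.e m) = X.vp p' (X.P.e n)) :
    p = p' ∧ m = n := by
  have h0 : X.vp 1 (X.P.e m) = X.vp (p⁻¹ * p') (X.P.e n) := by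
    have := congrArg (fun x => p⁻¹ • x) h
    simpa using this
  obtain ⟨q, hq, hw⟩ := X.vp_eq_vp_one h0
  have := X.P.line_disj X.hQ X.Q.one_mem q.2 (m := m) (n := n) (by rw [one_mul]; exact hw)
  have hq1 : q = 1 := Subtype.ext this.1.symm
  have : X.qq 1 = 1 := Subtype.ext (by simp)
  rw [hq1, this, inv_mul_eq_one] at hq
  exact ⟨hq, by tauto⟩

/-- basic adjacency -/
def Step (x y : X.V) : Prop :=
  (∃ s, y.1 = x.1 * X.F.ι (X.P.gen s)) ∨
  (∃ p : X.G, ∃ n : ℤ, x = X.vp p (X.P.e n) ∧ y = X.vp (p * X.cc⁻¹) (X.P.e (n / 2)))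

/-- the graph -/
def graph : SimpleGraph X.V := SimpleGraph.fromRel X.Step

theorem Step.smul {x y : X.V} (g : X.G) (h : X.Step x y) : X.Step (g • x) (g • y) := by
  rcases h with ⟨s, hs⟩ | ⟨p, n, hx, hy⟩
  · exact Or.inl ⟨s, by simp [hs, mul_assoc]⟩
  · exact Or.inr ⟨g * p, n, by rw [hx, smul_vp], by rw [hy, smul_vp, mul_assoc]⟩

theorem graph_adj {x y : X.V} : X.graph.Adj x y ↔ x ≠ y ∧ (X.Step x y ∨ X.Step y x) := by
  simp [graph, SimpleGraph.fromRel_adj]

theorem adj_smul (g : X.G) {x y : X.V} (h : X.graph.Adj x y) : X.graph.Adj (g • x) (g • y) := by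
  rw [graph_adj] at *
  refine ⟨fun h' => h.1 (MulAction.injective g h'), h.2.imp (Step.smul X g) (Step.smul X g)⟩

/-- distance -/
noncomputable def d (x y : X.V) : ℕ := X.graph.dist x y

theorem reach_step {x y : X.V} (h : X.Step x y) : X.graph.Reachable x y := by
  by_cases hxy : x = y
  · rw [hxy]
  · exact (X.graph_adj.mpr ⟨hxy, Or.inl h⟩).reachable

theorem reach_page (p : X.G) (w w' : W) : X.graph.Reachable (X.vp p w) (X.vp p w') := by
  have key : ∀ n : ℕ, ∀ w w' : W, X.P.dw w w' = n →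
      X.graph.Reachable (X.vp p w) (X.vp p w') := by
    intro n
    induction n with
    | zero => intro w w' h; rw [X.P.eq_of_dw h]
    | succ n ih =>
      intro w w' h
      have hne : w ≠ w' := by rintro rfl; rw [X.P.dw_self] at h; omega
      obtain ⟨s, -, h2⟩ := X.P.exists_next (X.P.btw_left w w') hne
      exact (X.reach_step (Or.inl ⟨s, by simp [mul_assoc]⟩)).trans
        (ih (w * X.P.gen s) w' (by omega))
  exact key _ w w' rfl

theorem reach_smul (g : X.G) {x y : X.V} (h : X.graph.Reachable x y) :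
    X.graph.Reachable (g • x) (g • y) := by
  let φ : X.graph →g X.graph := ⟨fun x => g • x, fun h => X.adj_smul g h⟩
  exact h.map φ

theorem connected : X.graph.Connected := by
  have h1 : ∀ g : X.G, X.graph.Reachable (X.vp 1 1) (g • X.vp 1 1) := by
    intro ⟨g, hg⟩
    refine Subgroup.closure_induction (p := fun g hg => X.graph.Reachable (X.vp 1 1)
      ((⟨g, hg⟩ : X.G) • X.vp 1 1)) ?_ ?_ ?_ ?_ hg
    · rintro x (⟨q, hq, rfl⟩ | hx)
      · have := X.reach_page 1 1 q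
        convert this using 1
        exact Subtype.ext (by simp)
      · rw [Set.mem_singleton_iff] at hx
        subst hx
        refine SimpleGraph.Reachable.symm (X.reach_step (Or.inr ⟨X.cc, 0, ?_, ?_⟩))
        · exact Subtype.ext (by simp [cc, X.P.e_zero])
        · exact Subtype.ext (by simp [cc, X.P.e_zero])
    · rw [show (⟨1, Subgroup.one_mem _⟩ : X.G) = 1 from rfl, one_smul]
    · intro x y hx hy h1 h2
      have := X.reach_smul ⟨x, hx⟩ h2
      rw [smul_smul] at this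
      exact h1.trans this
    · intro x hx h1
      have := X.reach_smul ((⟨x, hx⟩ : X.G)⁻¹) h1
      rw [smul_smul, inv_mul_cancel, one_smul] at this
      exact this.symm
  have h2 : ∀ x : X.V, X.graph.Reachable (X.vp 1 1) x := by
    intro x
    obtain ⟨p, w, rfl⟩ := X.exists_vp x
    have := h1 p
    rw [smul_vp, mul_one] at this
    exact this.trans (X.reach_page p 1 w)
  have : Nonempty X.V := ⟨X.vp 1 1⟩
  exact ⟨fun x y => (h2 x).symm.trans (h2 y)⟩

theorem d_self (x : X.V) : X.d x x = 0 := SimpleGraph.dist_self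

theorem d_comm (x y : X.V) : X.d x y = X.d y x := SimpleGraph.dist_comm

theorem d_tri (x y z : X.V) : X.d x z ≤ X.d x y + X.d y z := X.connected.dist_triangle

theorem d_eq_zero {x y : X.V} (h : X.d x y = 0) : x = y := (X.connected.dist_eq_zero_iff).mp h

theorem d_step {x y : X.V} (h : X.Step x y) : X.d x y ≤ 1 := by
  by_cases hxy : x = y
  · rw [hxy, X.d_self]; omega
  · exact (SimpleGraph.dist_eq_one_iff_adj.mpr (X.graph_adj.mpr ⟨hxy, Or.inl h⟩)).le

theorem d_smul (g : X.G) (x y : X.V) : X.d (g • x) (g • y) = X.d x y := by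
  have key : ∀ (g : X.G) (x y : X.V), X.d (g • x) (g • y) ≤ X.d x y := by
    intro g x y
    let φ : X.graph →g X.graph := ⟨fun x => g • x, fun h => X.adj_smul g h⟩
    obtain ⟨p, hp⟩ := X.connected.exists_walk_length_eq_dist x y
    have := SimpleGraph.dist_le (p.map φ)
    rw [SimpleGraph.Walk.length_map, hp] at this
    exact this
  refine le_antisymm (key g x y) ?_
  have := key g⁻¹ (g • x) (g • y)
  simpa using this

theorem d_page (p : X.G) (w w' : W) : X.d (X.vp p w) (X.vp p w') ≤ X.P.dw w w' := by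
  have key : ∀ n : ℕ, ∀ w w' : W, X.P.dw w w' = n → X.d (X.vp p w) (X.vp p w') ≤ n := by
    intro n
    induction n with
    | zero => intro w w' h; rw [X.P.eq_of_dw h, X.d_self]
    | succ n ih =>
      intro w w' h
      have hne : w ≠ w' := by rintro rfl; rw [X.P.dw_self] at h; omega
      obtain ⟨s, -, h2⟩ := X.P.exists_next (X.P.btw_left w w') hne
      have h3 := ih (w * X.P.gen s) w' (by omega)
      have h4 : X.d (X.vp p w) (X.vp p (w * X.P.gen s)) ≤ 1 :=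
        X.d_step (Or.inl ⟨s, by simp [mul_assoc]⟩)
      have := X.d_tri (X.vp p w) (X.vp p (w * X.P.gen s)) (X.vp p w')
      omega
  exact key _ w w' rfl

theorem d_line (p : X.G) (m n : ℤ) : X.d (X.vp p (X.P.e m)) (X.vp p (X.P.e n)) ≤ (m - n).natAbs :=
  (X.d_page p _ _).trans (X.P.dw_e m n).le

theorem d_row (p : X.G) (h m n : ℤ) : X.d (X.vm p (h, m)) (X.vm p (h, n)) ≤ (m - n).natAbs :=
  X.d_line _ m n

theorem d_padj (p : X.G) {m m' : ℤ × ℤ} (h : PAdj m m') : X.d (X.vm p m) (X.vm p m') ≤ 1 := by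
  have up : ∀ m m' : ℤ × ℤ, m'.1 = m.1 + 1 → m'.2 = m.2 / 2 →
      X.d (X.vm p m) (X.vm p m') ≤ 1 := by
    intro m m' h1 h2
    refine X.d_step (Or.inr ⟨p * X.cc ^ (-m.1), m.2, rfl, ?_⟩)
    unfold vm
    rw [h1, h2, mul_assoc]
    congr 2
    rw [← zpow_neg_one, ← zpow_add]
    congr 1; ring
  rcases h with h | h | h
  · obtain ⟨m1, m2⟩ := m
    obtain ⟨n1, n2⟩ := m'
    simp only at h
    obtain ⟨rfl, h⟩ := h
    exact (X.d_row p _ _ _).trans h
  · exact up m m' h.1 h.2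
  · rw [X.d_comm]; exact up m' m h.1 h.2

end Ctx

end Pool.Agent.helper99.LC
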