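import Mathlib

/-!
# Guessing geodesics

A criterion for hyperbolicity of a graph-like metric: a family of paths `L x y` with thin
triangles.
-/

set_option autoImplicit false

namespace Pool.Agent.helper99.LC

/-- data of a guessed family of geodesics -/
structure GuessFam {V : Type} (d : V → V → ℕ) (L : V → V → Set V) (D : ℕ) : Prop where
  d_self : ∀ x, d x x = 0
  d_comm : ∀ x y, d x y = d y x
  d_tri : ∀ x y z, d x z ≤ d x y + d y z
  geo : ∀ x y, ∃ α : ℕ → V, α 0 = x ∧ α (d x y) = y ∧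
    ∀ i j, i ≤ j → j ≤ d x y → d (α i) (α j) = j - i
  chain : ∀ x y, x ∈ L x y ∧
    Relation.ReflTransGen (fun a b => b ∈ L x y ∧ d a b ≤ D) x y
  thin : ∀ x y z, ∀ u ∈ L x y, ∃ u', d u u' ≤ D ∧ (u' ∈ L x z ∨ u' ∈ L z y)
  small : ∀ x y, d x y ≤ 1 → ∀ u ∈ L x y, d x u ≤ D

theorem exists_log_bound (D : ℕ) : ∃ R0 : ℕ, 3 * D ≤ R0 ∧
    ∀ r, R0 < r → ∀ k, 2 ^ k < 6 * r * 2 → D * (k + 3) < r := by
  refine ⟨D * (48 * D + 100 + 3) + 3 * D, by omega, fun r hr k hk => ?_⟩
  by_cases h : k ≤ 48 * D + 100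
  · calc D * (k + 3) ≤ D * (48 * D + 100 + 3) := by gcongr
      _ ≤ D * (48 * D + 100 + 3) + 3 * D := by omega
      _ < r := hr
  · push Not at h
    have h1 : (k / 2 + 1) * (k - k / 2 + 1) ≤ 2 ^ k := by
      have e : k = k / 2 + (k - k / 2) := by omega
      calc (k / 2 + 1) * (k - k / 2 + 1) ≤ 2 ^ (k / 2) * 2 ^ (k - k / 2) := by
            apply Nat.mul_le_mul
            · exact Nat.lt_two_pow_self
            · exact Nat.lt_two_pow_self
        _ = 2 ^ k := by rw [← pow_add]; congr 1; omega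
    have h2 : 12 * (D * (k + 3)) ≤ (k / 2 + 1) * (k - k / 2 + 1) := by
      have a1 : k ≤ 2 * (k / 2) + 1 := by omega
      have a2 : k / 2 ≤ k - k / 2 := by omega
      have a3 : 24 * D + 50 ≤ k / 2 := by omega
      set a := k / 2
      set b := k - k / 2
      have hk' : k = a + b := by omega
      have q1 : (a + 1) * (a + 1) ≤ (a + 1) * (b + 1) := by gcongr
      have q2 : D * (k + 3) ≤ D * (2 * a + 4) := Nat.mul_le_mul_left _ (by omega)
      nlinarith [Nat.zero_le D]
    omega

section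

variable {V : Type} {d : V → V → ℕ} {L : V → V → Set V} {D : ℕ}

theorem GuessFam.logstep (h : GuessFam d L D) (α : ℕ → V) (n : ℕ)
    (hα : ∀ i j, i ≤ j → j ≤ n → d (α i) (α j) = j - i) (k : ℕ) :
    ∀ i j, i ≤ j → j ≤ n → j - i ≤ 2 ^ k → ∀ u ∈ L (α i) (α j),
      ∃ l, i ≤ l ∧ l ≤ j ∧ d u (α l) ≤ D * (k + 1) := by
  induction k with
  | zero =>
    intro i j hij hj hk u hu
    refine ⟨i, le_rfl, hij, ?_⟩
    rw [h.d_comm]
    simpa using h.small _ _ (by rw [hα i j hij hj]; simpa using hk) u hu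
  | succ k ih =>
    intro i j hij hj hk u hu
    have hp : 2 ^ (k + 1) = 2 * 2 ^ k := by ring
    set m := i + (j - i) / 2 with hm
    obtain ⟨u', hu', hL⟩ := h.thin (α i) (α j) (α m) u hu
    rcases hL with hL | hL
    · obtain ⟨l, h1, h2, h3⟩ := ih i m (by omega) (by omega) (by omega) u' hL
      refine ⟨l, h1, by omega, ?_⟩
      have := h.d_tri u u' (α l)
      nlinarith
    · obtain ⟨l, h1, h2, h3⟩ := ih m j (by omega) (by omega) (by omega) u' hL
      refine ⟨l, by omega, h2, ?_⟩
      have := h.d_tri u u' (α l)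
      nlinarith

theorem GuessFam.close (h : GuessFam d L D) {R0 : ℕ} (hR : 3 * D ≤ R0)
    (hR0 : ∀ r, R0 < r → ∀ k, 2 ^ k < 6 * r * 2 → D * (k + 3) < r)
    (α : ℕ → V) (n : ℕ) (hα : ∀ i j, i ≤ j → j ≤ n → d (α i) (α j) = j - i) (m : ℕ) :
    ∀ i j, i ≤ j → j ≤ n → j - i ≤ m → ∀ u ∈ L (α i) (α j),
      ∃ l, i ≤ l ∧ l ≤ j ∧ d u (α l) ≤ R0 := by
  induction m using Nat.strong_induction_on with
  | _ m ih =>
  intro i j hij hj hm u hu
  -- nearest point
  obtain ⟨l0, hl0, hmin⟩ := Finset.exists_min_image (Finset.Icc i j) (fun l => d u (α l))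
    ⟨i, by simp [hij]⟩
  simp only [Finset.mem_Icc] at hl0 hmin
  by_contra hcon
  push Not at hcon
  set r := d u (α l0) with hr
  have hrR : R0 < r := hcon l0 hl0.1 hl0.2
  set i' := max i (l0 - 3 * r) with hi'
  set j' := min j (l0 + 3 * r) with hj'
  have hfar : ∀ l, i ≤ l → l ≤ j → (l + 3 * r ≤ l0 ∨ l0 + 3 * r ≤ l) → 2 * r ≤ d u (α l) := by
    intro l h1 h2 h3
    have e1 := h.d_tri (α l0) u (α l)
    rw [h.d_comm (α l0) u] at e1
    rcases h3 with h3 | h3
    · have e2 := hα l l0 (by omega) (by omega)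
      rw [h.d_comm] at e2
      omega
    · have e2 := hα l0 l (by omega) (by omega)
      omega
  obtain ⟨u1, hu1, hL1⟩ := h.thin (α i) (α j) (α i') u hu
  rcases hL1 with hL1 | hL1
  · by_cases hii : i' = i
    · rw [hii] at hL1
      have := h.small (α i) (α i) (by rw [h.d_self]; omega) u1 hL1
      have e1 := h.d_tri u u1 (α i)
      rw [h.d_comm u1] at e1
      have := hmin i ⟨le_rfl, hij⟩
      omega
    · have hi2 : i' = l0 - 3 * r := by omega
      obtain ⟨l, h1, h2, h3⟩ := ih (i' - i) (by omega) i i' (by omega) (by omega) le_rfl u1 hL1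
      have := hfar l h1 (by omega) (Or.inl (by omega))
      have e1 := h.d_tri u u1 (α l)
      omega
  · obtain ⟨u2, hu2, hL2⟩ := h.thin (α i') (α j) (α j') u1 hL1
    rcases hL2 with hL2 | hL2
    · -- log step
      obtain ⟨k, hk1, hk2⟩ : ∃ k, j' - i' ≤ 2 ^ k ∧ 2 ^ k < 6 * r * 2 := by
        refine ⟨Nat.clog 2 (6 * r), ?_, ?_⟩
        · calc j' - i' ≤ 6 * r := by omega
            _ ≤ _ := Nat.le_pow_clog (by norm_num) _
        · have h6 : 1 < 6 * r := by omega
          have hc := Nat.pow_pred_clog_lt_self (b := 2) (by norm_num) h6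
          have hpos : 0 < Nat.clog 2 (6 * r) := Nat.clog_pos (by norm_num) (by omega)
          have : 2 ^ (Nat.clog 2 (6 * r)) = 2 ^ ((Nat.clog 2 (6 * r)).pred) * 2 := by
            rw [← pow_succ]
            congr 1
            exact (Nat.succ_pred_eq_of_pos hpos).symm
          omega
      obtain ⟨l, h1, h2, h3⟩ := h.logstep α n hα k i' j' (by omega) (by omega) hk1 u2 hL2
      have hb := hR0 r hrR k hk2
      have e1 := h.d_tri u u1 (α l)
      have e2 := h.d_tri u1 u2 (α l)
      have e3 := hmin l ⟨by omega, by omega⟩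
      nlinarith
    · by_cases hjj : j' = j
      · rw [hjj] at hL2
        have := h.small (α j) (α j) (by rw [h.d_self]; omega) u2 hL2
        have e1 := h.d_tri u u1 (α j)
        have e2 := h.d_tri u1 u2 (α j)
        rw [h.d_comm u2] at e2
        have := hmin j ⟨hij, le_rfl⟩
        omega
      · have hj2 : j' = l0 + 3 * r := by omega
        obtain ⟨l, h1, h2, h3⟩ := ih (j - j') (by omega) j' j (by omega) (by omega) le_rfl u2 hL2
        have := hfar l (by omega) h2 (Or.inr (by omega))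
        have e1 := h.d_tri u u1 (α l)
        have e2 := h.d_tri u1 u2 (α l)
        omega

/-- **Guessing geodesics.** The guessed paths are uniformly close to being additive, and the
metric satisfies the four point condition. -/
theorem GuessFam.hyperbolic (h : GuessFam d L D) : ∃ C : ℕ,
    (∀ x y, ∀ u ∈ L x y, d x u + d u y ≤ d x y + C) ∧
    (∀ w x y z, min ((d x w : ℤ) + d y w - d x y) ((d y w : ℤ) + d z w - d y z)
      ≤ (d x w : ℤ) + d z w - d x z + C) := by
  obtain ⟨R0, hR, hR0⟩ := exists_log_bound D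
  have hadd : ∀ x y, ∀ u ∈ L x y, d x u + d u y ≤ d x y + 2 * R0 := by
    intro x y u hu
    obtain ⟨α, h0, h1, hα⟩ := h.geo x y
    obtain ⟨l, -, hl, hd⟩ := h.close hR hR0 α (d x y) hα (d x y) 0 (d x y) (by omega) le_rfl
      (by omega) u (by rw [h0, h1]; exact hu)
    have e1 := hα 0 l (by omega) hl
    have e2 := hα l (d x y) hl le_rfl
    rw [h0] at e1
    rw [h1] at e2
    have e3 := h.d_tri x (α l) u
    have e4 := h.d_tri u (α l) y
    rw [h.d_comm (α l) u] at e3
    omega
  refine ⟨8 * D + 8 * R0, fun x y u hu => (hadd x y u hu).trans (by omega), ?_⟩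
  intro w x y z
  -- the point on L x z near both other sides
  have key : ∃ u ∈ L x z, (∃ a ∈ L x w, d u a ≤ D) ∧ (∃ b ∈ L w z, d u b ≤ 2 * D) := by
    have hz : z ∈ L w z := by
      obtain ⟨h1, h2⟩ := h.chain w z
      rcases Relation.ReflTransGen.cases_tail h2 with h3 | ⟨c, -, h3, -⟩
      · subst h3; exact h1
      · exact h3
    obtain ⟨hxL, hch⟩ := h.chain x z
    -- induction along the chain: either success or current point is near L x w
    have hind : ∀ v, Relation.ReflTransGen (fun a b => b ∈ L x z ∧ d a b ≤ D) x v →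
        v ∈ L x z ∧ ((∃ u ∈ L x z, (∃ a ∈ L x w, d u a ≤ D) ∧ (∃ b ∈ L w z, d u b ≤ 2 * D)) ∨
          (∃ a ∈ L x w, d v a ≤ D)) := by
      intro v hv
      induction hv with
      | refl => exact ⟨hxL, Or.inr ⟨x, (h.chain x w).1, by rw [h.d_self]; omega⟩⟩
      | tail hbc hc ihc =>
        rename_i b c
        refine ⟨hc.1, ?_⟩
        rcases ihc.2 with hs | hs
        · exact Or.inl hs
        · obtain ⟨u', hu', hL⟩ := h.thin x z w c hc.1
          rcases hL with hL | hL
          · exact Or.inr ⟨u', hL, hu'⟩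
          · refine Or.inl ⟨b, ihc.1, hs, u', hL, ?_⟩
            have := h.d_tri b c u'
            omega
    obtain ⟨hzL, hs | hs⟩ := hind z hch
    · exact hs
    · exact ⟨z, hzL, hs, z, hz, by rw [h.d_self]; omega⟩
  obtain ⟨u, huL, ⟨a, ha, hua⟩, ⟨b, hb, hub⟩⟩ := key
  have a1 := hadd x w a ha
  have b1 := hadd w z b hb
  have t1 := h.d_tri x a u
  have t2 := h.d_tri u a w
  have t3 := h.d_tri w b u
  have t4 := h.d_tri u b z
  have t5 := h.d_tri x u z
  have c1 := h.d_comm u a
  have c2 := h.d_comm u b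
  have c3 := h.d_comm w u
  have c4 := h.d_comm w z
  obtain ⟨u', hu', hL⟩ := h.thin x z y u huL
  have t6 := h.d_tri x u' w
  have c5 := h.d_comm u u'
  have t7 := h.d_tri u' u w
  rcases hL with hL | hL
  · apply (min_le_left _ _).trans
    have a2 := hadd x y u' hL
    have t8 := h.d_tri y u' w
    have c6 := h.d_comm y u'
    omega
  · apply (min_le_right _ _).trans
    have a2 := hadd y z u' hL
    have t8 := h.d_tri y u' w
    have t9 := h.d_tri z u' w
    have c6 := h.d_comm z u'
    omega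

end

end Pool.Agent.helper99.LC
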