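import Mathlib
import Pool.Agent.helper99.LC.Space
import Pool.Agent.helper99.LC.Guess

/-!
# The guessed geodesics of the space of pages and planes
-/

set_option autoImplicit false

namespace Pool.Agent.helper99.LC

namespace Ctx

variable {W S Γ : Type} [Group W] [Group Γ] (X : Ctx W S Γ)

/-- relevant pages -/
def relP (p : X.G) (x y : X.V) : Prop :=
  X.hw (p⁻¹ • x) ≠ X.hw (p⁻¹ • y) ∨ X.inW (p⁻¹ • x) ∨ X.inW (p⁻¹ • y)

/-- relevant planes -/
def relL (p : X.G) (x y : X.V) : Prop :=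
  ¬ ((X.pi (p⁻¹ • x)).1 = (X.pi (p⁻¹ • y)).1 ∧
    ((X.pi (p⁻¹ • x)).2 - (X.pi (p⁻¹ • y)).2).natAbs ≤ 1)

/-- threshold -/
def th : ℕ := X.P.κ + 3

/-- good vertices: not deep on a line -/
def good (x y u : X.V) : Prop := ∀ (p : X.G) (n : ℤ), u = X.vp p (X.P.e n) →
  X.d u (X.vm p (X.pi (p⁻¹ • x))) ≤ X.th ∨ X.d u (X.vm p (X.pi (p⁻¹ • y))) ≤ X.th

/-- guessed geodesics -/
def L (x y : X.V) : Set X.V :=
  {u | (∃ p w, u = X.vp p w ∧ X.P.Btw (X.hw (p⁻¹ • x)) (X.hw (p⁻¹ • y)) w ∧ X.relP p x y ∧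
      X.good x y u) ∨
    (∃ p m, u = X.vm p m ∧ m ∈ GP (X.pi (p⁻¹ • x)) (X.pi (p⁻¹ • y)) ∧ X.relL p x y)}

theorem inv_smul_aux (g p : X.G) (x : X.V) : (g * p)⁻¹ • g • x = p⁻¹ • x := by
  rw [mul_inv_rev, mul_smul, inv_smul_smul]

theorem good.smul {x y u : X.V} (g : X.G) (h : X.good x y u) :
    X.good (g • x) (g • y) (g • u) := by
  intro p n hu
  have e1 : (g⁻¹ * p)⁻¹ • x = p⁻¹ • g • x := by
    rw [mul_inv_rev, inv_inv, mul_smul]
  have e2 : (g⁻¹ * p)⁻¹ • y = p⁻¹ • g • y := by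
    rw [mul_inv_rev, inv_inv, mul_smul]
  have hu' : u = X.vp (g⁻¹ * p) (X.P.e n) := by
    rw [← X.smul_vp, ← hu, inv_smul_smul]
  have := h _ _ hu'
  rw [e1, e2] at this
  rcases this with h1 | h1
  · left
    have h2 := X.d_smul g u (X.vm (g⁻¹ * p) (X.pi (p⁻¹ • g • x)))
    rw [smul_vm, mul_inv_cancel_left] at h2
    rw [h2]; exact h1
  · right
    have h2 := X.d_smul g u (X.vm (g⁻¹ * p) (X.pi (p⁻¹ • g • y)))
    rw [smul_vm, mul_inv_cancel_left] at h2
    rw [h2]; exact h1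

theorem relP_smul {p g : X.G} {x y : X.V} : X.relP (g * p) (g • x) (g • y) ↔ X.relP p x y := by
  unfold relP; rw [X.inv_smul_aux, X.inv_smul_aux]

theorem relL_smul {p g : X.G} {x y : X.V} : X.relL (g * p) (g • x) (g • y) ↔ X.relL p x y := by
  unfold relL; rw [X.inv_smul_aux, X.inv_smul_aux]

theorem L_smul {x y u : X.V} (g : X.G) (h : u ∈ X.L x y) : g • u ∈ X.L (g • x) (g • y) := by
  rcases h with ⟨p, w, rfl, h2, h3, h4⟩ | ⟨p, m, rfl, h2, h3⟩
  · refine Or.inl ⟨g * p, w, X.smul_vp g p w, ?_, X.relP_smul.mpr h3, h4.smul X g⟩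
    rw [X.inv_smul_aux, X.inv_smul_aux]; exact h2
  · refine Or.inr ⟨g * p, m, X.smul_vm g p m, ?_, X.relL_smul.mpr h3⟩
    rw [X.inv_smul_aux, X.inv_smul_aux]; exact h2

theorem good.symm {x y u : X.V} (h : X.good x y u) : X.good y x u := fun p n hu =>
  (h p n hu).symm

theorem relP.symm {p : X.G} {x y : X.V} (h : X.relP p x y) : X.relP p y x := by
  unfold relP at *
  rcases h with h | h | h
  · exact Or.inl h.symm
  · exact Or.inr (Or.inr h)
  · exact Or.inr (Or.inl h)

theorem relL.symm {p : X.G} {x y : X.V} (h : X.relL p x y) : X.relL p y x := by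
  unfold relL at *
  intro h'
  exact h ⟨h'.1.symm, by omega⟩

theorem L_symm {x y u : X.V} (h : u ∈ X.L x y) : u ∈ X.L y x := by
  rcases h with ⟨p, w, h1, h2, h3, h4⟩ | ⟨p, m, h1, h2, h3⟩
  · exact Or.inl ⟨p, w, h1, h2.symm, h3.symm X, h4.symm X⟩
  · exact Or.inr ⟨p, m, h1, by rw [GP_comm]; exact h2, h3.symm X⟩

theorem pi_mem_left {p : X.G} {x y : X.V} (h : X.relL p x y) :
    X.vm p (X.pi (p⁻¹ • x)) ∈ X.L x y := Or.inr ⟨p, _, rfl, left_mem_GP _ _, h⟩

theorem pi_mem_right {p : X.G} {x y : X.V} (h : X.relL p x y) :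
    X.vm p (X.pi (p⁻¹ • y)) ∈ X.L x y := Or.inr ⟨p, _, rfl, right_mem_GP _ _, h⟩

theorem not_relL {p : X.G} {x y : X.V} (h : ¬ X.relL p x y) :
    X.d (X.vm p (X.pi (p⁻¹ • x))) (X.vm p (X.pi (p⁻¹ • y))) ≤ 1 := by
  unfold relL at h
  push Not at h
  exact X.d_padj p (Or.inl h)

/-- finishing lemma -/
theorem fin1 (p : X.G) {u x y z : X.V} {r : ℕ}
    (h : X.d u (X.vm p (X.pi (p⁻¹ • y))) ≤ r) (hxz : X.relL p x z) :
    ∃ u', X.d u u' ≤ r + 1 ∧ (u' ∈ X.L x z ∨ u' ∈ X.L z y) := by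
  by_cases hzy : X.relL p z y
  · exact ⟨_, by omega, Or.inr (X.pi_mem_right hzy)⟩
  · have := X.not_relL hzy
    rw [X.d_comm] at this
    have t := X.d_tri u (X.vm p (X.pi (p⁻¹ • y))) (X.vm p (X.pi (p⁻¹ • z)))
    exact ⟨_, by omega, Or.inl (X.pi_mem_right hxz)⟩

/-- in the base page: a bad vertex of the line `1` makes the base plane relevant -/
theorem relL_of_bad {x z : X.V} {n : ℤ} (hrel : X.relP 1 x z)
    (hn : X.P.Btw (X.hw x) (X.hw z) (X.P.e n))
    (b1 : 1 < X.d (X.vp 1 (X.P.e n)) (X.vm 1 (X.pi x))) : X.relL 1 x z := by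
  intro hcon
  simp only [inv_one, one_smul] at hcon
  by_cases haz : X.az x = 0
  · have hz : X.az z = 0 := by
      have := hcon.1
      simp only [pi, haz] at this
      omega
    rw [X.pi_of_az haz, X.pi_of_az hz] at hcon
    have := X.P.between hn
    rw [X.pi_of_az haz, X.vm_zero] at b1
    have := X.d_line 1 n (X.P.γ (X.hw x))
    simp only at hcon
    omega
  · have hz : X.az z ≠ 0 := by
      have := hcon.1
      simp only [pi] at this
      omega
    unfold relP at hrel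
    simp only [inv_one, one_smul] at hrel
    rcases hrel with h | h | h
    · rw [X.hw_of_az haz, X.hw_of_az hz] at h; exact h rfl
    · exact haz (X.az_of_inW h)
    · exact hz (X.az_of_inW h)

/-- A vertex off the line `1` near a far away vertex of the line. -/
theorem near_pi {x y : X.V} {w : W} {n : ℤ} (hw : X.P.Btw (X.hw x) (X.hw y) w)
    (hnD : ∀ k, w ≠ X.P.e k) (hκ : X.P.dw w (X.P.e n) ≤ X.P.κ)
    (b1 : X.th < X.d (X.vp 1 (X.P.e n)) (X.vm 1 (X.pi x))) :
    X.az y = 0 ∧ X.d (X.vp 1 w) (X.vm 1 (X.pi y)) ≤ 2 * X.P.κ + 1 := by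
  have hlip := X.P.γ_lip w (X.P.e n)
  rw [X.P.γ_e] at hlip
  have hth : X.th = X.P.κ + 3 := rfl
  -- γ w and γ (hw y) are within 1
  have key : X.az y = 0 ∧ (X.P.γ w - X.P.γ (X.hw y)).natAbs ≤ 1 := by
    by_cases hax : X.az x = 0
    · rw [X.pi_of_az hax, X.vm_zero] at b1
      have hl := X.d_line 1 n (X.P.γ (X.hw x))
      have hfar : 2 ≤ (X.P.γ (X.hw x) - X.P.γ w).natAbs := by omega
      by_cases hay : X.az y = 0
      · refine ⟨hay, ?_⟩
        by_contra hc
        exact hnD _ (X.P.mem_line hw hfar (by omega))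
      · exfalso
        rw [X.hw_of_az hay, ← X.P.e_zero] at hw
        exact hnD _ (X.P.mem_line' hw hfar)
    · rw [X.hw_of_az hax, ← X.P.e_zero] at hw
      by_cases hay : X.az y = 0
      · refine ⟨hay, ?_⟩
        by_contra hc
        exact hnD _ (X.P.mem_line' hw.symm (by omega))
      · exfalso
        rw [X.hw_of_az hay, X.P.e_zero] at hw
        exact hnD 0 (by rw [X.P.btw_self hw, X.P.e_zero])
  refine ⟨key.1, ?_⟩
  rw [X.pi_of_az key.1, X.vm_zero]
  have t1 := X.d_tri (X.vp 1 w) (X.vp 1 (X.P.e n)) (X.vp 1 (X.P.e (X.P.γ (X.hw y))))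
  have t2 := X.d_page 1 w (X.P.e n)
  have t3 := X.d_line 1 n (X.P.γ (X.hw y))
  omega

/-- case B1 for the line `1` -/
theorem caseB1 {x y z : X.V} {w : W} {n : ℤ} (hw : X.P.Btw (X.hw x) (X.hw y) w)
    (hg : X.good x y (X.vp 1 w)) (hn : X.P.Btw (X.hw x) (X.hw z) (X.P.e n))
    (hrel : X.relP 1 x z) (hκ : X.P.dw w (X.P.e n) ≤ X.P.κ)
    (b1 : X.th < X.d (X.vp 1 (X.P.e n)) (X.vm 1 (X.pi x))) :
    ∃ u', X.d (X.vp 1 w) u' ≤ X.th + 2 * X.P.κ + 2 ∧ (u' ∈ X.L x z ∨ u' ∈ X.L z y) := by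
  have hth : X.th = X.P.κ + 3 := rfl
  have hxz : X.relL 1 x z := X.relL_of_bad hrel hn (by omega)
  by_cases hD : ∃ k, w = X.P.e k
  · obtain ⟨k, rfl⟩ := hD
    rcases hg 1 k rfl with h | h
    · exact ⟨_, by omega, Or.inl (X.pi_mem_left hxz)⟩
    · obtain ⟨u', h1, h2⟩ := X.fin1 1 h hxz
      exact ⟨u', by omega, h2⟩
  · push Not at hD
    obtain ⟨-, h⟩ := X.near_pi hw hD hκ b1
    obtain ⟨u', h1, h2⟩ := X.fin1 (r := 2 * X.P.κ + 1) 1
      (by rw [inv_one, one_smul]; exact h) hxz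
    exact ⟨u', by omega, h2⟩

/-- case B with a page vertex on the side of `x, z` -/
theorem caseB {x y z : X.V} {w w1 : W} (hw : X.P.Btw (X.hw x) (X.hw y) w)
    (hrel : X.relP 1 x y) (hg : X.good x y (X.vp 1 w))
    (hw1 : X.P.Btw (X.hw x) (X.hw z) w1) (hκ : X.P.dw w w1 ≤ X.P.κ) :
    ∃ u', X.d (X.vp 1 w) u' ≤ X.th + 2 * X.P.κ + 2 ∧ (u' ∈ X.L x z ∨ u' ∈ X.L z y) := by
  have hth : X.th = X.P.κ + 3 := rfl
  by_cases hxz : X.relP 1 x z
  · by_cases hg1 : X.good x z (X.vp 1 w1)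
    · refine ⟨X.vp 1 w1, (X.d_page 1 w w1).trans (by omega), Or.inl (Or.inl ⟨1, w1, rfl, ?_,
        hxz, hg1⟩)⟩
      simpa using hw1
    · unfold good at hg1
      push Not at hg1
      obtain ⟨p, n, hpn, hb1, hb2⟩ := hg1
      obtain ⟨q, rfl, hq⟩ := X.vp_eq_vp_one hpn
      -- translate by q
      set g := (X.qq q)⁻¹ with hgdef
      have hge : ∀ v : W, g • X.vp 1 v = X.vp 1 (q.1⁻¹ * v) := by
        intro v
        rw [hgdef, X.qq_inv, X.smul_vp, mul_one]
        exact Subtype.ext (by simp)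
      have e1 : X.hw (g • x) = q.1⁻¹ * X.hw x := X.hw_qq_inv q x
      have e2 : X.hw (g • y) = q.1⁻¹ * X.hw y := X.hw_qq_inv q y
      have e3 : X.hw (g • z) = q.1⁻¹ * X.hw z := X.hw_qq_inv q z
      have hre : X.relP 1 (g • x) (g • z) := by
        unfold relP at hxz ⊢
        simp only [inv_one, one_smul] at hxz ⊢
        rw [e1, e3, hgdef, X.inW_qq_inv, X.inW_qq_inv]
        exact hxz.imp (fun h h' => h (mul_left_cancel h')) id
      have hq' : q.1⁻¹ * w1 = X.P.e n := by rw [hq]; simp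
      obtain ⟨u', h1, h2⟩ := X.caseB1 (x := g • x) (y := g • y) (z := g • z)
        (w := q.1⁻¹ * w) (n := n) (by rw [e1, e2]; exact hw.left X.P _)
        (by rw [← hge]; exact hg.smul X g)
        (by rw [e1, e3, ← hq']; exact hw1.left X.P _) hre
        (by rw [← hq', X.P.dw_left]; exact hκ)
        (by
          have := hb1
          rw [hpn, ← X.d_smul g, smul_vm, smul_vp, hgdef, inv_mul_cancel] at this
          exact this)
      refine ⟨g⁻¹ • u', ?_, ?_⟩
      · rw [← X.d_smul g, smul_inv_smul, hge]; exact h1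
      · rcases h2 with h2 | h2
        · left
          have := X.L_smul g⁻¹ h2
          rwa [inv_smul_smul, inv_smul_smul] at this
        · right
          have := X.L_smul g⁻¹ h2
          rwa [inv_smul_smul, inv_smul_smul] at this
  · -- page irrelevant for x, z
    unfold relP at hxz hrel
    simp only [inv_one, one_smul] at hxz hrel
    push Not at hxz
    obtain ⟨hxz1, hxW, hzW⟩ := hxz
    set q := X.hq x hxW with hqdef
    have hq1 : X.hw x = q.1 := rfl
    have hq2 : X.hw z = q.1 := by rw [← hxz1]; exact hq1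
    have hrel' : X.hw x ≠ X.hw y ∨ X.inW y := by tauto
    by_cases hon : ∃ n, X.vp 1 w = X.vp (X.qq q) (X.P.e n) ∧
        X.d (X.vp 1 w) (X.vm (X.qq q) (X.pi ((X.qq q)⁻¹ • x))) ≤ X.th
    · obtain ⟨n, hn1, hn2⟩ := hon
      by_cases hL : X.relL (X.qq q) x z
      · exact ⟨_, by omega, Or.inl (X.pi_mem_left hL)⟩
      · have h1 := X.not_relL hL
        have hz : X.az ((X.qq q)⁻¹ • z) ≠ 0 := (X.az_qq_inv_iff hzW).mpr hq2
        have hy : X.az ((X.qq q)⁻¹ • y) = 0 := by
          by_contra hy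
          have hyW : ¬ X.inW y := fun h => hy (X.az_qq_inv_of_inW h)
          have := (X.az_qq_inv_iff hyW).mp hy
          rcases hrel' with h | h
          · exact h (by rw [hq1, this])
          · exact hyW h
        have hL' : X.relL (X.qq q) z y := by
          intro h
          have := h.1
          simp only [pi, hy] at this
          omega
        have t := X.d_tri (X.vp 1 w) (X.vm (X.qq q) (X.pi ((X.qq q)⁻¹ • x)))
          (X.vm (X.qq q) (X.pi ((X.qq q)⁻¹ • z)))
        exact ⟨_, by omega, Or.inr (X.pi_mem_left hL')⟩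
    · refine ⟨X.vp 1 w, by rw [X.d_self]; omega, Or.inr (Or.inl ⟨1, w, rfl, ?_, ?_, ?_⟩)⟩
      · simp only [inv_one, one_smul]; rw [← hxz1]; exact hw
      · unfold relP
        simp only [inv_one, one_smul]
        rw [← hxz1]
        tauto
      · intro p n hpn
        obtain ⟨q', rfl, hq'⟩ := X.vp_eq_vp_one hpn
        rcases hg _ n hpn with h | h
        · by_cases hqq : q' = q
          · subst hqq
            exact absurd ⟨n, hpn, h⟩ hon
          · left
            have e1 : X.pi ((X.qq q')⁻¹ • x) = X.pi ((X.qq q')⁻¹ • z) := by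
              rw [X.pi_qq_inv_ne, X.pi_qq_inv_ne, hxz1]
              · rw [hq2]; exact fun h => hqq (Subtype.ext h.symm)
              · rw [hq1]; exact fun h => hqq (Subtype.ext h.symm)
            rw [← e1]; exact h
        · right; exact h

/-- thinness for page vertices of the base page -/
theorem thin_page {x y : X.V} (z : X.V) {w : W} (hw : X.P.Btw (X.hw x) (X.hw y) w)
    (hrel : X.relP 1 x y) (hg : X.good x y (X.vp 1 w)) :
    ∃ u', X.d (X.vp 1 w) u' ≤ X.th + 2 * X.P.κ + 2 ∧ (u' ∈ X.L x z ∨ u' ∈ X.L z y) := by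
  obtain ⟨w1, hκ, h | h⟩ := X.P.thin' (X.hw z) hw
  · exact X.caseB hw hrel hg h hκ
  · obtain ⟨u', h1, h2⟩ := X.caseB (x := y) (y := x) (z := z) hw.symm (hrel.symm X) (hg.symm X)
      h.symm hκ
    refine ⟨u', h1, ?_⟩
    rcases h2 with h2 | h2
    · exact Or.inr (X.L_symm h2)
    · exact Or.inl (X.L_symm h2)

/-- points of the plane carried by a row, in the relevant page -/
theorem pi_eq (x : X.V) :
    X.pi x = (-X.az x, X.P.γ (X.hw (X.cc ^ (-X.az x) • x))) := by
  unfold pi hw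
  rw [smul_val, cc_pow_val]

/-- thinness for plane vertices of the base plane -/
theorem thin_plane {x y : X.V} (z : X.V) {m : ℤ × ℤ} (hm : m ∈ GP (X.pi x) (X.pi y))
    (hrel : X.relL 1 x y) :
    ∃ u', X.d (X.vm 1 m) u' ≤ X.th + 2 * X.P.κ + 6 ∧ (u' ∈ X.L x z ∨ u' ∈ X.L z y) := by
  obtain ⟨v, m', p1, p2, hm'⟩ := GP_thin _ _ (X.pi z) _ hm
  have d1 := X.d_padj 1 p1
  have d2 := X.d_padj 1 p2
  have d3 := X.d_tri (X.vm 1 m) (X.vm 1 v) (X.vm 1 m')
  have dm : X.d (X.vm 1 m) (X.vm 1 m') ≤ 2 := by omega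
  by_cases hxz : X.relL 1 x z
  · by_cases hzy : X.relL 1 z y
    · refine ⟨X.vm 1 m', by omega, ?_⟩
      rcases hm' with h | h
      · exact Or.inl (Or.inr ⟨1, m', rfl, by simpa using h, hxz⟩)
      · exact Or.inr (Or.inr ⟨1, m', rfl, by simpa using h, hzy⟩)
    · rcases hm' with h | h
      · exact ⟨X.vm 1 m', by omega, Or.inl (Or.inr ⟨1, m', rfl, by simpa using h, hxz⟩)⟩
      · -- m' is pi z or pi y
        have hadj : PAdj (X.pi z) (X.pi y) := by
          unfold relL at hzy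
          push Not at hzy
          simp only [inv_one, one_smul] at hzy
          exact Or.inl hzy
        refine ⟨X.vm 1 (X.pi z), ?_, Or.inl (by simpa using X.pi_mem_right hxz)⟩
        rcases GP_adj hadj h with h | h
        · rw [← h]; omega
        · have := X.d_padj 1 hadj.symm
          rw [← h] at this
          have := X.d_tri (X.vm 1 m) (X.vm 1 m') (X.vm 1 (X.pi z))
          omega
  · by_cases hzy : X.relL 1 z y
    · rcases hm' with h | h
      · have hadj : PAdj (X.pi x) (X.pi z) := by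
          unfold relL at hxz
          push Not at hxz
          simp only [inv_one, one_smul] at hxz
          exact Or.inl hxz
        refine ⟨X.vm 1 (X.pi z), ?_, Or.inr (by simpa using X.pi_mem_left hzy)⟩
        rcases GP_adj hadj h with h | h
        · have := X.d_padj 1 hadj
          rw [← h] at this
          have := X.d_tri (X.vm 1 m) (X.vm 1 m') (X.vm 1 (X.pi z))
          omega
        · rw [← h]; omega
      · exact ⟨X.vm 1 m', by omega, Or.inr (Or.inr ⟨1, m', rfl, by simpa using h, hzy⟩)⟩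
    · -- both irrelevant
      unfold relL at hxz hzy hrel
      push Not at hxz hzy
      simp only [inv_one, one_smul] at hxz hzy hrel
      have hrow : (X.pi x).1 = (X.pi y).1 := hxz.1.trans hzy.1
      have h2 : ((X.pi x).2 - (X.pi y).2).natAbs = 2 := by
        have : ¬ ((X.pi x).2 - (X.pi y).2).natAbs ≤ 1 := fun h => hrel ⟨hrow, h⟩
        omega
      -- work in the page c ^ a
      set a := X.az x with ha
      have hay : X.az y = a := by
        have := hrow; simp only [pi] at this; omega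
      set g : X.G := X.cc ^ (-a) with hgdef
      have ex : X.az (g • x) = 0 := by rw [X.az_cc]; omega
      have ey : X.az (g • y) = 0 := by rw [X.az_cc]; omega
      have px : X.pi x = (-a, X.P.γ (X.hw (g • x))) := X.pi_eq x
      have py : X.pi y = (-a, X.P.γ (X.hw (g • y))) := by
        have := X.pi_eq y; rw [hay] at this; exact this
      rw [px, py] at h2
      simp only at h2
      have hfx : 2 ≤ (X.P.γ (X.hw (g • x)) - X.P.γ (X.hw (g • y))).natAbs := h2.ge
      -- both gates are between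
      have hf := X.P.far' _ _ hfx
      have bt : X.P.Btw (X.hw (g • x)) (X.hw (g • y)) (X.P.e (X.P.γ (X.hw (g • x)))) ∧
          X.P.Btw (X.hw (g • x)) (X.hw (g • y)) (X.P.e (X.P.γ (X.hw (g • y)))) := by
        set A := X.hw (g • x)
        set B := X.hw (g • y)
        have e1 := X.P.dw_e (X.P.γ A) (X.P.γ B)
        have t1 := X.P.dw_tri (X.P.e (X.P.γ A)) (X.P.e (X.P.γ B)) B
        have t2 := X.P.dw_tri A (X.P.e (X.P.γ A)) B
        have t3 := X.P.dw_tri A (X.P.e (X.P.γ A)) (X.P.e (X.P.γ B))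
        have t4 := X.P.dw_tri A (X.P.e (X.P.γ B)) B
        unfold Page.Btw
        omega
      have hrelP : X.relP 1 (g • x) (g • y) := by
        refine Or.inl ?_
        simp only [inv_one, one_smul]
        intro h
        rw [h] at hfx
        simp at hfx
      have gd : ∀ b, (b = X.P.γ (X.hw (g • x)) ∨ b = X.P.γ (X.hw (g • y))) →
          X.good (g • x) (g • y) (X.vp 1 (X.P.e b)) := by
        intro b hb p n hpn
        obtain ⟨rfl, rfl⟩ := X.line_unique hpn
        simp only [inv_one, one_smul]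
        rcases hb with hb | hb
        · left
          rw [X.pi_of_az ex, X.vm_zero, hb, X.d_self]; exact Nat.zero_le _
        · right
          rw [X.pi_of_az ey, X.vm_zero, hb, X.d_self]; exact Nat.zero_le _
      -- a vertex near m
      have hnear : ∃ b, (b = X.P.γ (X.hw (g • x)) ∨ b = X.P.γ (X.hw (g • y))) ∧
          X.d (X.vm 1 m) (X.vm 1 (-a, b)) ≤ 1 := by
        rcases GP_row hrow (by rw [px, py]; exact h2.le) hm with h | h
        · exact ⟨_, Or.inl rfl, by rw [← px]; exact X.d_padj 1 h⟩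
        · exact ⟨_, Or.inr rfl, by rw [← py]; exact X.d_padj 1 h⟩
      obtain ⟨b, hb, hbd⟩ := hnear
      have hbtw : X.P.Btw (X.hw (g • x)) (X.hw (g • y)) (X.P.e b) := by
        rcases hb with rfl | rfl
        · exact bt.1
        · exact bt.2
      obtain ⟨u', hu1, hu2⟩ := X.thin_page (g • z) hbtw hrelP (gd b hb)
      have hgv : g • X.vm 1 (-a, b) = X.vp 1 (X.P.e b) := by
        rw [smul_vm, mul_one, ← X.vm_zero 1 b, ← one_mul g, hgdef, X.vm_cc]
        simp [psh]
      refine ⟨g⁻¹ • u', ?_, ?_⟩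
      · have t := X.d_tri (X.vm 1 m) (X.vm 1 (-a, b)) (g⁻¹ • u')
        rw [← X.d_smul g (X.vm 1 (-a, b)), smul_inv_smul, hgv] at t
        omega
      · rcases hu2 with h | h
        · left
          have := X.L_smul g⁻¹ h
          rwa [inv_smul_smul, inv_smul_smul] at this
        · right
          have := X.L_smul g⁻¹ h
          rwa [inv_smul_smul, inv_smul_smul] at this

/-- **thin triangles** -/
theorem L_thin (x y z : X.V) {u : X.V} (hu : u ∈ X.L x y) :
    ∃ u', X.d u u' ≤ X.th + 2 * X.P.κ + 6 ∧ (u' ∈ X.L x z ∨ u' ∈ X.L z y) := by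
  have back : ∀ (p : X.G) (v u' : X.V), X.d (p⁻¹ • v) u' ≤ X.th + 2 * X.P.κ + 6 →
      (u' ∈ X.L (p⁻¹ • x) (p⁻¹ • z) ∨ u' ∈ X.L (p⁻¹ • z) (p⁻¹ • y)) →
      ∃ u', X.d v u' ≤ X.th + 2 * X.P.κ + 6 ∧ (u' ∈ X.L x z ∨ u' ∈ X.L z y) := by
    intro p v u' h1 h2
    refine ⟨p • u', ?_, ?_⟩
    · rw [← X.d_smul p, smul_inv_smul] at h1; exact h1
    · rcases h2 with h | h
      · left
        have := X.L_smul p h
        rwa [smul_inv_smul, smul_inv_smul] at this
      · right
        have := X.L_smul p h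
        rwa [smul_inv_smul, smul_inv_smul] at this
  rcases hu with ⟨p, w, rfl, h2, h3, h4⟩ | ⟨p, m, rfl, h2, h3⟩
  · have hv : p⁻¹ • X.vp p w = X.vp 1 w := by rw [smul_vp, inv_mul_cancel]
    obtain ⟨u', hu1, hu2⟩ := X.thin_page (x := p⁻¹ • x) (y := p⁻¹ • y) (p⁻¹ • z) h2
      (by have := X.relP_smul (p := p) (g := p⁻¹) (x := x) (y := y)
          rw [inv_mul_cancel] at this; exact this.mpr h3)
      (by rw [← hv]; exact h4.smul X p⁻¹)
    exact back p _ u' (by rw [hv]; omega) hu2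
  · have hv : p⁻¹ • X.vm p m = X.vm 1 m := by rw [smul_vm, inv_mul_cancel]
    obtain ⟨u', hu1, hu2⟩ := X.thin_plane (x := p⁻¹ • x) (y := p⁻¹ • y) (p⁻¹ • z) h2
      (by have := X.relL_smul (p := p) (g := p⁻¹) (x := x) (y := y)
          rw [inv_mul_cancel] at this; exact this.mpr h3)
    exact back p _ u' (by rw [hv]; exact hu1) hu2

end Ctx

end Pool.Agent.helper99.LC
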