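import Mathlib
import Pool.Agent.helper99.LC.Paths

/-!
# Coarse connectivity of the guessed geodesics
-/

set_option autoImplicit false

namespace Pool.Agent.helper99.LC

namespace Ctx

variable {W S Γ : Type} [Group W] [Group Γ] (X : Ctx W S Γ)

/-- the constant -/
def D : ℕ := X.th + 2 * X.P.κ + 6

theorem vm_pi_vm (p : X.G) (m : ℤ × ℤ) : X.vm p (X.pi (p⁻¹ • X.vm p m)) = X.vm p m := by
  rw [smul_vm, inv_mul_cancel, X.pi_vm]

theorem vm_pi_of_eq {p : X.G} {m : ℤ × ℤ} {x : X.V} (h : x = X.vm p m) :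
    X.vm p (X.pi (p⁻¹ • x)) = x := by
  rw [h, X.vm_pi_vm]

theorem good_left (x y : X.V) : X.good x y x := by
  intro p n h
  left
  rw [X.vm_pi_of_eq (p := p) (m := (0, n)) (by rw [X.vm_zero]; exact h), X.d_self]
  exact Nat.zero_le _

theorem mem_left (x y : X.V) : x ∈ X.L x y := by
  obtain ⟨p, w, hx⟩ := X.exists_vp x
  have h1 : p⁻¹ • x = X.vp 1 w := by rw [hx, smul_vp, inv_mul_cancel]
  refine Or.inl ⟨p, w, hx, ?_, ?_, X.good_left x y⟩
  · rw [h1, X.hw_vp]; exact X.P.btw_left _ _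
  · exact Or.inr (Or.inl (by rw [h1]; exact X.inW_vp w))

theorem mem_right (x y : X.V) : y ∈ X.L x y := X.L_symm (X.mem_left y x)

/-! ### small paths -/

theorem inW_gen {x y : X.V} {w : W} (h : y.1 = x.1 * X.F.ι w) : X.inW x ↔ X.inW y := by
  constructor
  · rintro ⟨w', hw'⟩
    exact ⟨w' * w, by rw [h, hw', map_mul]⟩
  · rintro ⟨w', hw'⟩
    refine ⟨w' * w⁻¹, ?_⟩
    rw [map_mul, map_inv, ← hw', h, mul_inv_cancel_right]

theorem hw_gen {x y : X.V} {w : W} (h : y.1 = x.1 * X.F.ι w) (hx : ¬ X.inW x) :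
    X.hw y = X.hw x := by
  unfold hw
  rw [h]
  exact (X.F.right_ι w x.1).2 hx

theorem az_gen {x y : X.V} {w : W} (h : y.1 = x.1 * X.F.ι w) : X.az y = X.az x := by
  unfold az
  rw [h]
  exact (X.F.right_ι w x.1).1

theorem hw_gen_inW {x y : X.V} {w : W} (h : y.1 = x.1 * X.F.ι w) (hx : X.inW x) :
    X.hw y = X.hw x * w := by
  obtain ⟨w', hw'⟩ := hx
  unfold hw
  rw [h, hw', ← map_mul, X.F.hW_ι, X.F.hW_ι]

/-- page steps do not separate planes -/
theorem pi_gen {x y : X.V} {s : S} (h : y.1 = x.1 * X.F.ι (X.P.gen s)) :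
    (X.pi x).1 = (X.pi y).1 ∧ ((X.pi x).2 - (X.pi y).2).natAbs ≤ 1 := by
  have e := X.az_gen h
  rw [X.pi_eq x, X.pi_eq y, e]
  refine ⟨rfl, ?_⟩
  simp only
  have h' : (X.cc ^ (-X.az x) • y).1 = (X.cc ^ (-X.az x) • x).1 * X.F.ι (X.P.gen s) := by
    rw [smul_val, smul_val, h, mul_assoc]
  by_cases hx : X.inW (X.cc ^ (-X.az x) • x)
  · rw [X.hw_gen_inW h' hx]
    refine (X.P.γ_lip _ _).trans ?_
    rw [X.P.dw_gen]
  · rw [X.hw_gen h' hx]; simp

theorem smul_gen {x y : X.V} {w : W} (g : X.G) (h : y.1 = x.1 * X.F.ι w) :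
    (g • y).1 = (g • x).1 * X.F.ι w := by
  rw [smul_val, smul_val, h, mul_assoc]

theorem small_gen {x y u : X.V} {s : S} (h : y.1 = x.1 * X.F.ι (X.P.gen s))
    (hu : u ∈ X.L x y) : u = x ∨ u = y := by
  rcases hu with ⟨p, w, rfl, h2, h3, h4⟩ | ⟨p, m, rfl, h2, h3⟩
  · have hp := X.smul_gen p⁻¹ h
    have hin : X.inW (p⁻¹ • x) := by
      rcases h3 with h3 | h3 | h3
      · by_contra hne
        exact h3 (X.hw_gen hp hne).symm
      · exact h3
      · exact (X.inW_gen hp).mpr h3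
    have hin' := (X.inW_gen hp).mp hin
    have e1 := X.inW_iff.mp hin
    have e2 := X.inW_iff.mp hin'
    have e3 : x = X.vp p (X.hw (p⁻¹ • x)) := by
      rw [← mul_one p, ← X.smul_vp, mul_one, ← e1, smul_inv_smul]
    have e4 : y = X.vp p (X.hw (p⁻¹ • y)) := by
      rw [← mul_one p, ← X.smul_vp, mul_one, ← e2, smul_inv_smul]
    have hb := h2
    unfold Page.Btw at hb
    rw [X.hw_gen_inW hp hin, X.P.dw_gen] at hb
    rcases Nat.eq_zero_or_pos (X.P.dw (X.hw (p⁻¹ • x)) w) with h0 | h0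
    · left
      rw [← X.P.eq_of_dw h0, ← e3]
    · right
      have h5 : X.P.dw w (X.hw (p⁻¹ • x) * X.P.gen s) = 0 := by omega
      rw [X.P.eq_of_dw h5, ← X.hw_gen_inW hp hin, ← e4]
  · exact absurd (X.pi_gen (X.smul_gen p⁻¹ h)) h3

/-- vertical step, page part -/
theorem small_vert_page {x y : X.V} {m m' : ℤ × ℤ} {g : X.G} (hx : x = X.vm g m)
    (hy : y = X.vm g m') (hm : m.1 = 0) (hm' : m'.1 = 1) {w : W}
    (hw : X.P.Btw (X.hw x) (X.hw y) w) (hrel : X.relP 1 x y) :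
    ∃ m'', X.vp 1 w = X.vm g m'' ∧ (m''.1 = 0 ∨ m''.1 = 1) := by
  obtain ⟨m1, n⟩ := m
  obtain ⟨m1', n'⟩ := m'
  simp only at hm hm'
  subst hm hm'
  have hx1 : x.1 = g.1 * X.F.ι (X.P.e n) := by rw [hx]; simp
  have hy1 : y.1 = g.1 * X.F.c⁻¹ * X.F.ι (X.P.e n') := by
    rw [hy, vm_val]; simp
  have hhead : X.F.hW (g.1 * X.F.c⁻¹) = X.F.hW g.1 := by
    have := (X.F.right_c (-1) g.1).1
    rwa [zpow_neg_one] at this
  by_cases h1 : ∃ w0, g.1 = X.F.ι w0
  · obtain ⟨w0, hw0⟩ := h1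
    have hnot : ¬ ∃ w', g.1 * X.F.c⁻¹ = X.F.ι w' := by
      rintro ⟨w', hw'⟩
      have : X.F.c ^ (1 : ℤ) = X.F.ι (w'⁻¹ * w0) := by
        rw [zpow_one, map_mul, map_inv, ← hw', ← hw0]; simp
      have h5 := X.F.a0_c 1
      rw [this, X.F.a0_ι] at h5
      omega
    have e1 : X.hw x = w0 * X.P.e n := by
      unfold Ctx.hw; rw [hx1, hw0, ← map_mul, X.F.hW_ι]
    have e2 : X.hw y = w0 := by
      unfold Ctx.hw; rw [hy1, (X.F.right_ι _ _).2 hnot, hhead, hw0, X.F.hW_ι]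
    rw [e1, e2] at hw
    have hb := (hw.symm.left X.P w0⁻¹)
    rw [inv_mul_cancel, inv_mul_cancel_left] at hb
    obtain ⟨k, hk⟩ := X.P.conv n (w0⁻¹ * w) (by
      unfold Page.Btw Page.dw at hb
      simpa using hb)
    refine ⟨(0, k), ?_, Or.inl rfl⟩
    refine Subtype.ext ?_
    rw [vp_val, vm_val, ← hk, hw0]
    simp
  · by_cases h2 : ∃ w0, g.1 * X.F.c⁻¹ = X.F.ι w0
    · obtain ⟨w0, hw0⟩ := h2
      have e1 : X.hw y = w0 * X.P.e n' := by
        unfold Ctx.hw; rw [hy1, hw0, ← map_mul, X.F.hW_ι]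
      have e2 : X.hw x = w0 := by
        unfold Ctx.hw; rw [hx1, (X.F.right_ι _ _).2 h1, ← hhead, hw0, X.F.hW_ι]
      rw [e1, e2] at hw
      have hb := (hw.left X.P w0⁻¹)
      rw [inv_mul_cancel, inv_mul_cancel_left] at hb
      obtain ⟨k, hk⟩ := X.P.conv n' (w0⁻¹ * w) (by
        unfold Page.Btw Page.dw at hb
        simpa using hb)
      refine ⟨(1, k), ?_, Or.inr rfl⟩
      refine Subtype.ext ?_
      rw [vp_val, vm_val, ← hk]
      simp [hw0]
    · exfalso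
      have e1 : X.hw x = X.F.hW g.1 := by
        unfold Ctx.hw; rw [hx1, (X.F.right_ι _ _).2 h1]
      have e2 : X.hw y = X.F.hW g.1 := by
        unfold Ctx.hw; rw [hy1, (X.F.right_ι _ _).2 h2, hhead]
      have n1 : ¬ X.inW x := by
        rintro ⟨w', hw'⟩
        apply h1
        refine ⟨w' * (X.P.e n)⁻¹, ?_⟩
        rw [map_mul, map_inv, ← hw', hx1]; simp
      have n2 : ¬ X.inW y := by
        rintro ⟨w', hw'⟩
        apply h2
        refine ⟨w' * (X.P.e n')⁻¹, ?_⟩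
        rw [map_mul, map_inv, ← hw', hy1]; simp
      unfold relP at hrel
      simp only [inv_one, one_smul] at hrel
      rcases hrel with h | h | h
      · rw [e1, e2] at h; exact h rfl
      · exact n1 h
      · exact n2 h

theorem e_mem_range {w0 : W} (hw0 : w0 ∈ X.Q) {k : ℤ} (h : w0 = X.P.e k) : w0 = 1 := by
  have := X.hQ k (by rw [← h]; exact hw0)
  rw [h, this, X.P.e_zero]

/-- vertical steps, planes off the step -/
theorem small_vert_plane {x y : X.V} {n n' : ℤ} {g : X.G} (hx : x = X.vm g (0, n))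
    (hy : y = X.vm g (1, n')) (hg : ¬ ∃ a : ℤ, g.1 = X.F.c ^ a) : ¬ X.relL 1 x y := by
  unfold relL
  push Not
  simp only [inv_one, one_smul]
  have hx1 : x.1 = g.1 * X.F.ι (X.P.e n) := by rw [hx]; simp
  have hy1 : y.1 = g.1 * X.F.c⁻¹ * X.F.ι (X.P.e n') := by
    rw [hy, vm_val]; simp
  have ax : X.az x = X.F.a0 g.1 := by
    unfold az; rw [hx1, (X.F.right_ι _ _).1]
  have ay : X.az y = X.F.a0 g.1 := by
    unfold az; rw [hy1, (X.F.right_ι _ _).1]
    have := (X.F.right_c (-1) g.1).2 hg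
    rwa [zpow_neg_one] at this
  rw [X.pi_eq x, X.pi_eq y, ax, ay]
  refine ⟨rfl, ?_⟩
  simp only
  set a := X.F.a0 g.1 with ha
  set g' : Γ := X.F.c ^ (-a) * g.1 with hg'
  have hg'P : g' ∈ X.F.P X.Q := (X.F.P X.Q).mul_mem (X.F.cpow_mem_P X.Q _) g.2
  have hg'0 : X.F.a0 g' = 0 := X.F.a0_head g.1
  have hg'c : ¬ ∃ b : ℤ, g' = X.F.c ^ b := by
    rintro ⟨b, hb⟩
    apply hg
    refine ⟨a + b, ?_⟩
    rw [zpow_add, ← hb, hg', ← mul_assoc, ← zpow_add]; simp
  have e1 : (X.cc ^ (-a) • x).1 = g' * X.F.ι (X.P.e n) := by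
    rw [smul_val, cc_pow_val, hx1, ← mul_assoc]
  have e2 : (X.cc ^ (-a) • y).1 = g' * X.F.c⁻¹ * X.F.ι (X.P.e n') := by
    rw [smul_val, cc_pow_val, hy1, ← mul_assoc, ← mul_assoc]
  have hhead : X.F.hW (g' * X.F.c⁻¹) = X.F.hW g' := by
    have := (X.F.right_c (-1) g').1
    rwa [zpow_neg_one] at this
  have hne1 : X.F.hW g' ≠ 1 := by
    intro h
    exact hg'c ⟨0, by rw [zpow_zero]; exact X.F.eq_one h hg'0⟩
  have hmem : X.F.hW g' ∈ X.Q := X.F.hW_mem_of_mem_P hg'P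
  unfold hw
  rw [e1, e2]
  by_cases h1 : ∃ w0, g' = X.F.ι w0
  · obtain ⟨w0, hw0⟩ := h1
    have hnot : ¬ ∃ w', g' * X.F.c⁻¹ = X.F.ι w' := by
      rintro ⟨w', hw'⟩
      have : X.F.c ^ (1 : ℤ) = X.F.ι (w'⁻¹ * w0) := by
        rw [zpow_one, map_mul, map_inv, ← hw', ← hw0]; simp
      have h5 := X.F.a0_c 1
      rw [this, X.F.a0_ι] at h5
      omega
    rw [(X.F.right_ι _ _).2 hnot, hhead]
    rw [hw0, X.F.hW_ι] at hmem hne1
    rw [hw0, ← map_mul, X.F.hW_ι, X.F.hW_ι]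
    exact X.P.γ_line (fun k hk => hne1 (X.e_mem_range hmem hk)) n
  · by_cases h2 : ∃ w0, g' * X.F.c⁻¹ = X.F.ι w0
    · obtain ⟨w0, hw0⟩ := h2
      rw [(X.F.right_ι _ _).2 h1]
      rw [hw0, X.F.hW_ι] at hhead
      rw [← hhead] at hmem hne1 ⊢
      rw [hw0, ← map_mul, X.F.hW_ι]
      have := X.P.γ_line (fun k hk => hne1 (X.e_mem_range hmem hk)) n'
      omega
    · rw [(X.F.right_ι _ _).2 h1, (X.F.right_ι _ _).2 h2, hhead]; simp

theorem small_vert {x y u : X.V} {p0 : X.G} {n : ℤ} (hx : x = X.vm p0 (0, n))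
    (hy : y = X.vm p0 (1, n / 2)) (hu : u ∈ X.L x y) : X.d x u ≤ X.th + 1 := by
  have hxy : X.d x y ≤ 1 := by
    rw [hx, hy]
    exact X.d_padj p0 (Or.inr (Or.inl ⟨by simp, rfl⟩))
  rcases hu with ⟨p, w, rfl, h2, h3, h4⟩ | ⟨p, m, rfl, h2, h3⟩
  · have hx' : p⁻¹ • x = X.vm (p⁻¹ * p0) (0, n) := by rw [hx, smul_vm]
    have hy' : p⁻¹ • y = X.vm (p⁻¹ * p0) (1, n / 2) := by rw [hy, smul_vm]
    have hrel : X.relP 1 (p⁻¹ • x) (p⁻¹ • y) := by
      have := X.relP_smul (p := p) (g := p⁻¹) (x := x) (y := y)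
      rw [inv_mul_cancel] at this; exact this.mpr h3
    obtain ⟨m'', hm, -⟩ := X.small_vert_page hx' hy' rfl rfl h2 hrel
    have hu : X.vp p w = X.vm p0 m'' := by
      have := congrArg (fun v => p • v) hm
      simpa using this
    have hline : X.vp p w = X.vp (p0 * X.cc ^ (-m''.1)) (X.P.e m''.2) := hu
    have hxq : X.vm (p0 * X.cc ^ (-m''.1)) (X.pi ((p0 * X.cc ^ (-m''.1))⁻¹ • x)) = x :=
      X.vm_pi_of_eq (m := psh (-m''.1) (0, n)) (by
        rw [hx, X.vm_cc]; unfold psh; congr 2; simp)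
    have hyq : X.vm (p0 * X.cc ^ (-m''.1)) (X.pi ((p0 * X.cc ^ (-m''.1))⁻¹ • y)) = y :=
      X.vm_pi_of_eq (m := psh (-m''.1) (1, n / 2)) (by
        rw [hy, X.vm_cc]; unfold psh; congr 2; simp)
    rcases h4 _ _ hline with h | h
    · rw [hxq, X.d_comm] at h; omega
    · rw [hyq, X.d_comm] at h
      have := X.d_tri x y (X.vp p w)
      omega
  · have hx' : p⁻¹ • x = X.vm (p⁻¹ * p0) (0, n) := by rw [hx, smul_vm]
    have hy' : p⁻¹ • y = X.vm (p⁻¹ * p0) (1, n / 2) := by rw [hy, smul_vm]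
    by_cases hg : ∃ a : ℤ, (p⁻¹ * p0).1 = X.F.c ^ a
    · obtain ⟨a, ha⟩ := hg
      have hp : p⁻¹ * p0 = X.cc ^ a := Subtype.ext (by rw [ha, cc_pow_val])
      have ex : p⁻¹ • x = X.vm 1 (psh (-a) (0, n)) := by
        rw [hx', hp, ← one_mul (X.cc ^ a), X.vm_cc]
      have ey : p⁻¹ • y = X.vm 1 (psh (-a) (1, n / 2)) := by
        rw [hy', hp, ← one_mul (X.cc ^ a), X.vm_cc]
      have px : X.vm p (X.pi (p⁻¹ • x)) = x := by
        refine X.vm_pi_of_eq (m := psh (-a) (0, n)) ?_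
        exact (inv_smul_eq_iff.mp ex).trans (by rw [smul_vm, mul_one])
      have py : X.vm p (X.pi (p⁻¹ • y)) = y := by
        refine X.vm_pi_of_eq (m := psh (-a) (1, n / 2)) ?_
        exact (inv_smul_eq_iff.mp ey).trans (by rw [smul_vm, mul_one])
      have hadj : PAdj (X.pi (p⁻¹ • x)) (X.pi (p⁻¹ • y)) := by
        rw [ex, ey, X.pi_vm, X.pi_vm]
        exact Or.inr (Or.inl ⟨by simp only [psh]; ring, rfl⟩)
      rcases GP_adj hadj h2 with h | h
      · rw [h, px, X.d_self]; omega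
      · rw [h, py]; omega
    · exfalso
      have hrel : X.relL 1 (p⁻¹ • x) (p⁻¹ • y) := by
        have := X.relL_smul (p := p) (g := p⁻¹) (x := x) (y := y)
        rw [inv_mul_cancel] at this; exact this.mpr h3
      exact X.small_vert_plane hx' hy' hg hrel

theorem small_self {x u : X.V} (hu : u ∈ X.L x x) : u = x := by
  rcases hu with ⟨p, w, rfl, h2, h3, h4⟩ | ⟨p, m, rfl, h2, h3⟩
  · have hin : X.inW (p⁻¹ • x) := by
      rcases h3 with h | h | h
      · exact absurd rfl h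
      · exact h
      · exact h
    have e1 := X.inW_iff.mp hin
    rw [X.P.btw_self h2]
    rw [← mul_one p, ← X.smul_vp, mul_one, ← e1, smul_inv_smul]
  · exact absurd ⟨rfl, by simp⟩ h3

theorem small_step {x y u : X.V} (h : X.Step x y) (hu : u ∈ X.L x y) : X.d x u ≤ X.th + 1 := by
  have h1 := X.d_step h
  rcases h with ⟨s, hs⟩ | ⟨p, n, hx, hy⟩
  · rcases X.small_gen hs hu with rfl | rfl
    · rw [X.d_self]; omega
    · omega
  · refine X.small_vert (p0 := p) (n := n) (by rw [hx, X.vm_zero]) ?_ hu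
    rw [hy]
    refine Subtype.ext ?_
    simp

/-- short guessed geodesics are small -/
theorem small {x y : X.V} (h : X.d x y ≤ 1) {u : X.V} (hu : u ∈ X.L x y) : X.d x u ≤ X.D := by
  have hD : X.D = X.th + 2 * X.P.κ + 6 := rfl
  rcases Nat.eq_zero_or_pos (X.d x y) with h0 | h0
  · have := X.d_eq_zero h0
    subst this
    rw [X.small_self hu, X.d_self]; omega
  · have h1 : X.graph.dist x y = 1 := le_antisymm h h0
    have h2 := X.graph_adj.mp (SimpleGraph.dist_eq_one_iff_adj.mp h1)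
    rcases h2.2 with h3 | h3
    · have := X.small_step h3 hu; omega
    · have := X.small_step h3 (X.L_symm hu)
      have := X.d_tri x y u
      omega

end Ctx

end Pool.Agent.helper99.LC
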