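import Mathlib
import Pool.Agent.helper99.LC.Chain

/-!
# The guessed geodesics are coarsely connected; hyperbolicity
-/

set_option autoImplicit false

namespace Pool.Agent.helper99.LC

namespace Ctx

variable {W S Γ : Type} [Group W] [Group Γ] (X : Ctx W S Γ)

/-- coarse connectivity inside the guessed geodesic -/
def Conn (x y : X.V) : X.V → X.V → Prop :=
  Relation.ReflTransGen (fun a b => a ∈ X.L x y ∧ b ∈ X.L x y ∧ X.d a b ≤ X.D)

theorem Conn.symm {x y a b : X.V} (h : X.Conn x y a b) : X.Conn x y b a := by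
  induction h with
  | refl => exact Relation.ReflTransGen.refl
  | tail h1 h2 ih => exact Relation.ReflTransGen.head ⟨h2.2.1, h2.1, by
      rw [X.d_comm]; exact h2.2.2⟩ ih

theorem Conn.trans {x y a b c : X.V} (h : X.Conn x y a b) (h' : X.Conn x y b c) :
    X.Conn x y a c := Relation.ReflTransGen.trans h h'

theorem Conn.single {x y a b : X.V} (h1 : a ∈ X.L x y) (h2 : b ∈ X.L x y) (h3 : X.d a b ≤ X.D) :
    X.Conn x y a b := Relation.ReflTransGen.single ⟨h1, h2, h3⟩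

theorem Conn.refl' {x y a b : X.V} (h : a = b) : X.Conn x y a b := by
  rw [h]; exact Relation.ReflTransGen.refl

theorem Conn.smul {x y a b : X.V} (g : X.G) (h : X.Conn x y a b) :
    X.Conn (g • x) (g • y) (g • a) (g • b) := by
  induction h with
  | refl => exact Relation.ReflTransGen.refl
  | tail _ h ih => exact ih.tail ⟨X.L_smul g h.1, X.L_smul g h.2.1, by
      rw [X.d_smul]; exact h.2.2⟩

theorem Conn.swap {x y a b : X.V} (h : X.Conn x y a b) : X.Conn y x a b := by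
  induction h with
  | refl => exact Relation.ReflTransGen.refl
  | tail _ h ih => exact ih.tail ⟨X.L_symm h.1, X.L_symm h.2.1, h.2.2⟩

theorem Conn.chain {x y a b : X.V} (h : X.Conn x y a b) :
    Relation.ReflTransGen (fun a b => b ∈ X.L x y ∧ X.d a b ≤ X.D) a b := by
  induction h with
  | refl => exact Relation.ReflTransGen.refl
  | tail _ h ih => exact ih.tail ⟨h.2.1, h.2.2⟩

theorem Conn.unsmul {x y a b : X.V} (g : X.G)
    (h : X.Conn (g • x) (g • y) (g • a) (g • b)) : X.Conn x y a b := by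
  have := h.smul X g⁻¹
  simpa only [inv_smul_smul] using this

/-- planes are connected -/
theorem plane_conn {p : X.G} {x y : X.V} (h : X.relL p x y) :
    X.Conn x y (X.vm p (X.pi (p⁻¹ • x))) (X.vm p (X.pi (p⁻¹ • y))) := by
  have key : ∀ m, Relation.ReflTransGen
      (fun a b => b ∈ GP (X.pi (p⁻¹ • x)) (X.pi (p⁻¹ • y)) ∧ PAdj a b) (X.pi (p⁻¹ • x)) m →
      X.Conn x y (X.vm p (X.pi (p⁻¹ • x))) (X.vm p m) ∧ X.vm p m ∈ X.L x y := by
    intro m hm
    induction hm with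
    | refl => exact ⟨Relation.ReflTransGen.refl, X.pi_mem_left h⟩
    | tail _ h2 ih =>
      have hm : X.vm p _ ∈ X.L x y := Or.inr ⟨p, _, rfl, h2.1, h⟩
      refine ⟨ih.1.trans X (Conn.single X ih.2 hm ((X.d_padj p h2.2).trans ?_)), hm⟩
      unfold D; omega
  exact (key _ (GP_chain _ _)).1

/-- bad position on a line -/
def BadAt (x y : X.V) (p : X.G) (n : ℤ) (u : X.V) : Prop :=
  u = X.vp p (X.P.e n) ∧ X.th < X.d u (X.vm p (X.pi (p⁻¹ • x))) ∧
    X.th < X.d u (X.vm p (X.pi (p⁻¹ • y)))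

theorem good_or_bad (x y u : X.V) : X.good x y u ∨ ∃ p n, X.BadAt x y p n u := by
  by_cases h : X.good x y u
  · exact Or.inl h
  · right
    unfold good at h
    push Not at h
    obtain ⟨p, n, h1, h2, h3⟩ := h
    exact ⟨p, n, h1, h2, h3⟩

theorem not_good_of_bad {x y u : X.V} {p : X.G} {n : ℤ} (h : X.BadAt x y p n u) :
    ¬ X.good x y u := by
  intro hg
  rcases hg p n h.1 with h' | h'
  · have := h.2.1; omega
  · have := h.2.2; omega

theorem BadAt.swap {x y u : X.V} {p : X.G} {n : ℤ} (h : X.BadAt x y p n u) :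
    X.BadAt y x p n u := ⟨h.1, h.2.2, h.2.1⟩

theorem BadAt.smul {x y u : X.V} {p : X.G} {n : ℤ} (g : X.G) (h : X.BadAt x y p n u) :
    X.BadAt (g • x) (g • y) (g * p) n (g • u) := by
  refine ⟨by rw [h.1, smul_vp], ?_, ?_⟩
  · rw [X.inv_smul_aux, ← X.smul_vm, X.d_smul]; exact h.2.1
  · rw [X.inv_smul_aux, ← X.smul_vm, X.d_smul]; exact h.2.2

/-- neighbours of bad vertices of the base line are on the base line -/
theorem bad_nbr_one {x y : X.V} {w : W} {n : ℤ} (hw : X.P.Btw (X.hw x) (X.hw y) w)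
    (h1 : X.P.dw w (X.P.e n) ≤ 1) (hb : X.BadAt x y 1 n (X.vp 1 (X.P.e n))) :
    ∃ k, w = X.P.e k := by
  by_contra hnD
  push Not at hnD
  obtain ⟨-, b1, b2⟩ := hb
  rw [inv_one, one_smul] at b1 b2
  have hlip := X.P.γ_lip w (X.P.e n)
  rw [X.P.γ_e] at hlip
  have hth : X.th = X.P.κ + 3 := rfl
  have key : X.az y = 0 ∧ (X.P.γ w - X.P.γ (X.hw y)).natAbs ≤ 1 := by
    by_cases hax : X.az x = 0
    · rw [X.pi_of_az hax, X.vm_zero] at b1
      have hl := X.d_line 1 n (X.P.γ (X.hw x))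
      have hfar : 2 ≤ (X.P.γ (X.hw x) - X.P.γ w).natAbs := by omega
      by_cases hay : X.az y = 0
      · refine ⟨hay, ?_⟩
        by_contra hc
        exact hnD _ (X.P.mem_line hw hfar (by omega))
      · exfalso
        rw [X.hw_of_az hay, ← X.P.e_zero] at hw
        exact hnD _ (X.P.mem_line' hw hfar)
    · rw [X.hw_of_az hax, ← X.P.e_zero] at hw
      by_cases hay : X.az y = 0
      · refine ⟨hay, ?_⟩
        by_contra hc
        exact hnD _ (X.P.mem_line' hw.symm (by omega))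
      · exfalso
        rw [X.hw_of_az hay, X.P.e_zero] at hw
        exact hnD 0 (by rw [X.P.btw_self hw, X.P.e_zero])
  rw [X.pi_of_az key.1, X.vm_zero] at b2
  have hl := X.d_line 1 n (X.P.γ (X.hw y))
  omega

theorem vp_one_inj {w w' : W} (h : X.vp 1 w = X.vp 1 w') : w = w' := by
  rw [← X.hw_vp w, h, X.hw_vp]

/-- translation of a bad vertex of the base page to the base line -/
theorem bad_translate {x y : X.V} {w : W} {p : X.G} {n : ℤ}
    (hb : X.BadAt x y p n (X.vp 1 w)) : ∃ q : X.Q, p = X.qq q ∧ w = q.1 * X.P.e n ∧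
      X.BadAt (p⁻¹ • x) (p⁻¹ • y) 1 n (X.vp 1 (X.P.e n)) ∧
      (∀ v, p⁻¹ • X.vp 1 v = X.vp 1 (q.1⁻¹ * v)) ∧
      X.hw (p⁻¹ • x) = q.1⁻¹ * X.hw x ∧ X.hw (p⁻¹ • y) = q.1⁻¹ * X.hw y := by
  obtain ⟨q, rfl, hq⟩ := X.vp_eq_vp_one hb.1
  have hge : ∀ v : W, (X.qq q)⁻¹ • X.vp 1 v = X.vp 1 (q.1⁻¹ * v) := by
    intro v
    rw [X.qq_inv, X.smul_vp, mul_one]
    exact Subtype.ext (by simp)
  refine ⟨q, rfl, hq, ?_, hge, X.hw_qq_inv q x, X.hw_qq_inv q y⟩
  have := hb.smul X (X.qq q)⁻¹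
  rw [inv_mul_cancel, hge, hq, inv_mul_cancel_left] at this
  exact this

theorem bad_nbr {x y : X.V} {w w' : W} {p : X.G} {n : ℤ}
    (hw : X.P.Btw (X.hw x) (X.hw y) w)
    (h1 : X.P.dw w w' ≤ 1) (hb : X.BadAt x y p n (X.vp 1 w')) :
    ∃ k, X.vp 1 w = X.vp p (X.P.e k) := by
  obtain ⟨q, hp, hq, hb', hv, ex, ey⟩ := X.bad_translate hb
  obtain ⟨k, hk⟩ := X.bad_nbr_one (x := p⁻¹ • x) (y := p⁻¹ • y) (w := q.1⁻¹ * w) (n := n)
    (by rw [ex, ey]; exact hw.left X.P _)
    (by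
      have : X.P.e n = q.1⁻¹ * w' := by rw [hq, inv_mul_cancel_left]
      rw [this, X.P.dw_left]; exact h1) hb'
  refine ⟨k, ?_⟩
  have := hv w
  rw [hk] at this
  rw [inv_smul_eq_iff.mp this, smul_vp, mul_one]

theorem relP_one_qq {x y : X.V} (h : X.relP 1 x y) (q : X.Q) :
    X.relP 1 ((X.qq q)⁻¹ • x) ((X.qq q)⁻¹ • y) := by
  unfold relP at *
  simp only [inv_one, one_smul] at *
  rw [X.hw_qq_inv, X.hw_qq_inv, X.inW_qq_inv, X.inW_qq_inv]
  exact h.imp (fun h h' => h (mul_left_cancel h')) id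

theorem relL_one {p : X.G} {x y : X.V} (h : X.relL 1 (p⁻¹ • x) (p⁻¹ • y)) : X.relL p x y := by
  have := X.relL_smul (p := p) (g := p⁻¹) (x := x) (y := y)
  rw [inv_mul_cancel] at this
  exact this.mp h

/-- bad vertices make their planes relevant -/
theorem relL_of_bad' {x y : X.V} {w : W} {p : X.G} {n : ℤ} (hrel : X.relP 1 x y)
    (hw : X.P.Btw (X.hw x) (X.hw y) w) (hb : X.BadAt x y p n (X.vp 1 w)) : X.relL p x y := by
  obtain ⟨q, hp, hq, hb', hv, ex, ey⟩ := X.bad_translate hb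
  subst hp
  refine X.relL_one (X.relL_of_bad (n := n) (X.relP_one_qq hrel q) ?_ ?_)
  · have : X.P.e n = q.1⁻¹ * w := by rw [hq, inv_mul_cancel_left]
    rw [ex, ey, this]; exact hw.left X.P _
  · have := hb'.2.1
    rw [inv_one, one_smul] at this
    unfold th at this
    omega

/-- attachment of a page vertex to the guessed geodesic -/
def Att (x y : X.V) (w : W) (v : X.V) : Prop :=
  (X.good x y (X.vp 1 w) ∧ v = X.vp 1 w) ∨
    (∃ p n, X.BadAt x y p n (X.vp 1 w) ∧ v = X.vm p (X.pi (p⁻¹ • x)))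

theorem exists_att (x y : X.V) (w : W) : ∃ v, X.Att x y w v := by
  rcases X.good_or_bad x y (X.vp 1 w) with h | ⟨p, n, h⟩
  · exact ⟨_, Or.inl ⟨h, rfl⟩⟩
  · exact ⟨_, Or.inr ⟨p, n, h, rfl⟩⟩

theorem att_unique {x y : X.V} {w : W} {v v' : X.V} (h : X.Att x y w v) (h' : X.Att x y w v') :
    v = v' := by
  rcases h with ⟨h1, h2⟩ | ⟨p, n, h1, h2⟩
  · rcases h' with ⟨h3, h4⟩ | ⟨p', n', h3, h4⟩
    · rw [h2, h4]
    · exact absurd h1 (X.not_good_of_bad h3)
  · rcases h' with ⟨h3, h4⟩ | ⟨p', n', h3, h4⟩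
    · exact absurd h3 (X.not_good_of_bad h1)
    · have := X.line_unique (h1.1.symm.trans h3.1)
      rw [h2, h4, this.1]

theorem good_mem {x y : X.V} {w : W} (hrel : X.relP 1 x y) (hw : X.P.Btw (X.hw x) (X.hw y) w)
    (h : X.good x y (X.vp 1 w)) : X.vp 1 w ∈ X.L x y :=
  Or.inl ⟨1, w, rfl, by simpa using hw, hrel, h⟩

/-- a good vertex on the line of a relevant plane is connected to the plane -/
theorem good_line_conn {x y : X.V} {w : W} {p : X.G} {n : ℤ} (hrel : X.relP 1 x y)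
    (hw : X.P.Btw (X.hw x) (X.hw y) w) (h : X.good x y (X.vp 1 w)) (hp : X.relL p x y)
    (hn : X.vp 1 w = X.vp p (X.P.e n)) : X.Conn x y (X.vp 1 w) (X.vm p (X.pi (p⁻¹ • x))) := by
  have hm := X.good_mem hrel hw h
  have hD : X.D = X.th + 2 * X.P.κ + 6 := rfl
  rcases h p n hn with h1 | h1
  · exact Conn.single X hm (X.pi_mem_left hp) (by omega)
  · exact (Conn.single X hm (X.pi_mem_right hp) (by omega)).trans X
      ((X.plane_conn hp).symm X)

theorem att_step {x y : X.V} {w w' : W} {v v' : X.V} (hrel : X.relP 1 x y)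
    (hw : X.P.Btw (X.hw x) (X.hw y) w) (hw' : X.P.Btw (X.hw x) (X.hw y) w')
    (h1 : X.P.dw w w' ≤ 1) (h : X.Att x y w v) (h' : X.Att x y w' v') : X.Conn x y v v' := by
  rcases h with ⟨ha, rfl⟩ | ⟨p, n, ha, rfl⟩
  · rcases h' with ⟨hb, rfl⟩ | ⟨p', n', hb, rfl⟩
    · refine Conn.single X (X.good_mem hrel hw ha) (X.good_mem hrel hw' hb) ?_
      have := X.d_page 1 w w'
      unfold D; omega
    · obtain ⟨k, hk⟩ := X.bad_nbr hw h1 hb
      exact X.good_line_conn hrel hw ha (X.relL_of_bad' hrel hw' hb) hk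
  · have h1' : X.P.dw w' w ≤ 1 := by rw [X.P.dw_comm]; exact h1
    rcases h' with ⟨hb, rfl⟩ | ⟨p', n', hb, rfl⟩
    · obtain ⟨k, hk⟩ := X.bad_nbr hw' h1' ha
      exact (X.good_line_conn hrel hw' hb (X.relL_of_bad' hrel hw ha) hk).symm X
    · obtain ⟨k, hk⟩ := X.bad_nbr hw' h1' ha
      have := X.line_unique (hk.symm.trans hb.1)
      rw [this.1]
      exact Relation.ReflTransGen.refl

/-- walking along a geodesic of the page -/
theorem att_walk {x y : X.V} (hrel : X.relP 1 x y) : ∀ n : ℕ, ∀ w : W, ∀ v v' : X.V,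
    X.P.Btw (X.hw x) (X.hw y) w → X.P.dw w (X.hw y) = n → X.Att x y w v →
    X.Att x y (X.hw y) v' → X.Conn x y v v' := by
  intro n
  induction n with
  | zero =>
    intro w v v' _ h2 h3 h4
    rw [X.P.eq_of_dw h2] at h3
    exact Conn.refl' X (X.att_unique h3 h4)
  | succ n ih =>
    intro w v v' h1 h2 h3 h4
    have hne : w ≠ X.hw y := by
      rintro rfl
      rw [X.P.dw_self] at h2; omega
    obtain ⟨s, hs1, hs2⟩ := X.P.exists_next h1 hne
    obtain ⟨v'', hv''⟩ := X.exists_att x y (w * X.P.gen s)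
    exact (X.att_step hrel h1 hs1 (X.P.dw_gen w s).le h3 hv'').trans X
      (ih _ v'' v' hs1 (by omega) hv'' h4)

/-- attachment of an end point -/
def End (x a : X.V) : Prop := (X.inW x ∧ a = x) ∨
  (¬ X.inW x ∧ ∃ q : X.Q, X.hw x = q.1 ∧ a = X.vm (X.qq q) (X.pi ((X.qq q)⁻¹ • x)))

theorem exists_end (x : X.V) : ∃ a, X.End x a := by
  by_cases h : X.inW x
  · exact ⟨x, Or.inl ⟨h, rfl⟩⟩
  · exact ⟨_, Or.inr ⟨h, X.hq x h, rfl, rfl⟩⟩

theorem relL_hq {x y : X.V} (hrel : X.relP 1 x y) (hx : ¬ X.inW x) {q : X.Q}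
    (hq : X.hw x = q.1) : X.relL (X.qq q) x y := by
  intro h
  have h1 := h.1
  simp only [pi] at h1
  have h2 : X.az ((X.qq q)⁻¹ • x) ≠ 0 := (X.az_qq_inv_iff hx).mpr hq
  have h3 : X.az ((X.qq q)⁻¹ • y) ≠ 0 := by omega
  have hy : ¬ X.inW y := fun h => h3 (X.az_qq_inv_of_inW h)
  have h4 := (X.az_qq_inv_iff hy).mp h3
  unfold relP at hrel
  simp only [inv_one, one_smul] at hrel
  rcases hrel with h | h | h
  · exact h (by rw [hq, h4])
  · exact hx h
  · exact hy h

theorem vp_qq_zero (q : X.Q) : X.vp 1 q.1 = X.vp (X.qq q) (X.P.e 0) := by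
  refine Subtype.ext ?_
  simp [X.P.e_zero]

/-- the attachment of `x` is connected to the attachment of `hw x` -/
theorem end_left {x y : X.V} {a v : X.V} (hrel : X.relP 1 x y) (ha : X.End x a)
    (hv : X.Att x y (X.hw x) v) : X.Conn x y a v := by
  rcases ha with ⟨h1, rfl⟩ | ⟨h1, q, hq, rfl⟩
  · refine Conn.refl' X (X.att_unique (Or.inl ?_) hv)
    rw [← X.inW_iff.mp h1]
    exact ⟨X.good_left _ _, rfl⟩
  · have hL := X.relL_hq hrel h1 hq
    have e : X.vp 1 (X.hw x) = X.vp (X.qq q) (X.P.e 0) := by rw [hq, X.vp_qq_zero]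
    rcases hv with ⟨h2, rfl⟩ | ⟨p, n, h2, rfl⟩
    · exact (X.good_line_conn hrel (X.P.btw_left _ _) h2 hL e).symm X
    · have := X.line_unique (e.symm.trans h2.1)
      rw [this.1]
      exact Relation.ReflTransGen.refl

theorem end_right {x y : X.V} {a v : X.V} (hrel : X.relP 1 x y) (ha : X.End y a)
    (hv : X.Att x y (X.hw y) v) : X.Conn x y v a := by
  rcases ha with ⟨h1, rfl⟩ | ⟨h1, q, hq, rfl⟩
  · refine Conn.refl' X (X.att_unique hv (Or.inl ?_))
    rw [← X.inW_iff.mp h1]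
    exact ⟨(X.good_left _ _).symm X, rfl⟩
  · have hL := (X.relL_hq (hrel.symm X) h1 hq).symm X
    have e : X.vp 1 (X.hw y) = X.vp (X.qq q) (X.P.e 0) := by rw [hq, X.vp_qq_zero]
    rcases hv with ⟨h2, rfl⟩ | ⟨p, n, h2, rfl⟩
    · exact (X.good_line_conn hrel (X.P.btw_right _ _) h2 hL e).trans X (X.plane_conn hL)
    · have := X.line_unique (e.symm.trans h2.1)
      rw [← this.1]
      exact X.plane_conn hL

/-- a relevant page -/
theorem page_conn {x y a b : X.V} (hrel : X.relP 1 x y) (ha : X.End x a) (hb : X.End y b) :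
    X.Conn x y a b := by
  obtain ⟨v, hv⟩ := X.exists_att x y (X.hw x)
  obtain ⟨v', hv'⟩ := X.exists_att x y (X.hw y)
  exact (X.end_left hrel ha hv).trans X ((X.att_walk hrel _ _ v v' (X.P.btw_left _ _) rfl hv
    hv').trans X (X.end_right hrel hb hv'))

theorem cc_pi (k : ℤ) (y : X.V) : X.cc ^ k • X.vm 1 (X.pi y) = X.vm 1 (X.pi (X.cc ^ k • y)) := by
  rw [smul_vm, mul_one, ← one_mul (X.cc ^ k), X.vm_cc, one_mul, X.pi_cc]

/-- vertices behind the base plane -/
theorem conn_tail : ∀ g : Γ, ∀ y : X.V, y.1 = X.F.c ^ (-X.F.a0 g) * g → ∀ x : X.V,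
    X.az x ≠ 0 → X.Conn x y (X.vm 1 (X.pi y)) y := by
  intro g
  -- the page `1` is relevant
  have pageone : ∀ x y : X.V, X.az x ≠ 0 → X.az y = 0 → X.relP 1 x y ∧
      ∀ b, X.End y b → X.Conn x y (X.vm 1 (X.pi y)) b := by
    intro x y hx hy
    have hrel : X.relP 1 x y := by
      unfold relP
      simp only [inv_one, one_smul]
      by_cases h : X.hw x = X.hw y
      · right; right
        rw [X.hw_of_az hx] at h
        refine ⟨1, ?_⟩
        rw [map_one]
        exact X.F.eq_one h.symm hy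
      · exact Or.inl h
    refine ⟨hrel, fun b hb => ?_⟩
    have hL : X.relL 1 x y := by
      intro h
      have := h.1
      simp only [pi, inv_one, one_smul] at this
      omega
    have hq1 : X.qq 1 = 1 := Subtype.ext (by simp)
    have hend : X.End x (X.vm 1 (X.pi x)) := by
      refine Or.inr ⟨X.not_inW_of_az hx, 1, X.hw_of_az hx, ?_⟩
      rw [hq1, inv_one, one_smul]
    have h1 := X.plane_conn hL
    rw [inv_one, one_smul, one_smul] at h1
    exact (h1.symm X).trans X (X.page_conn hrel hend hb)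
  refine X.F.ind (fun g => ∀ y : X.V, y.1 = X.F.c ^ (-X.F.a0 g) * g → ∀ x : X.V,
    X.az x ≠ 0 → X.Conn x y (X.vm 1 (X.pi y)) y) ?_ ?_ ?_ g
  · intro y hy x hx
    rw [mul_one, X.F.a0_one, neg_zero, zpow_zero] at hy
    have hin : X.inW y := ⟨1, by rw [hy, map_one]⟩
    exact (pageone x y hx (X.az_of_inW hin)).2 y (Or.inl ⟨hin, rfl⟩)
  · intro w g hw hg ih y hy x hx
    have ha0 : X.F.a0 (X.F.ι w * g) = 0 := X.F.a0_ι_mul (by rw [hg, mul_one]; exact hw)
    rw [ha0, neg_zero, zpow_zero, one_mul] at hy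
    have hay : X.az y = 0 := by unfold az; rw [hy, ha0]
    obtain ⟨hrel, hp⟩ := pageone x y hx hay
    by_cases hin : X.inW y
    · exact hp y (Or.inl ⟨hin, rfl⟩)
    · refine (hp _ (Or.inr ⟨hin, X.hq y hin, rfl, rfl⟩)).trans X ?_
      have hwy : X.hw y = w := by unfold Ctx.hw; rw [hy, X.F.hW_mul, hg, mul_one]
      set q := X.hq y hin with hqdef
      have hq1 : q.1 = w := hwy
      -- translate
      set y1 := (X.qq q)⁻¹ • y with hy1
      have hy1v : y1.1 = g := by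
        rw [hy1, smul_val, X.qq_inv, qq_val, hy]
        have : (q⁻¹ : X.Q).1 = w⁻¹ := by rw [← hq1]; rfl
        rw [this, map_inv, inv_mul_cancel_left]
      set x1 := (X.qq q)⁻¹ • x with hx1
      have hxa : X.az x1 = 0 := by
        rw [hx1]
        refine X.az_qq_inv_ne ?_
        rw [X.hw_of_az hx, hq1]; exact fun h => hw h.symm
      set a := X.F.a0 g with ha
      have hya : X.az y1 = a := by unfold az; rw [hy1v]
      have hane : a ≠ 0 := by
        rw [← hya, hy1]; exact X.az_hq_inv hin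
      have h2 := ih (X.cc ^ (-a) • y1) (by rw [smul_val, cc_pow_val, hy1v])
        (X.cc ^ (-a) • x1) (by rw [X.az_cc, hxa]; omega)
      rw [← X.cc_pi] at h2
      have h3 := Conn.unsmul X _ h2
      have h4 : X.Conn x1 y1 ((X.qq q)⁻¹ • X.vm (X.qq q) (X.pi y1)) y1 := by
        rw [smul_vm, inv_mul_cancel]; exact h3
      exact Conn.unsmul X _ h4
  · intro a g ha hg ih y hy x hx
    rw [X.F.a0_mul, hg, add_zero, ← mul_assoc, ← zpow_add, neg_add_cancel, zpow_zero, one_mul]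
      at hy
    exact ih y (by rw [hy, hg, neg_zero, zpow_zero, one_mul]) x hx

/-- the guessed geodesics are coarsely connected -/
theorem conn (x y : X.V) : X.Conn x y x y := by
  -- reduce to `x` in the base page
  have key : ∀ x y : X.V, X.inW x → X.Conn x y x y := by
    intro x y hx
    have hrel : X.relP 1 x y := Or.inr (Or.inl (by simpa using hx))
    by_cases hy : X.inW y
    · exact X.page_conn hrel (Or.inl ⟨hx, rfl⟩) (Or.inl ⟨hy, rfl⟩)
    · refine (X.page_conn hrel (Or.inl ⟨hx, rfl⟩)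
        (Or.inr ⟨hy, X.hq y hy, rfl, rfl⟩)).trans X ?_
      set q := X.hq y hy with hqdef
      set y1 := (X.qq q)⁻¹ • y with hy1
      set x1 := (X.qq q)⁻¹ • x with hx1
      have hxa : X.az x1 = 0 := X.az_qq_inv_of_inW hx
      set a := X.az y1 with ha
      have hane : a ≠ 0 := X.az_hq_inv hy
      have h2 := X.conn_tail y1.1 (X.cc ^ (-a) • y1) (by rw [smul_val, cc_pow_val]; rfl)
        (X.cc ^ (-a) • x1) (by rw [X.az_cc, hxa]; omega)
      rw [← X.cc_pi] at h2
      have h3 := Conn.unsmul X _ h2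
      have h4 : X.Conn x1 y1 ((X.qq q)⁻¹ • X.vm (X.qq q) (X.pi y1)) y1 := by
        rw [smul_vm, inv_mul_cancel]; exact h3
      exact Conn.unsmul X _ h4
  obtain ⟨p, w, hx⟩ := X.exists_vp x
  refine Conn.unsmul X p⁻¹ (key _ _ ⟨w, ?_⟩)
  rw [hx, smul_vp, inv_mul_cancel, vp_val]
  simp

/-- the guessed geodesics form a family as required -/
theorem guessFam (geo : ∀ x y, ∃ α : ℕ → X.V, α 0 = x ∧ α (X.d x y) = y ∧
    ∀ i j, i ≤ j → j ≤ X.d x y → X.d (α i) (α j) = j - i) : GuessFam X.d X.L X.D where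
  d_self := X.d_self
  d_comm := X.d_comm
  d_tri := X.d_tri
  geo := geo
  chain x y := ⟨X.mem_left x y, (X.conn x y).chain X⟩
  thin x y z u hu := X.L_thin x y z hu
  small x y h u hu := X.small h hu

end Ctx

end Pool.Agent.helper99.LC
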