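import Mathlib
import Pool.Agent.helper99.LC.Conn

/-!
# Gromov products at the base vertex
-/

set_option autoImplicit false

namespace Pool.Agent.helper99.LC

namespace Ctx

variable {W S Γ : Type} [Group W] [Group Γ] (X : Ctx W S Γ)

/-- the base vertex -/
def o : X.V := X.vp 1 1

/-- twice the Gromov product at the base vertex -/
noncomputable def g2 (x y : X.V) : ℤ := (X.d X.o x : ℤ) + X.d X.o y - X.d x y

/-- the vertices `c ^ (-h)`; they converge to `ξ₋` for `h → ∞` and to `ξ₊` for `h → -∞` -/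
def vh (h : ℤ) : X.V := X.vm 1 (h, 0)

/-- the guessed geodesics are nearly geodesic and the space is hyperbolic -/
structure Hyp (C : ℕ) : Prop where
  add : ∀ x y, ∀ u ∈ X.L x y, X.d x u + X.d u y ≤ X.d x y + C
  four : ∀ w x y z, min ((X.d x w : ℤ) + X.d y w - X.d x y) ((X.d y w : ℤ) + X.d z w - X.d y z)
      ≤ (X.d x w : ℤ) + X.d z w - X.d x z + C

theorem exists_hyp (geo : ∀ x y, ∃ α : ℕ → X.V, α 0 = x ∧ α (X.d x y) = y ∧
    ∀ i j, i ≤ j → j ≤ X.d x y → X.d (α i) (α j) = j - i) : ∃ C, X.Hyp C := by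
  obtain ⟨C, h1, h2⟩ := (X.guessFam geo).hyperbolic
  exact ⟨C, h1, h2⟩

end Ctx

end Pool.Agent.helper99.LC
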