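import Mathlib
import Pool.Agent.helper99.LC.Defs

/-!
# Right-angled Coxeter groups: interface definitions
-/

set_option autoImplicit false

namespace Pool.Agent.helper99.LC

section

variable {S : Type} [DecidableEq S] (G : SimpleGraph S) [DecidableRel G.Adj]

/-- Coxeter matrix of the right-angled Coxeter group of a graph. -/
def raMat : CoxeterMatrix S where
  M := Matrix.of fun s t => if s = t then 1 else if G.Adj s t then 2 else 0
  isSymm := by
    ext s t
    simp only [Matrix.transpose_apply, Matrix.of_apply]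
    by_cases h : s = t
    · simp [h]
    · simp [h, Ne.symm h, G.adj_comm s t]
  diagonal := by intro s; simp
  off_diagonal := by
    intro s t h
    simp only [Matrix.of_apply, if_neg h]
    split_ifs <;> norm_num

/-- the right-angled Coxeter group -/
abbrev RW : Type := (raMat G).Group

/-- its Coxeter system -/
abbrev raSys : CoxeterSystem (raMat G) (RW G) := (raMat G).toCoxeterSystem

/-- generators -/
noncomputable def gen (s : S) : RW G := (raSys G).simple s

/-- word length -/
noncomputable def rlen (g : RW G) : ℕ := (raSys G).length g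

/-- the line through `1` spanned by `v`, `v'`: `1, v, v v', v v' v, …` and `v', v' v, …` -/
noncomputable def eLine (v v' : S) (n : ℤ) : RW G :=
  (gen G v * gen G v') ^ (n / 2) * (if n % 2 = 0 then 1 else gen G v)

/-- Facts on descents (proved in module P1, used in module P2). Left descents. -/
structure RFacts : Prop where
  desc_comm : ∀ g s t, s ≠ t → rlen G (gen G s * g) < rlen G g →
    rlen G (gen G t * g) < rlen G g → G.Adj s t
  disj : ∀ x y, (∀ s, ¬ (rlen G (gen G s * x) < rlen G x ∧ rlen G (gen G s * y) < rlen G y)) →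
    rlen G (x⁻¹ * y) = rlen G x + rlen G y

end

/-- The graph on 14 vertices. -/
def tbl : List ℕ :=
  [2^6+2^9+2^12+2^13, 2^8+2^9+2^10+2^13, 2^6+2^7+2^11+2^12, 2^7+2^8+2^10+2^11,
   2^7+2^9+2^11+2^13, 2^6+2^8+2^10+2^12, 2^0+2^2+2^5+2^10+2^12, 2^2+2^3+2^4+2^11+2^12,
   2^1+2^3+2^5+2^10+2^13, 2^0+2^1+2^4+2^11+2^13, 2^1+2^3+2^5+2^6+2^8, 2^2+2^3+2^4+2^7+2^9,
   2^0+2^2+2^5+2^6+2^7, 2^0+2^1+2^4+2^8+2^9]

def adjB (i j : Fin 14) : Bool := (tbl.getD i.1 0).testBit j.1

/-- the graph `L` -/
def L14 : SimpleGraph (Fin 14) where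
  Adj i j := adjB i j = true
  symm := ⟨by decide⟩
  loopless := ⟨by decide⟩

instance : DecidableRel L14.Adj := fun i j => inferInstanceAs (Decidable (adjB i j = true))

/-- classes -/
def cls (i : Fin 14) : Fin 3 := if i.1 < 6 then 0 else if i.1 < 10 then 1 else 2

/-- types -/
def tau (i : Fin 14) : ℤ :=
  if i.1 = 0 ∨ i.1 = 1 ∨ i.1 = 2 ∨ i.1 = 6 ∨ i.1 = 7 ∨ i.1 = 10 ∨ i.1 = 11 then 1 else -1

end Pool.Agent.helper99.LC
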