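import Mathlib
import Pool.Agent.helper99.LC.EDefs
import Pool.Agent.helper41.LC.D
import Pool.Agent.helper41.LC.E
import Pool.Agent.helper82.LC.Bd2

/-!
# The limit set is connected and not locally connected
-/

set_option autoImplicit false

namespace Pool.Agent.helper99.LC

open Filter Topology
open Pool.Agent.helper41.LC Pool.Agent.helper82.LCB

namespace Ctx

variable {W S Γ : Type} [Group W] [Group Γ] (X : Ctx W S Γ)

/-- a realization of the graph -/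
structure Real (R : Type) [MetricSpace R] [MulAction X.G R] where
  ι : X.V → R
  act : ∀ (g : X.G) (x y : R), dist (g • x) (g • y) = dist x y
  d : ∀ v w, dist (ι v) (ι w) = (X.d v w : ℝ)
  smul : ∀ (g : X.G) v, ι (g • v) = g • ι v

variable {X}
variable {R : Type} [MetricSpace R] [MulAction X.G R] (Y : X.Real R)

namespace Real

theorem gp_eq (x y : X.V) : gp (Y.ι X.o) (Y.ι x) (Y.ι y) = (X.g2 x y : ℝ) / 2 := by
  unfold gp g2
  rw [Y.d, Y.d, Y.d]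
  push_cast
  ring

theorem ι_inj : Function.Injective Y.ι := by
  intro x y h
  have h1 := Y.d x y
  rw [h, dist_self] at h1
  exact X.d_eq_zero (by exact_mod_cast h1.symm)

/-- the orbit of the base point -/
def A : Set R := MulAction.orbit X.G (Y.ι X.o)

/-- the orbit of the subgroup `Q`, translated by `p` -/
def AQ (p : X.G) : Set R := {r | ∃ q ∈ X.Q, r = Y.ι (p • X.vp 1 q)}

theorem vp_one_q {q : W} (hq : q ∈ X.Q) : X.vp 1 q = X.qq ⟨q, hq⟩ • X.o := by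
  unfold o
  rw [smul_vp, mul_one]
  exact Subtype.ext (by simp)

theorem AQ_subset (p : X.G) : Y.AQ p ⊆ Y.A := by
  rintro r ⟨q, hq, rfl⟩
  rw [vp_one_q hq, smul_smul, Y.smul]
  exact MulAction.mem_orbit _ _

theorem AQ_mul (p : X.G) (q : X.Q) : Y.AQ (p * X.qq q) = Y.AQ p := by
  have key : ∀ (p : X.G) (q : X.Q), Y.AQ (p * X.qq q) ⊆ Y.AQ p := by
    rintro p q r ⟨q', hq', rfl⟩
    refine ⟨q.1 * q', X.Q.mul_mem q.2 hq', ?_⟩
    rw [smul_vp, smul_vp, mul_one, mul_one, X.vp_qq]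
  refine Set.Subset.antisymm (key p q) ?_
  have := key (p * X.qq q) q⁻¹
  rwa [← X.qq_inv, mul_inv_cancel_right] at this

theorem d_o_smul (p : X.G) (x : X.V) : X.d X.o (p • x) ≤ X.d X.o (p • X.o) + X.d X.o x := by
  have h1 := X.d_tri X.o (p • X.o) (p • x)
  rw [X.d_smul] at h1
  exact h1

theorem d_o_smul' (p : X.G) (x : X.V) : X.d X.o x ≤ X.d X.o (p • X.o) + X.d X.o (p • x) := by
  have h1 := X.d_tri X.o (p⁻¹ • X.o) x
  have h2 : X.d (p⁻¹ • X.o) x = X.d X.o (p • x) := by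
    rw [← X.d_smul p, smul_inv_smul]
  have h3 : X.d X.o (p⁻¹ • X.o) = X.d X.o (p • X.o) := by
    rw [← X.d_smul p, smul_inv_smul, X.d_comm]
  omega

/-! ### Connectedness -/

theorem preconnected_AQ [Finite S] [ProperSpace R] (hG : Geodesic R) (hH : Hyperbolic R) {C : ℕ}
    (h : X.Hyp C)
    (rich : ∀ w, ∃ q ∈ X.Q, X.P.len q = X.P.len w + X.P.len (w⁻¹ * q) ∧
      ∀ p ∈ X.Q, ∀ n, w = p * X.P.e n → (X.P.γ (p⁻¹ * q) - n).natAbs ≤ 1)
    (oneEnded : ∀ (n : ℕ) (x y : W), n < X.P.len x → n < X.P.len y →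
      X.P.PathIn (fun w => n < X.P.len w) x y) (p : X.G) :
    IsPreconnected (Lim (Y.AQ p)) := by
  refine Lim_preconnected hG hH (Y.ι X.o) (Y.AQ p) fun r => ?_
  set K := X.d X.o (p • X.o) with hK
  obtain ⟨N, hN⟩ := chain_g2 X h rich oneEnded (⌈2 * r⌉ + 2 * K)
  refine ⟨N + K, ?_⟩
  rintro a ⟨q, hq, rfl⟩ a' ⟨q', hq', rfl⟩ h1 h2
  have hd : ∀ q : W, (N : ℝ) + K ≤ dist (Y.ι X.o) (Y.ι (p • X.vp 1 q)) →
      N ≤ X.d X.o (X.vp 1 q) := by
    intro q hq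
    rw [Y.d] at hq
    have h3 : N + K ≤ X.d X.o (p • X.vp 1 q) := by exact_mod_cast hq
    have h4 := d_o_smul (X := X) p (X.vp 1 q)
    omega
  have hc := hN q hq q' hq' (hd q h1) (hd q' h2)
  clear h1 h2 hq hq'
  induction hc with
  | refl => exact Relation.ReflTransGen.refl
  | tail _ h3 ih =>
    refine ih.tail ⟨⟨_, h3.1, rfl⟩, ?_⟩
    rw [Y.gp_eq]
    have h5 := h3.2
    rename_i b c _
    have h4 := (abs_le.mp (g2_smul X p (X.vp 1 b) (X.vp 1 c))).1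
    have h6 : ⌈2 * r⌉ ≤ X.g2 (p • X.vp 1 b) (p • X.vp 1 c) := by
      rw [← hK] at h4
      linarith
    have h7 : (2 * r : ℝ) ≤ (X.g2 (p • X.vp 1 b) (p • X.vp 1 c) : ℝ) :=
      (Int.le_ceil _).trans (by exact_mod_cast h6)
    linarith

/-- sequences converging to `ξ₋` -/
def TM (x : ℕ → X.V) : Prop := ∀ M : ℤ, ∃ N : ℕ, ∀ m : ℕ, N ≤ m → ∀ t : ℤ, N ≤ t →
  M ≤ X.g2 (x m) (X.vh t)

theorem g2_comm (x y : X.V) : X.g2 x y = X.g2 y x := by
  unfold g2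
  rw [X.d_comm x y]; ring

theorem TM.pair {C : ℕ} (h : X.Hyp C) {x y : ℕ → X.V} (hx : TM x) (hy : TM y) (M : ℤ) :
    ∃ N : ℕ, ∀ m n : ℕ, N ≤ m → N ≤ n → M ≤ X.g2 (x m) (y n) := by
  obtain ⟨N1, h1⟩ := hx (M + C)
  obtain ⟨N2, h2⟩ := hy (M + C)
  refine ⟨max N1 N2, fun m n hm hn => ?_⟩
  have a1 := h1 m (by omega) (max N1 N2 : ℕ) (by push_cast; exact le_max_left _ _)
  have a2 := h2 n (by omega) (max N1 N2 : ℕ) (by push_cast; exact le_max_right _ _)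
  have a3 := four_o X h (x m) (X.vh (max N1 N2 : ℕ)) (y n)
  rw [g2_comm (X.vh _) (y n)] at a3
  have := le_min a1 a2
  linarith

theorem tendsto_diag : Tendsto (fun n : ℕ => (n, n)) atTop atTop := by
  rw [← prod_atTop_atTop_eq]
  exact tendsto_id.prodMk tendsto_id

theorem tendsto_of (f : ℕ × ℕ → ℝ) (h : ∀ M : ℤ, ∃ N : ℕ, ∀ m n : ℕ, N ≤ m → N ≤ n →
    (M : ℝ) ≤ f (m, n)) : Tendsto f atTop atTop := by
  rw [tendsto_atTop]
  intro b
  obtain ⟨N, hN⟩ := h ⌈b⌉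
  filter_upwards [eventually_ge_atTop (N, N)] with p hp
  exact (Int.le_ceil b).trans (hN p.1 p.2 hp.1 hp.2)

theorem TM.gp {C : ℕ} (h : X.Hyp C) {x y : ℕ → X.V} (hx : TM x) (hy : TM y) (p : X.G) :
    Tendsto (fun k : ℕ × ℕ => gp (Y.ι X.o) (Y.ι (p • x k.1)) (Y.ι (p • y k.2))) atTop atTop := by
  refine tendsto_of _ fun M => ?_
  obtain ⟨N, hN⟩ := hx.pair h hy (2 * M + 2 * X.d X.o (p • X.o))
  refine ⟨N, fun m n hm hn => ?_⟩
  rw [Y.gp_eq]
  have h1 := hN m n hm hn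
  have h2 := (abs_le.mp (g2_smul X p (x m) (y n))).1
  have h3 : 2 * M ≤ X.g2 (p • x m) (p • y n) := by linarith
  have h4 : (2 * M : ℝ) ≤ (X.g2 (p • x m) (p • y n) : ℝ) := by exact_mod_cast h3
  linarith

theorem TM.cc {x : ℕ → X.V} (hx : TM x) : TM (fun m => X.cc • x m) := by
  intro M
  obtain ⟨N, hN⟩ := hx (M + 2 * X.d X.o (X.cc • X.o))
  refine ⟨N, fun m hm t ht => ?_⟩
  have h1 := hN m hm (t + 1) (by omega)
  have h2 := (abs_le.mp (g2_smul X X.cc (x m) (X.vh (t + 1)))).1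
  have h3 : X.cc • X.vh (t + 1) = X.vh t := by
    unfold vh
    rw [smul_vm, mul_one, ← zpow_one X.cc, ← one_mul (X.cc ^ (1 : ℤ)), X.vm_cc]
    unfold psh
    congr 2
    simp
  rw [h3] at h2
  show M ≤ X.g2 (X.cc • x m) (X.vh t)
  linarith

/-- `ξ₋` is a limit point of `Q` -/
theorem exists_TM [Finite S] {C : ℕ} (h : X.Hyp C)
    (rich : ∀ w, ∃ q ∈ X.Q, X.P.len q = X.P.len w + X.P.len (w⁻¹ * q) ∧
      ∀ p ∈ X.Q, ∀ n, w = p * X.P.e n → (X.P.γ (p⁻¹ * q) - n).natAbs ≤ 1) :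
    ∃ q : ℕ → W, (∀ n, q n ∈ X.Q) ∧ TM (fun n => X.vp 1 (q n)) := by
  choose f hf1 hf2 using rich_g2 X h rich
  refine ⟨fun n => f (X.P.e n), fun n => hf1 _, fun M => ?_⟩
  obtain ⟨N1, h1⟩ := row_far X h 0 (M + C)
  -- far away vertices of the line
  have hinj : Function.Injective (fun n : ℕ => X.vp 1 (X.P.e n)) := by
    intro a b hab
    have := (X.line_unique hab).2
    exact_mod_cast this
  have hfin := far_of_inj X (fun n : ℕ => X.vp 1 (X.P.e n)) hinj (M + 2 * C).toNat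
  obtain ⟨N2, h2⟩ := hfin.bddAbove
  refine ⟨max N1 (N2 + 1), fun m hm t ht => ?_⟩
  have a1 := h1 m t (by simp; omega) (by omega)
  rw [neg_zero, X.vm_zero] at a1
  have a2 := hf2 (X.P.e m)
  have a3 : (M + 2 * C).toNat < X.d X.o (X.vp 1 (X.P.e m)) := by
    by_contra hne
    push Not at hne
    have := h2 (show m ∈ {i : ℕ | X.d X.o (X.vp 1 (X.P.e i)) ≤ (M + 2 * C).toNat} from hne)
    omega
  have a4 : M + C ≤ X.g2 (X.vp 1 (f (X.P.e m))) (X.vp 1 (X.P.e m)) := by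
    rw [g2_comm]
    omega
  have a5 := four_o X h (X.vp 1 (f (X.P.e m))) (X.vp 1 (X.P.e m)) (X.vh t)
  have := le_min a4 a1
  show M ≤ X.g2 (X.vp 1 (f (X.P.e m))) (X.vh t)
  linarith

/-- the Gromov sequence `p • x` -/
noncomputable def seqOf {C : ℕ} (h : X.Hyp C) {x : ℕ → X.V} (hx : TM x) (p : X.G) : GSeq R :=
  ⟨fun n => Y.ι (p • x n), gseq_of (Y.ι X.o) (fun n => Y.ι (p • x n)) (TM.gp Y h hx hx p)⟩

theorem inter_nonempty [Finite S] {C : ℕ} (h : X.Hyp C)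
    (rich : ∀ w, ∃ q ∈ X.Q, X.P.len q = X.P.len w + X.P.len (w⁻¹ * q) ∧
      ∀ p ∈ X.Q, ∀ n, w = p * X.P.e n → (X.P.γ (p⁻¹ * q) - n).natAbs ≤ 1) (p : X.G) :
    (Lim (Y.AQ p) ∩ Lim (Y.AQ (p * X.cc))).Nonempty := by
  obtain ⟨q, hq, hT⟩ := exists_TM h rich
  refine ⟨Bdry.mk (seqOf Y h hT p), ⟨_, fun n => ⟨q n, hq n, rfl⟩, rfl⟩,
    ⟨seqOf Y h hT.cc p, fun n => ⟨q n, hq n, ?_⟩, ?_⟩⟩
  · show Y.ι (p • X.cc • X.vp 1 (q n)) = _
    rw [smul_smul]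
  · have h1 := (TM.gp Y h hT.cc hT p).comp tendsto_diag
    exact mk_eq_of (Y.ι X.o) (seqOf Y h hT.cc p) (seqOf Y h hT p) h1

/-- the translates of the limit set of `Q` are linked to each other -/
theorem linked [Finite S] {C : ℕ} (h : X.Hyp C)
    (rich : ∀ w, ∃ q ∈ X.Q, X.P.len q = X.P.len w + X.P.len (w⁻¹ * q) ∧
      ∀ p ∈ X.Q, ∀ n, w = p * X.P.e n → (X.P.γ (p⁻¹ * q) - n).natAbs ≤ 1) (p p' : X.G) :
    Relation.ReflTransGen (fun i j => (Lim (Y.AQ i) ∩ Lim (Y.AQ j)).Nonempty) p p' := by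
  have hne : ∀ p, (Lim (Y.AQ p)).Nonempty := fun p => (Y.inter_nonempty h rich p).mono
    Set.inter_subset_left
  have hsymm : ∀ i j, (Lim (Y.AQ i) ∩ Lim (Y.AQ j)).Nonempty →
      (Lim (Y.AQ j) ∩ Lim (Y.AQ i)).Nonempty := fun i j h => by rwa [Set.inter_comm]
  have key : ∀ g ∈ X.F.P X.Q, ∀ (hg : g ∈ X.F.P X.Q) (p : X.G),
      Relation.ReflTransGen (fun i j => (Lim (Y.AQ i) ∩ Lim (Y.AQ j)).Nonempty) p
        (p * ⟨g, hg⟩) := by
    intro g hg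
    refine Subgroup.closure_induction (p := fun g _ => ∀ (hg : g ∈ X.F.P X.Q) (p : X.G),
      Relation.ReflTransGen (fun i j => (Lim (Y.AQ i) ∩ Lim (Y.AQ j)).Nonempty) p
        (p * ⟨g, hg⟩)) ?_ ?_ ?_ ?_ hg
    · rintro x (⟨q, hq, rfl⟩ | hx) hg p
      · refine Relation.ReflTransGen.single ?_
        have e : (⟨X.F.ι q, hg⟩ : X.G) = X.qq ⟨q, hq⟩ := rfl
        rw [e, Y.AQ_mul, Set.inter_self]
        exact hne p
      · rw [Set.mem_singleton_iff] at hx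
        subst hx
        exact Relation.ReflTransGen.single (Y.inter_nonempty h rich p)
    · intro hg p
      have e : (⟨1, hg⟩ : X.G) = 1 := rfl
      rw [e, mul_one]
    · intro x y hx hy h1 h2 hg p
      have e : (⟨x * y, hg⟩ : X.G) = ⟨x, hx⟩ * ⟨y, hy⟩ := rfl
      rw [e, ← mul_assoc]
      exact (h1 hx p).trans (h2 hy _)
    · intro x hx h1 hg p
      have e : (⟨x⁻¹, hg⟩ : X.G) = (⟨x, hx⟩ : X.G)⁻¹ := rfl
      rw [e]
      have h2 := h1 hx (p * (⟨x, hx⟩ : X.G)⁻¹)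
      rw [inv_mul_cancel_right] at h2
      have : ∀ a b, Relation.ReflTransGen
          (fun i j => (Lim (Y.AQ i) ∩ Lim (Y.AQ j)).Nonempty) a b →
          Relation.ReflTransGen (fun i j => (Lim (Y.AQ i) ∩ Lim (Y.AQ j)).Nonempty) b a := by
        intro a b hab
        induction hab with
        | refl => exact Relation.ReflTransGen.refl
        | tail _ h3 ih => exact Relation.ReflTransGen.head (hsymm _ _ h3) ih
      exact this _ _ h2
  have := key (p⁻¹ * p').1 (p⁻¹ * p').2 (p⁻¹ * p').2 p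
  rwa [show (⟨(p⁻¹ * p').1, (p⁻¹ * p').2⟩ : X.G) = p⁻¹ * p' from rfl, mul_inv_cancel_left] at this

theorem Lim_mono {A B : Set R} (h : A ⊆ B) : Lim A ⊆ Lim B := by
  rintro ξ ⟨x, hx, rfl⟩
  exact ⟨x, fun n => h (hx n), rfl⟩

/-- distances to the base point of a Gromov sequence tend to infinity -/
theorem gseq_dist (o : R) (x : GSeq R) : Tendsto (fun n => dist o (x.1 n)) atTop atTop := by
  have := (x.2 o).comp tendsto_diag
  refine this.congr fun n => ?_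
  simp [gp]

/-- an injective family of vertices has a subsequence which is a Gromov sequence -/
theorem exists_sub [Finite S] [ProperSpace R] (hG : Geodesic R) (f : ℕ → X.V)
    (hf : Function.Injective f) : ∃ φ : ℕ → ℕ, StrictMono φ ∧ ∃ y : GSeq R,
      ∀ n, y.1 n = Y.ι (f (φ n)) := by
  refine exists_gseq hG (Y.ι X.o) (fun n => Y.ι (f n)) ?_
  rw [tendsto_atTop]
  intro b
  obtain ⟨N, hN⟩ := (far_of_inj X f hf ⌈b⌉.toNat).bddAbove
  filter_upwards [eventually_gt_atTop N] with n hn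
  by_contra hne
  push Not at hne
  rw [Y.d] at hne
  have h1 : (X.d X.o (f n) : ℝ) ≤ ⌈b⌉ := hne.le.trans (Int.le_ceil b)
  have h2 : (X.d X.o (f n) : ℤ) ≤ ⌈b⌉ := by exact_mod_cast h1
  have := hN (show n ∈ {i | X.d X.o (f i) ≤ ⌈b⌉.toNat} by
    show X.d X.o (f n) ≤ ⌈b⌉.toNat
    omega)
  omega

theorem subset_closure [Finite S] [ProperSpace R] (hG : Geodesic R) (hH : Hyperbolic R) {C : ℕ}
    (h : X.Hyp C)
    (rich2 : ∀ u, ∃ q : ℕ → W, (∀ n, q n ∈ X.Q) ∧ Function.Injective q ∧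
      (∀ n, X.P.γ (q n) = 0) ∧ ∀ n, X.P.len (u⁻¹ * q n) = X.P.len u + X.P.len (q n)) :
    Lim Y.A ⊆ closure (⋃ p, Lim (Y.AQ p)) := by
  rintro ξ ⟨x, hx, rfl⟩
  have hd := gseq_dist (Y.ι X.o) x
  refine mem_closure_of hH (Y.ι X.o) _ x (fun n => dist (Y.ι X.o) (x.1 n) - C / 2)
    (tendsto_atTop_add_const_right _ _ hd) fun n => ?_
  obtain ⟨p, hp⟩ := hx n
  obtain ⟨q, hq1, hq2, hq3, hq4⟩ := rich2_g2 X h rich2 p
  have hinj : Function.Injective (fun j => p • X.vp 1 (q j)) := by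
    intro a b hab
    exact hq2 (X.vp_one_inj (MulAction.injective p hab))
  obtain ⟨φ, -, y, hy⟩ := Y.exists_sub hG _ hinj
  refine ⟨y, Set.mem_iUnion.mpr ⟨p, y, fun m => ⟨q (φ m), hq1 _, hy m⟩, rfl⟩, fun m => ?_⟩
  have hp' : x.1 n = Y.ι (p • X.o) := by rw [Y.smul]; exact hp.symm
  rw [hp', hy m, Y.gp_eq, Y.d]
  have h1 := hq4 (φ m)
  have h2 : (2 * (X.d X.o (p • X.o) : ℝ) - C) ≤ (X.g2 (p • X.o) (p • X.vp 1 (q (φ m))) : ℝ) := by
    exact_mod_cast h1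
  linarith

/-- **the limit set is connected** -/
theorem isConnected [Finite S] [ProperSpace R] (hG : Geodesic R) (hH : Hyperbolic R) {C : ℕ}
    (h : X.Hyp C)
    (rich : ∀ w, ∃ q ∈ X.Q, X.P.len q = X.P.len w + X.P.len (w⁻¹ * q) ∧
      ∀ p ∈ X.Q, ∀ n, w = p * X.P.e n → (X.P.γ (p⁻¹ * q) - n).natAbs ≤ 1)
    (rich2 : ∀ u, ∃ q : ℕ → W, (∀ n, q n ∈ X.Q) ∧ Function.Injective q ∧
      (∀ n, X.P.γ (q n) = 0) ∧ ∀ n, X.P.len (u⁻¹ * q n) = X.P.len u + X.P.len (q n))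
    (oneEnded : ∀ (n : ℕ) (x y : W), n < X.P.len x → n < X.P.len y →
      X.P.PathIn (fun w => n < X.P.len w) x y) : IsConnected (Lim Y.A) := by
  have hsub : (⋃ p, Lim (Y.AQ p)) ⊆ Lim Y.A :=
    Set.iUnion_subset fun p => Lim_mono (Y.AQ_subset p)
  constructor
  · exact ((Y.inter_nonempty h rich 1).mono Set.inter_subset_left).mono
      (Lim_mono (Y.AQ_subset 1))
  · refine IsPreconnected.subset_closure ?_ hsub (Y.subset_closure hG hH h rich2)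
    exact IsPreconnected.iUnion_of_reflTransGen
      (fun p => Y.preconnected_AQ hG hH h rich oneEnded p) (Y.linked h rich)

/-! ### Failure of local connectedness -/

theorem tendsto_of' (f : ℕ → ℝ) (h : ∀ M : ℤ, ∃ N : ℕ, ∀ m : ℕ, N ≤ m → (M : ℝ) ≤ f m) :
    Tendsto f atTop atTop := by
  rw [tendsto_atTop]
  intro b
  obtain ⟨N, hN⟩ := h ⌈b⌉
  filter_upwards [eventually_ge_atTop N] with p hp
  exact (Int.le_ceil b).trans (hN p hp)

theorem gp_vh (x y : ℕ → X.V)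
    (h : ∀ M : ℤ, ∃ N : ℕ, ∀ m n : ℕ, N ≤ m → N ≤ n → M ≤ X.g2 (x m) (y n)) :
    Tendsto (fun k : ℕ × ℕ => gp (Y.ι X.o) (Y.ι (x k.1)) (Y.ι (y k.2))) atTop atTop := by
  refine tendsto_of _ fun M => ?_
  obtain ⟨N, hN⟩ := h (2 * M)
  refine ⟨N, fun m n hm hn => ?_⟩
  rw [Y.gp_eq]
  have h4 : (2 * M : ℝ) ≤ (X.g2 (x m) (y n) : ℝ) := by exact_mod_cast hN m n hm hn
  linarith

theorem vh_mem (t : ℤ) : Y.ι (X.vh t) ∈ Y.A := by
  have : X.vh t = (X.cc ^ (-t)) • X.o := by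
    refine Subtype.ext ?_
    simp [vh, o, X.P.e_zero]
  rw [this, Y.smul]
  exact MulAction.mem_orbit _ _

theorem az_vh (t : ℤ) : X.az (X.vh t) = -t := by
  have := congrArg Prod.fst (X.pi_vm (t, 0))
  simp only [pi] at this
  unfold vh
  omega

theorem cc_o (k : ℤ) : X.cc ^ k • X.o = X.vh (-k) := by
  refine Subtype.ext ?_
  simp [vh, o, X.P.e_zero]

/-- **the limit set is not locally connected** -/
theorem not_lc [Finite S] [ProperSpace R] (hG : Geodesic R) (hH : Hyperbolic R) {C : ℕ}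
    (h : X.Hyp C)
    (rich2 : ∀ u, ∃ q : ℕ → W, (∀ n, q n ∈ X.Q) ∧ Function.Injective q ∧
      (∀ n, X.P.γ (q n) = 0) ∧ ∀ n, X.P.len (u⁻¹ * q n) = X.P.len u + X.P.len (q n)) :
    ¬ LocallyConnectedSpace (Lim Y.A) := by
  have hm := Y.gp_vh (fun n => X.vh n) (fun n => X.vh n) (fun M => by
    obtain ⟨N, hN⟩ := vert_far X h M
    exact ⟨N, fun m n h1 h2 => hN m n (by exact_mod_cast h1) (by exact_mod_cast h2)⟩)
  have hp := Y.gp_vh (fun n => X.vh (-n)) (fun n => X.vh (-n)) (fun M => by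
    obtain ⟨N, hN⟩ := down_far X h M
    exact ⟨N, fun m n h1 h2 => hN m n (by exact_mod_cast h1) (by exact_mod_cast h2)⟩)
  let xm : GSeq R := ⟨fun n => Y.ι (X.vh n), gseq_of (Y.ι X.o) (fun n => Y.ι (X.vh n)) hm⟩
  let xp : GSeq R := ⟨fun n => Y.ι (X.vh (-n)), gseq_of (Y.ι X.o) (fun n => Y.ι (X.vh (-n))) hp⟩
  -- the sequences ζ
  have hz : ∀ k : ℕ, ∃ y : GSeq R, ∃ q : ℕ → W, (∀ n, q n ∈ X.Q) ∧ (∀ n, X.P.γ (q n) = 0) ∧
      (∀ n, y.1 n = Y.ι (X.cc ^ (k : ℤ) • X.vp 1 (q n))) ∧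
      ∀ n, 2 * (X.d X.o (X.vh (-k)) : ℤ) - C ≤
        X.g2 (X.vh (-k)) (X.cc ^ (k : ℤ) • X.vp 1 (q n)) := by
    intro k
    obtain ⟨q, hq1, hq2, hq3, hq4⟩ := rich2_g2 X h rich2 (X.cc ^ (k : ℤ))
    have hinj : Function.Injective (fun j => X.cc ^ (k : ℤ) • X.vp 1 (q j)) := by
      intro a b hab
      exact hq2 (X.vp_one_inj (MulAction.injective _ hab))
    obtain ⟨φ, -, y, hy⟩ := Y.exists_sub hG _ hinj
    refine ⟨y, fun n => q (φ n), fun n => hq1 _, fun n => hq3 _, hy, fun n => ?_⟩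
    have := hq4 (φ n)
    rwa [cc_o] at this
  choose ζ qs hz1 hz2 hz3 hz4 using hz
  refine not_locallyConnected hH (Y.ι X.o) Y.A (fun k => {r | ∃ x, X.az x = k ∧ Y.ι x = r})
    xm xp (fun n => Y.vh_mem _) (fun n => Y.vh_mem _) ?_ ?_ ?_ ζ ?_ ?_ ?_
    (fun k => dist (Y.ι X.o) (Y.ι (X.vh (-k))) - C / 2) ?_ ?_
  · -- ξ₋ ≠ ξ₊
    intro hcon
    have h1 := (mk_eq_iff hH).mp hcon (Y.ι X.o)
    rw [tendsto_atTop] at h1
    obtain ⟨N, hN⟩ := (h1 (C / 2 + 1)).exists_forall_of_atTop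
    have h2 := hN (N + 1) (by omega)
    have h3 : gp (Y.ι X.o) (xm.1 (N + 1)) (xp.1 (N + 1))
        = (X.g2 (X.vh (N + 1 : ℕ)) (X.vh (-(N + 1 : ℕ))) : ℝ) / 2 := Y.gp_eq _ _
    rw [h3, g2_comm] at h2
    have h4 := ends_ne X h (N + 1 : ℕ) (N + 1 : ℕ) (by push_cast; omega) (by push_cast; omega)
    have h5 : (X.g2 (X.vh (-(N + 1 : ℕ))) (X.vh (N + 1 : ℕ)) : ℝ) ≤ C := by exact_mod_cast h4
    linarith
  · -- separation
    intro k x y hx hy hxy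
    refine tendsto_of' _ fun M => ?_
    obtain ⟨N, hN⟩ := sep X h k (2 * M)
    rw [tendsto_atTop] at hxy
    obtain ⟨N', hN'⟩ := (hxy N).exists_forall_of_atTop
    refine ⟨max N N', fun m hm => ?_⟩
    obtain ⟨x', hx1, hx2⟩ := hx m
    obtain ⟨⟨p, hp⟩, hy2⟩ := hy m
    have hp' : Y.ι (p • X.o) = y m := by rw [Y.smul]; exact hp
    have h1 := hN' m (by omega)
    rw [← hx2, ← hp', Y.gp_eq] at h1
    have h2 : (N : ℤ) ≤ X.g2 x' (p • X.o) := by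
      have h3 : (N : ℝ) ≤ (X.g2 x' (p • X.o) : ℝ) := by
        have : (0 : ℝ) ≤ N := Nat.cast_nonneg N
        linarith
      exact_mod_cast h3
    have h4 := hN x' (p • X.o) m hx1 (fun h5 => hy2 ⟨_, h5, hp'⟩) h2 (by omega)
    rw [← hx2]
    show (M : ℝ) ≤ gp (Y.ι X.o) (Y.ι x') (Y.ι (X.vh m))
    rw [Y.gp_eq]
    have h5 : (2 * M : ℝ) ≤ (X.g2 x' (X.vh m) : ℝ) := by exact_mod_cast h4
    linarith
  · -- ξ₊ is not in the piece
    intro k
    filter_upwards [eventually_gt_atTop k] with n hn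
    rintro ⟨x, hx1, hx2⟩
    have h1 : x = X.vh (-n) := Y.ι_inj hx2
    rw [h1, az_vh] at hx1
    omega
  · intro k n
    rw [hz3, vp_one_q (hz1 k n), smul_smul, Y.smul]
    exact MulAction.mem_orbit _ _
  · intro k n
    rw [hz3]
    refine ⟨_, ?_, rfl⟩
    rw [X.az_cc, X.az_of_inW (X.inW_vp _), add_zero]
  · intro k hcon
    have h1 := (mk_eq_iff hH).mp hcon (Y.ι X.o)
    rw [tendsto_atTop] at h1
    obtain ⟨N, hN⟩ := (h1 (X.d X.o (X.vh (-k)) + C / 2 + 1)).exists_forall_of_atTop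
    have h2 := hN (N + 1) (by omega)
    have h3 : gp (Y.ι X.o) ((ζ k).1 (N + 1)) (xm.1 (N + 1))
        = (X.g2 (X.cc ^ (k : ℤ) • X.vp 1 (qs k (N + 1))) (X.vh (N + 1 : ℕ)) : ℝ) / 2 := by
      rw [hz3]; exact Y.gp_eq _ _
    rw [h3] at h2
    have h4 := zeta_bdd X h k _ (hz2 k (N + 1)) (N + 1 : ℕ) (by push_cast; omega)
    have h5 : (X.g2 (X.cc ^ (k : ℤ) • X.vp 1 (qs k (N + 1))) (X.vh (N + 1 : ℕ)) : ℝ)
        ≤ 2 * X.d X.o (X.vh (-k)) + C := by exact_mod_cast h4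
    linarith
  · exact tendsto_atTop_add_const_right _ _ (gseq_dist (Y.ι X.o) xp)
  · intro k n
    show _ ≤ gp (Y.ι X.o) (Y.ι (X.vh (-k))) ((ζ k).1 n)
    rw [hz3, Y.gp_eq, Y.d]
    have h2 : (2 * (X.d X.o (X.vh (-k)) : ℝ) - C) ≤
        (X.g2 (X.vh (-k)) (X.cc ^ (k : ℤ) • X.vp 1 (qs k n)) : ℝ) := by
      exact_mod_cast hz4 k n
    linarith

end Real

end Ctx

end Pool.Agent.helper99.LC
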