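import Mathlib
import Pool.Agent.helper99.LC.Limit
import Pool.Agent.helper50.LC.Realize
import Pool.Agent.helper82.LC.Page14

/-!
# Assembly: a connected limit set which is not locally connected
-/

set_option autoImplicit false

namespace Pool.Agent.helper99.LC

open Pool.Agent.helper41.LC Pool.Agent.helper50.LC Pool.Agent.helper82.LCB

theorem target_of {W S Γ : Type} [Group W] [Group Γ] [Finite S] (X : Ctx W S Γ)
    (hfg : X.Q.FG)
    (rich : ∀ w, ∃ q ∈ X.Q, X.P.len q = X.P.len w + X.P.len (w⁻¹ * q) ∧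
      ∀ p ∈ X.Q, ∀ n, w = p * X.P.e n → (X.P.γ (p⁻¹ * q) - n).natAbs ≤ 1)
    (rich2 : ∀ u, ∃ q : ℕ → W, (∀ n, q n ∈ X.Q) ∧ Function.Injective q ∧
      (∀ n, X.P.γ (q n) = 0) ∧ ∀ n, X.P.len (u⁻¹ * q n) = X.P.len u + X.P.len (q n))
    (oneEnded : ∀ (n : ℕ) (x y : W), n < X.P.len x → n < X.P.len y →
      X.P.PathIn (fun w => n < X.P.len w) x y) : Target := by
  obtain ⟨C, hC⟩ := X.exists_hyp (exists_geo X)
  obtain ⟨R, hR1, hR2, ι, hprop, hgeo, hact, hd, hdense, hι⟩ :=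
    exists_realization X.graph X.connected (neighborSet_finite X)
      (P := X.G) (fun g v w h => X.adj_smul g h)
  have hhyp : Hyperbolic R := hyperbolic_of X.d ι hd hdense C hC.four
  let Y : X.Real R := ⟨ι, hact, hd, hι⟩
  refine ⟨R, hR1, X.G, inferInstance, hR2, ⟨ι X.o⟩, hprop, hgeo, hhyp, fg X hfg, hact,
    proper_disc X ι hact hd hdense hι, fun x => ?_⟩
  rw [limitSet_eq hact x (ι X.o)]
  exact ⟨Y.isConnected hgeo hhyp hC rich rich2 oneEnded,
    Y.not_lc hgeo hhyp hC rich2⟩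

theorem target : Target := by
  obtain ⟨W, hW, S, hS, ⟨pq⟩⟩ := Pool.Agent.helper82.LC.exists_pageQ
  exact target_of ⟨freeProd W, pq.toPage, pq.Q, pq.Q_e⟩ pq.fg pq.rich pq.rich2 pq.oneEnded

end Pool.Agent.helper99.LC
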